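import Mathlib

set_option autoImplicit false

open MeasureTheory Set Filter
open scoped Manifold ContDiff Topology Pointwise

namespace Pool.Agent.H68.ST

section defs

variable {E : Type*} [NormedAddCommGroup E] [NormedSpace ℝ E]

/-- A smooth distribution of constant rank `r` on the manifold `E`: near every point it is spanned
by `r` smooth vector fields that are linearly independent at every point. -/
def IsSmoothDistribution (r : ℕ) (Δ : E → Submodule ℝ E) : Prop :=
  ∀ p : E, ∃ U : Set E, IsOpen U ∧ p ∈ U ∧ ∃ X : Fin r → E → E,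
    (∀ i, ContDiffOn ℝ ∞ (X i) U) ∧
    ∀ x ∈ U, LinearIndependent ℝ (fun i => X i x) ∧
      Submodule.span ℝ (Set.range fun i => X i x) = Δ x

/-- Lebesgue measure on `[0,1]`. -/
noncomputable def mu01 : Measure ℝ := volume.restrict (Icc (0:ℝ) 1)

/-- The absolutely continuous path on `[0,1]` with starting point `q` and velocity
`u ∈ L²([0,1], E)`. -/
noncomputable def path (q : E) (u : Lp E 2 mu01) (t : ℝ) : E :=
  q + ∫ s in Icc (0:ℝ) t, u s ∂mu01

/-- The space of admissible paths starting at `q`, each path being given by its velocity; the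
`H¹` topology is the topology of `L²([0,1], E)`. -/
def admissible (Δ : E → Submodule ℝ E) (q : E) : Set (Lp E 2 mu01) :=
  {u | ∀ᵐ t ∂mu01, u t ∈ Δ (path q u t)}

/-- The path from `q` with velocity `u` is a singular curve. -/
def IsSingular (Δ : E → Submodule ℝ E) (q : E) (u : Lp E 2 mu01) : Prop :=
  u ∈ admissible Δ q ∧
    ¬ ∀ v : E, ∃ η ∈ Submodule.span ℝ (tangentConeAt ℝ (admissible Δ q) u),
      ∫ s, η s ∂mu01 = v

/-- `p` is joined to `q` by one singular curve. -/
def SingularStep (Δ : E → Submodule ℝ E) (p q : E) : Prop :=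
  ∃ u : Lp E 2 mu01, IsSingular Δ p u ∧ path p u 1 = q

/-- Singular transitivity. -/
def SingularTransitive (Δ : E → Submodule ℝ E) : Prop :=
  ∀ p q : E, Relation.ReflTransGen (SingularStep Δ) p q

/-- For every point `p` and every `v ∈ Δ p` there is a smooth singular curve starting at `p`
with initial velocity `v`. -/
def SingularInEveryDirection (Δ : E → Submodule ℝ E) : Prop :=
  ∀ p : E, ∀ v ∈ Δ p, ∃ γ : ℝ → E, ContDiff ℝ ∞ γ ∧ γ 0 = p ∧ deriv γ 0 = v ∧
    ∃ u : Lp E 2 mu01, IsSingular Δ p u ∧ ∀ t ∈ Icc (0:ℝ) 1, path p u t = γ t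

/-- `Φ` is a symmetry of `Δ`. -/
def IsSymmetry (Δ : E → Submodule ℝ E) (Φ : Equiv.Perm E) : Prop :=
  ContDiff ℝ ∞ Φ ∧ ContDiff ℝ ∞ Φ.symm ∧
    ∀ x, (Δ x).map (fderiv ℝ Φ x : E →ₗ[ℝ] E) = Δ (Φ x)

/-- The symmetries of `Δ` act transitively. -/
def IsHomogeneous (Δ : E → Submodule ℝ E) : Prop :=
  ∀ p q : E, ∃ Φ : Equiv.Perm E, IsSymmetry Δ Φ ∧ Φ p = q

/-- The vector fields obtained from smooth sections of `Δ` by iterated Lie brackets. -/
inductive IteratedBracket (Δ : E → Submodule ℝ E) : (E → E) → Prop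
  | sec (V : E → E) (hV : ContDiff ℝ ∞ V) (h : ∀ p, V p ∈ Δ p) : IteratedBracket Δ V
  | bracket (V W : E → E) (hV : IteratedBracket Δ V) (hW : IteratedBracket Δ W) :
      IteratedBracket Δ (VectorField.lieBracket ℝ V W)

/-- `Δ` is bracket generating: the iterated brackets of its sections span the tangent space at
every point. -/
def BracketGenerating (Δ : E → Submodule ℝ E) : Prop :=
  ∀ p : E, Submodule.span ℝ {v | ∃ V, IteratedBracket Δ V ∧ V p = v} = ⊤

/-- `Δ` has no Cauchy characteristic direction: if `v ∈ Δ p` and the bracket at `p` of any two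
smooth sections `V`, `W` of `Δ` with `V p = v` lies in `Δ p`, then `v = 0`. -/
def HasNoCauchyCharacteristics (Δ : E → Submodule ℝ E) : Prop :=
  ∀ p : E, ∀ v ∈ Δ p,
    (∀ V W : E → E, ContDiff ℝ ∞ V → ContDiff ℝ ∞ W → (∀ x, V x ∈ Δ x) → (∀ x, W x ∈ Δ x) →
      V p = v → VectorField.lieBracket ℝ V W p ∈ Δ p) → v = 0

/-- The symmetry group of `Δ` is a finite-dimensional Lie group: there are a finite-dimensional
smooth Lie group `G` and a group isomorphism `φ` of `G` onto the group of all symmetries of `Δ`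
with continuous orbit maps `g ↦ φ g x`, and moreover `G` is second countable or every
one-parameter group of symmetries that acts smoothly is continuous as a map into `G`. -/
def SymmetryGroupIsLie (Δ : E → Submodule ℝ E) : Prop :=
  ∃ (n : ℕ) (G : Type) (_ : TopologicalSpace G) (_ : ChartedSpace (EuclideanSpace ℝ (Fin n)) G)
    (_ : Group G) (_ : LieGroup (𝓡 n) ∞ G) (φ : G →* Equiv.Perm E),
    Function.Injective φ ∧ Set.range φ = {Φ | IsSymmetry Δ Φ} ∧
    (∀ x : E, Continuous fun g => φ g x) ∧
    (SecondCountableTopology G ∨ ∀ ρ : Multiplicative ℝ →* G,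
      ContDiff ℝ ∞ (fun p : ℝ × E => φ (ρ (Multiplicative.ofAdd p.1)) p.2) →
        Continuous fun s : ℝ => ρ (Multiplicative.ofAdd s))

/-- For every `n` the group `ℝⁿ` acts faithfully and smoothly on `E` by symmetries of `Δ`;
so there are `n` linearly independent commuting complete infinitesimal symmetries. -/
def HasSymmetryActionsOfAllRanks (Δ : E → Submodule ℝ E) : Prop :=
  ∀ n : ℕ, ∃ ρ : Multiplicative (Fin n → ℝ) →* Equiv.Perm E, Function.Injective ρ ∧
    (∀ s, IsSymmetry Δ (ρ s)) ∧
    ContDiff ℝ ∞ (fun p : (Fin n → ℝ) × E => ρ (Multiplicative.ofAdd p.1) p.2)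

end defs

/-! ### basic facts on `L²` velocities -/

section basics

variable {E : Type*} [NormedAddCommGroup E] [NormedSpace ℝ E]

instance : IsProbabilityMeasure mu01 := by
  constructor
  simp [mu01]

omit [NormedSpace ℝ E] in
lemma integrable_Lp (f : Lp E 2 mu01) : Integrable (fun s => f s) mu01 :=
  (Lp.memLp f).integrable (by norm_num)

omit [NormedSpace ℝ E] in
lemma integral_norm_le (f : Lp E 2 mu01) : ∫ s, ‖f s‖ ∂mu01 ≤ ‖f‖ := by
  have h1 : ∫ s, ‖f s‖ ∂mu01 = (eLpNorm (fun s => f s) 1 mu01).toReal := by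
    rw [eLpNorm_one_eq_lintegral_enorm]
    rw [integral_norm_eq_lintegral_enorm (integrable_Lp f).aestronglyMeasurable]
  rw [h1, Lp.norm_def]
  apply ENNReal.toReal_mono (Lp.eLpNorm_ne_top f)
  exact eLpNorm_le_eLpNorm_of_exponent_le (by norm_num) (Lp.aestronglyMeasurable f)

lemma norm_setIntegral_le (f : Lp E 2 mu01) (t : ℝ) : ‖∫ s in Icc (0:ℝ) t, f s ∂mu01‖ ≤ ‖f‖ := by
  refine (norm_integral_le_integral_norm _).trans ?_
  refine le_trans ?_ (integral_norm_le f)
  exact setIntegral_le_integral (integrable_Lp f).norm (Eventually.of_forall fun _ => norm_nonneg _)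

/-- integration of velocities, as a continuous linear map. -/
noncomputable def intCLM : Lp E 2 mu01 →L[ℝ] E :=
  LinearMap.mkContinuous
    { toFun := fun f => ∫ s, f s ∂mu01
      map_add' := fun f g => by
        rw [← integral_add (integrable_Lp f) (integrable_Lp g)]
        exact integral_congr_ae (Lp.coeFn_add f g)
      map_smul' := fun c f => by
        simp only [RingHom.id_apply]
        rw [← integral_smul]
        exact integral_congr_ae (Lp.coeFn_smul c f) } 1
    (fun f => by
      simp only [LinearMap.coe_mk, AddHom.coe_mk, one_mul]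
      exact (norm_integral_le_integral_norm _).trans (integral_norm_le f))

lemma intCLM_apply (f : Lp E 2 mu01) : intCLM f = ∫ s, f s ∂mu01 := rfl

lemma mu01_restrict_one : mu01.restrict (Icc (0:ℝ) 1) = mu01 := by
  unfold mu01
  rw [Measure.restrict_restrict measurableSet_Icc, inter_self]

lemma path_one (q : E) (u : Lp E 2 mu01) : path q u 1 = q + intCLM u := by
  unfold path
  rw [mu01_restrict_one, intCLM_apply]

lemma path_add (q : E) (u d : Lp E 2 mu01) (t : ℝ) :
    path q (u + d) t = path q u t + ∫ s in Icc (0:ℝ) t, d s ∂mu01 := by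
  unfold path
  rw [add_assoc, ← integral_add (integrable_Lp u).restrict (integrable_Lp d).restrict]
  congr 1
  apply integral_congr_ae
  exact ae_restrict_of_ae (Lp.coeFn_add u d)

/-- A path along which some function `Ψ` varies to second order only is singular. -/
lemma singular_of_fun (Δ : E → Submodule ℝ E) (q : E) (u : Lp E 2 mu01)
    (hu : u ∈ admissible Δ q) (Ψ : E → ℝ) (L : E →L[ℝ] ℝ) (hL : ∃ v, L v ≠ 0)
    (hΨ : HasFDerivAt Ψ L (path q u 1)) (C : ℝ)
    (hC : ∀ d : Lp E 2 mu01, u + d ∈ admissible Δ q → ‖d‖ ≤ 1 →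
      |Ψ (path q (u + d) 1) - Ψ q| ≤ C * (‖d‖ * ‖d‖)) : IsSingular Δ q u := by
  refine ⟨hu, fun hall => ?_⟩
  have h0 : Ψ (path q u 1) = Ψ q := by
    have := hC 0 (by simpa using hu) (by simp)
    simp only [add_zero, norm_zero, mul_zero] at this
    have h2 := abs_nonneg (Ψ (path q u 1) - Ψ q)
    have h3 : Ψ (path q u 1) - Ψ q = 0 := abs_eq_zero.mp (le_antisymm this h2)
    linarith
  let Λ : Lp E 2 mu01 →L[ℝ] ℝ := L.comp intCLM
  have hcone : ∀ η ∈ tangentConeAt ℝ (admissible Δ q) u, Λ η = 0 := by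
    intro η hη
    obtain ⟨α, l, hl, c, d, hd0, hds, hcd⟩ := exists_fun_of_mem_tangentConeAt hη
    have h1 : Tendsto (fun n => Λ (c n • d n)) l (𝓝 (Λ η)) := (Λ.continuous.tendsto η).comp hcd
    -- the linearisation error
    have hx : Tendsto (fun n => path q u 1 + intCLM (d n)) l (𝓝 (path q u 1)) := by
      have : Tendsto (fun n => path q u 1 + intCLM (d n)) l (𝓝 (path q u 1 + intCLM 0)) :=
        tendsto_const_nhds.add ((intCLM.continuous.tendsto 0).comp hd0)
      simpa using this
    have herr := hΨ.isLittleO.comp_tendsto hx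
    have hd1 : ∀ᶠ n in l, ‖d n‖ ≤ 1 := by
      have := hd0.norm
      rw [norm_zero] at this
      exact (this.eventually (gt_mem_nhds zero_lt_one)).mono fun n hn => le_of_lt hn
    have hmain : ∀ ε > 0, |Λ η| ≤ ε * (‖η‖ + 1) := by
      intro ε hε
      have h2 : ∀ᶠ n in l, ‖Ψ (path q u 1 + intCLM (d n)) - Ψ (path q u 1) - L (intCLM (d n))‖ ≤
          (ε / 2) * ‖intCLM (d n)‖ := by
        have := herr.def (half_pos hε)
        filter_upwards [this] with n hn
        simpa using hn
      have h3 : ∀ᶠ n in l, C * ‖d n‖ ≤ ε / 2 := by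
        have : Tendsto (fun n => C * ‖d n‖) l (𝓝 (C * 0)) := by
          have h := hd0.norm
          rw [norm_zero] at h
          exact h.const_mul C
        rw [mul_zero] at this
        exact (this.eventually (gt_mem_nhds (half_pos hε))).mono fun n hn => le_of_lt hn
      have h4 : ∀ᶠ n in l, ‖c n • d n‖ ≤ ‖η‖ + 1 :=
        (hcd.norm.eventually (gt_mem_nhds (lt_add_one _))).mono fun n hn => le_of_lt hn
      have h5 : ∀ᶠ n in l, |Λ (c n • d n)| ≤ ε * (‖η‖ + 1) := by
        filter_upwards [h2, h3, h4, hds, hd1] with n h2 h3 h4 h6 h7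
        have h8 := hC (d n) h6 h7
        have e1 : path q (u + d n) 1 = path q u 1 + intCLM (d n) := by
          rw [path_one, path_one, map_add, add_assoc]
        rw [e1, ← h0] at h8
        have h9 : |L (intCLM (d n))| ≤ ε * ‖d n‖ := by
          have h10 : ‖intCLM (d n)‖ ≤ ‖d n‖ :=
            (norm_integral_le_integral_norm _).trans (integral_norm_le _)
          rw [Real.norm_eq_abs] at h2
          have h11 : |L (intCLM (d n))| ≤
              |Ψ (path q u 1 + intCLM (d n)) - Ψ (path q u 1)| +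
              |Ψ (path q u 1 + intCLM (d n)) - Ψ (path q u 1) - L (intCLM (d n))| := by
            have := abs_sub_abs_le_abs_sub (L (intCLM (d n)))
              (Ψ (path q u 1 + intCLM (d n)) - Ψ (path q u 1))
            rw [abs_sub_comm (L (intCLM (d n)))
              (Ψ (path q u 1 + intCLM (d n)) - Ψ (path q u 1))] at this
            linarith
          have h12 : C * (‖d n‖ * ‖d n‖) ≤ ε / 2 * ‖d n‖ := by
            have := mul_le_mul_of_nonneg_right h3 (norm_nonneg (d n))
            linarith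
          have h13 : ε / 2 * ‖intCLM (d n)‖ ≤ ε / 2 * ‖d n‖ :=
            mul_le_mul_of_nonneg_left h10 (by linarith)
          linarith
        have h14 : Λ (c n • d n) = c n * L (intCLM (d n)) := by
          rw [map_smul, smul_eq_mul]
          rfl
        rw [h14, abs_mul]
        have h15 : |c n| * |L (intCLM (d n))| ≤ |c n| * (ε * ‖d n‖) :=
          mul_le_mul_of_nonneg_left h9 (abs_nonneg _)
        have h16 : |c n| * (ε * ‖d n‖) = ε * ‖c n • d n‖ := by
          rw [norm_smul, Real.norm_eq_abs]; ring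
        have h17 : ε * ‖c n • d n‖ ≤ ε * (‖η‖ + 1) := mul_le_mul_of_nonneg_left h4 hε.le
        linarith
      exact le_of_tendsto h1.abs h5
    by_contra hne
    have hpos : 0 < |Λ η| := abs_pos.mpr hne
    have hη1 : 0 < ‖η‖ + 1 := by positivity
    have := hmain (|Λ η| / (2 * (‖η‖ + 1))) (by positivity)
    have h2 : |Λ η| / (2 * (‖η‖ + 1)) * (‖η‖ + 1) = |Λ η| / 2 := by
      field_simp
    linarith
  have hspan : ∀ η ∈ Submodule.span ℝ (tangentConeAt ℝ (admissible Δ q) u), Λ η = 0 := by
    intro η hη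
    have : Submodule.span ℝ (tangentConeAt ℝ (admissible Δ q) u) ≤
        LinearMap.ker (Λ : Lp E 2 mu01 →ₗ[ℝ] ℝ) := by
      rw [Submodule.span_le]
      intro x hx
      exact hcone x hx
    exact this hη
  obtain ⟨v, hv⟩ := hL
  obtain ⟨η, hη, hv'⟩ := hall v
  have h1 := hspan η hη
  have h2 : Λ η = L (∫ s, η s ∂mu01) := rfl
  rw [h2, hv'] at h1
  exact hv h1

end basics

end Pool.Agent.H68.ST
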