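import Pool.Agent.H68.ST.Fam

set_option autoImplicit false
set_option linter.unusedSectionVars false

open MeasureTheory Set Filter
open scoped Manifold ContDiff Topology Pointwise

namespace Pool.Agent.H68.ST

variable {m e f g t : ℕ} {ι : Type} [Fintype ι] (σ : Coord m e f g t ≃ ι)

section general

lemma fderiv_coord_apply {V : EuclideanSpace ℝ ι → EuclideanSpace ℝ ι}
    (hV : Differentiable ℝ V) (p w : EuclideanSpace ℝ ι) (i : ι) :
    (fderiv ℝ V p w) i = fderiv ℝ (fun q => V q i) p w := by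
  have h1 : HasFDerivAt (fun q => V q i)
      ((EuclideanSpace.proj (𝕜 := ℝ) i : EuclideanSpace ℝ ι →L[ℝ] ℝ).comp (fderiv ℝ V p)) p :=
    (EuclideanSpace.proj (𝕜 := ℝ) i : EuclideanSpace ℝ ι →L[ℝ] ℝ).hasFDerivAt.comp p
      (hV p).hasFDerivAt
  rw [h1.fderiv]
  rfl

lemma lieBracket_coord {V W : EuclideanSpace ℝ ι → EuclideanSpace ℝ ι}
    (hV : Differentiable ℝ V) (hW : Differentiable ℝ W) (p : EuclideanSpace ℝ ι) (i : ι) :
    (VectorField.lieBracket ℝ V W p) i =
      fderiv ℝ (fun q => W q i) p (V p) - fderiv ℝ (fun q => V q i) p (W p) := by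
  rw [VectorField.lieBracket, PiLp.sub_apply, fderiv_coord_apply hW, fderiv_coord_apply hV]

lemma hasFDerivAt_coord (i : ι) (p : EuclideanSpace ℝ ι) :
    HasFDerivAt (fun q : EuclideanSpace ℝ ι => q i)
      (EuclideanSpace.proj (𝕜 := ℝ) i : EuclideanSpace ℝ ι →L[ℝ] ℝ) p :=
  (EuclideanSpace.proj (𝕜 := ℝ) i : EuclideanSpace ℝ ι →L[ℝ] ℝ).hasFDerivAt

@[simp] lemma fderiv_coord (i : ι) (p w : EuclideanSpace ℝ ι) :
    fderiv ℝ (fun q : EuclideanSpace ℝ ι => q i) p w = w i := by
  rw [(hasFDerivAt_coord i p).fderiv]; rfl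

lemma fderiv_coord_pow_mul (i : ι) (k : ℕ) (c : ℝ) (p w : EuclideanSpace ℝ ι) :
    fderiv ℝ (fun q : EuclideanSpace ℝ ι => q i ^ k * c) p w = k * p i ^ (k - 1) * w i * c := by
  rw [(((hasFDerivAt_coord i p).pow k).mul_const c).fderiv]
  simp
  ring

lemma fderiv_const_mul_coord_pow (a : ℝ) (i : ι) (k : ℕ) (p w : EuclideanSpace ℝ ι) :
    fderiv ℝ (fun q : EuclideanSpace ℝ ι => a * q i ^ k) p w = a * (k * p i ^ (k - 1) * w i) := by
  rw [(((hasFDerivAt_coord i p).pow k).const_mul a).fderiv]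
  simp

lemma fderiv_const_mul_coord (a : ℝ) (i : ι) (p w : EuclideanSpace ℝ ι) :
    fderiv ℝ (fun q : EuclideanSpace ℝ ι => a * q i) p w = a * w i := by
  rw [((hasFDerivAt_coord i p).const_mul a).fderiv]
  simp

lemma fderiv_along {Ψ : EuclideanSpace ℝ ι → ℝ} {p v : EuclideanSpace ℝ ι} {c : ℝ}
    (hΨ : DifferentiableAt ℝ Ψ p) (h : ∀ r : ℝ, Ψ (p + r • v) = Ψ p + r * c) :
    fderiv ℝ Ψ p v = c := by
  have h1 : HasDerivAt (fun r : ℝ => p + r • v) v 0 := by
    have := ((hasDerivAt_id (0:ℝ)).smul_const v).const_add p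
    simpa using this
  have h0 : HasFDerivAt Ψ (fderiv ℝ Ψ p) (p + (0:ℝ) • v) := by
    rw [zero_smul, add_zero]; exact hΨ.hasFDerivAt
  have h2 := h0.comp_hasDerivAt (0:ℝ) h1
  have h3 : HasDerivAt (fun r : ℝ => Ψ p + r * c) c 0 := by
    have := ((hasDerivAt_id (0:ℝ)).mul_const c).const_add (Ψ p)
    simpa using this
  have h4 : (Ψ ∘ fun r : ℝ => p + r • v) = fun r => Ψ p + r * c := funext h
  rw [h4] at h2
  exact h2.unique h3

lemma differentiable_coord (i : ι) :
    Differentiable ℝ (fun p : EuclideanSpace ℝ ι => p i) :=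
  (contDiff_coord i).differentiable (by simp)

end general

lemma sQ_add (p q : EuclideanSpace ℝ ι) : sQ (f := f) σ (p + q) = sQ σ p + sQ σ q := by
  simp [sQ, Finset.sum_add_distrib]

lemma sQ_smul (c : ℝ) (p : EuclideanSpace ℝ ι) : sQ (f := f) σ (c • p) = c * sQ σ p := by
  simp [sQ, Finset.mul_sum]

lemma sQ_L (w : Hor f t → ℝ) (p : EuclideanSpace ℝ ι) :
    sQ σ (L (m := m) (e := e) (g := g) σ w p) = ∑ i, w (.Q i) := by
  simp [sQ]

lemma fderiv_sQ_mul (c : ℝ) (p w : EuclideanSpace ℝ ι) :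
    fderiv ℝ (fun q : EuclideanSpace ℝ ι => sQ (f := f) σ q * c) p w = sQ σ w * c := by
  apply fderiv_along
  · exact (((contDiff_sQ σ).mul contDiff_const).differentiable (by simp)) p
  · intro r
    rw [sQ_add, sQ_smul]
    ring

lemma fderiv_cZ (v : Hor f t → ℝ) (p w : EuclideanSpace ℝ ι) :
    fderiv ℝ (fun q : EuclideanSpace ℝ ι => q (σ (.inl .P)) * v .X + sQ σ q * v .Y +
      ∑ k : Fin t, q (σ (.inl (.A k))) * v (.E k)) p w =
      w (σ (.inl .P)) * v .X + sQ σ w * v .Y + ∑ k : Fin t, w (σ (.inl (.A k))) * v (.E k) := by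
  apply fderiv_along
  · have h1 : ContDiff ℝ ∞ (fun p : EuclideanSpace ℝ ι => p (σ (.inl .P)) * v .X + sQ σ p * v .Y +
        ∑ k : Fin t, p (σ (.inl (.A k))) * v (.E k)) :=
        (((contDiff_coord _).mul contDiff_const).add ((contDiff_sQ σ).mul contDiff_const)).add
          (ContDiff.sum fun i _ => (contDiff_coord _).mul contDiff_const)
    exact (h1.differentiable (by simp)) p
  · intro r
    rw [sQ_add, sQ_smul]
    simp only [PiLp.add_apply, PiLp.smul_apply, smul_eq_mul, add_mul, Finset.sum_add_distrib]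
    have : ∀ k : Fin t, r * w (σ (.inl (.A k))) * v (.E k) =
      r * (w (σ (.inl (.A k))) * v (.E k)) := fun k => by ring
    simp only [this, ← Finset.mul_sum]
    ring

lemma diff_L (w : Hor f t → ℝ) : Differentiable ℝ (L (m := m) (e := e) (g := g) σ w) :=
  (contDiff_L σ w).differentiable (by simp)

/-- coordinates of the bracket of two lifts. -/
def cBr (v w : Hor f t → ℝ) (p : EuclideanSpace ℝ ι) : Coord m e f g t → ℝ
  | .inl _ => 0
  | .inr (.U j) => (((j : ℕ) + 1 : ℕ) : ℝ) * p (σ (.inl .Y)) ^ (j : ℕ) * (v .Y * w .X - w .Y * v .X)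
  | .inr (.B _) => 2 * p (σ (.inl .X)) * (v .X * w .Y - w .X * v .Y)
  | .inr (.C _) => (∑ i, v (.Q i)) * w .Y - (∑ i, w (.Q i)) * v .Y
  | .inr .Z => v .P * w .X - w .P * v .X + ((∑ i, v (.Q i)) * w .Y - (∑ i, w (.Q i)) * v .Y) +
      ∑ k : Fin t, (v (.A k) * w (.E k) - w (.A k) * v (.E k))

lemma bracket_L (v w : Hor f t → ℝ) (p : EuclideanSpace ℝ ι) :
    VectorField.lieBracket ℝ (L (m := m) (e := e) (g := g) σ v) (L σ w) p =
      mk σ (cBr σ v w p) := by
  apply ext_coord σ
  intro c
  rw [lieBracket_coord (diff_L σ v) (diff_L σ w), mk_apply]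
  rcases c with h | h
  · simp [cBr]
  · cases h with
    | U j =>
      simp only [L_U, fderiv_coord_pow_mul, L_inl, cBr, Nat.add_sub_cancel]
      ring
    | B i =>
      simp only [L_B, fderiv_coord_pow_mul, L_inl, cBr, Nat.cast_ofNat]
      ring
    | C i =>
      simp only [L_C, fderiv_sQ_mul, cBr, sQ_L]
    | Z =>
      simp only [L_Z, fderiv_cZ, cBr, sQ_L, L_inl, Finset.sum_sub_distrib]
      ring

/-! ### bracket generation -/

/-- coordinate vectors. -/
noncomputable def ev (c : Coord m e f g t) : EuclideanSpace ℝ ι := mk σ (Pi.single c 1)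

lemma ev_apply (c c' : Coord m e f g t) : ev σ c (σ c') = if c' = c then 1 else 0 := by
  simp [ev, Pi.single_apply]

lemma sum_ev (v : EuclideanSpace ℝ ι) : v = ∑ c, v (σ c) • ev σ c := by
  apply ext_coord σ
  intro c'
  have : (∑ c, v (σ c) • ev σ c) (σ c') = ∑ c, v (σ c) * (ev σ c) (σ c') := by simp
  rw [this]
  simp [ev_apply]

lemma sum_ver {m e g : ℕ} (φ : Ver m e g → ℝ) : ∑ c, φ c =
    φ .Z + (∑ j, φ (.U j) + (∑ i, φ (.B i) + ∑ i, φ (.C i))) := by
  rw [← Equiv.sum_comp (verEquiv m e g).symm]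
  rw [Fintype.sum_sum_type, Fintype.sum_sum_type, Fintype.sum_sum_type, Fin.sum_univ_one]
  rfl

lemma linear_expand (Λ : EuclideanSpace ℝ ι →ₗ[ℝ] ℝ) (v : EuclideanSpace ℝ ι)
    (hv : ∀ h : Hor f t, v (σ (.inl h)) = 0 ∨ Λ (ev σ (.inl h)) = 0) :
    Λ v = v (σ (.inr .Z)) * Λ (ev σ (.inr .Z)) +
      (∑ j, v (σ (.inr (.U j))) * Λ (ev σ (.inr (.U j))) +
      (∑ i, v (σ (.inr (.B i))) * Λ (ev σ (.inr (.B i))) +
        ∑ i, v (σ (.inr (.C i))) * Λ (ev σ (.inr (.C i))))) := by
  have h1 : Λ v = ∑ c, v (σ c) * Λ (ev σ c) := by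
    conv_lhs => rw [sum_ev σ v]
    rw [map_sum]
    apply Finset.sum_congr rfl
    intro c _
    rw [map_smul, smul_eq_mul]
  rw [h1, Fintype.sum_sum_type]
  have h2 : ∑ h : Hor f t, v (σ (.inl h)) * Λ (ev σ (.inl h)) = 0 := by
    apply Finset.sum_eq_zero
    intro h _
    rcases hv h with h3 | h3 <;> rw [h3]
    · rw [zero_mul]
    · rw [mul_zero]
  rw [h2, zero_add, sum_ver]

/-- coordinates of iterated brackets. -/
def cW (l : ℕ) (p : EuclideanSpace ℝ ι) : Coord m e f g t → ℝ
  | .inl _ => 0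
  | .inr (.U j) => (((j : ℕ) + 1).descFactorial l : ℝ) * p (σ (.inl .Y)) ^ ((j : ℕ) + 1 - l)
  | .inr (.B _) => if l = 1 then -2 * p (σ (.inl .X)) else 0
  | .inr (.C _) => 0
  | .inr .Z => 0

/-- iterated brackets. -/
noncomputable def W (l : ℕ) (p : EuclideanSpace ℝ ι) : EuclideanSpace ℝ ι := mk σ (cW σ l p)

section
variable (l : ℕ) (p : EuclideanSpace ℝ ι)
@[simp] lemma W_inl (h : Hor f t) : W σ l p (σ (.inl h)) = 0 := by simp [W, cW]
@[simp] lemma W_U (j : Fin m) : W σ l p (σ (.inr (.U j))) =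
    (((j : ℕ) + 1).descFactorial l : ℝ) * p (σ (.inl .Y)) ^ ((j : ℕ) + 1 - l) := by simp [W, cW]
@[simp] lemma W_B (i : Fin e) : W σ l p (σ (.inr (.B i))) =
    if l = 1 then -2 * p (σ (.inl .X)) else 0 := by simp [W, cW]
@[simp] lemma W_C (i : Fin g) : W σ l p (σ (.inr (.C i))) = 0 := by simp [W, cW]
@[simp] lemma W_Z : W σ l p (σ (.inr .Z)) = 0 := by simp [W, cW]
end

lemma contDiff_W (l : ℕ) : ContDiff ℝ ∞ (W σ l) := by
  apply contDiff_of_coord σ
  rintro (h | h)
  · simpa using contDiff_const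
  · cases h with
    | U j => simpa using contDiff_const.mul ((contDiff_coord (σ (.inl .Y))).pow _)
    | B i =>
      by_cases h : l = 1
      · simpa [h] using ((contDiff_const (c := (2:ℝ))).mul (contDiff_coord (σ (.inl .X)))).neg
      · simpa [h] using contDiff_const
    | C i => simpa using contDiff_const
    | Z => simpa using contDiff_const

lemma diff_W (l : ℕ) : Differentiable ℝ (W σ l) := (contDiff_W σ l).differentiable (by simp)

/-- horizontal coordinate vectors. -/
noncomputable def hv (h : Hor f t) : Hor f t → ℝ := Pi.single h 1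

lemma bracket_G_F : VectorField.lieBracket ℝ (L σ (hv .Y)) (L σ (hv .X)) = W σ 1 := by
  funext p
  rw [bracket_L]
  apply ext_coord σ
  rintro (h | h)
  · simp [cBr]
  · cases h <;> simp [cBr, hv, Pi.single_apply]

lemma bracket_G_W (l : ℕ) (hl : 1 ≤ l) :
    VectorField.lieBracket ℝ (L σ (hv .Y)) (W σ l) = W σ (l + 1) := by
  funext p
  apply ext_coord σ
  intro c
  rw [lieBracket_coord (diff_L σ _) (diff_W σ l)]
  rcases c with h | h
  · simp
  · cases h with
    | U j =>
      simp only [W_U, L_U, fderiv_const_mul_coord_pow, fderiv_coord_pow_mul, L_inl, W_inl]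
      rw [Nat.descFactorial_succ, ← Nat.sub_sub]
      simp [hv]
      ring
    | B i =>
      by_cases h : l = 1
      · have h2 : ¬ l = 0 := by omega
        simp only [W_B, L_B, h, if_true, fderiv_const_mul_coord, fderiv_coord_pow_mul, L_inl, W_inl]
        simp [hv]
      · have h2 : ¬ l = 0 := by omega
        simp only [W_B, L_B, h, if_false, fderiv_coord_pow_mul, L_inl, W_inl]
        simp [h2]
    | C i =>
      simp only [W_C, L_C, fderiv_sQ_mul]
      simp [sQ]
    | Z =>
      simp only [W_Z, L_Z, fderiv_cZ]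
      simp [sQ]

lemma bracket_F_W : VectorField.lieBracket ℝ (L σ (hv .X)) (W σ 1) =
    fun _ => mk σ (fun | .inr (.B _) => -2 | _ => 0) := by
  funext p
  apply ext_coord σ
  intro c
  rw [lieBracket_coord (diff_L σ _) (diff_W σ 1), mk_apply]
  rcases c with h | h
  · simp
  · cases h with
    | U j =>
      simp only [W_U, L_U, fderiv_const_mul_coord_pow, fderiv_coord_pow_mul, L_inl, W_inl]
      simp [hv]
    | B i =>
      simp only [W_B, L_B, if_true, fderiv_const_mul_coord, fderiv_coord_pow_mul, L_inl, W_inl]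
      simp [hv]
    | C i =>
      simp only [W_C, L_C, fderiv_sQ_mul]
      simp [sQ]
    | Z =>
      simp only [W_Z, L_Z, fderiv_cZ]
      simp [sQ]

lemma iter_L (w : Hor f t → ℝ) :
    IteratedBracket (D (m := m) (e := e) (g := g) σ) (L σ w) :=
  .sec _ (contDiff_L σ w) (L_mem σ w)

lemma iter_W (l : ℕ) : IteratedBracket (D σ) (W σ (l + 1)) := by
  induction l with
  | zero =>
    rw [zero_add, ← bracket_G_F]
    exact .bracket _ _ (iter_L σ _) (iter_L σ _)
  | succ l ih =>
    rw [← bracket_G_W σ (l + 1) (by omega)]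
    exact .bracket _ _ (iter_L σ _) ih

theorem bracketGenerating_D (he : e ≤ 1) (hg : g ≤ 1) (hgf : g ≤ f) :
    BracketGenerating (D σ) := by
  intro p
  by_contra hne
  obtain ⟨Λ, hΛ, hle⟩ := Submodule.exists_le_ker_of_lt_top _ (lt_top_iff_ne_top.mpr hne)
  apply hΛ
  have key : ∀ V, IteratedBracket (D σ) V → Λ (V p) = 0 := by
    intro V hV
    exact hle (Submodule.subset_span ⟨V, hV, rfl⟩)
  -- the coordinate `Z`
  have hZ : Λ (ev σ (.inr .Z)) = 0 := by
    have h := key _ (.bracket _ _ (iter_L σ (hv .P)) (iter_L σ (hv .X)))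
    rw [bracket_L] at h
    have h2 : mk σ (cBr σ (hv .P) (hv .X) p) = ev σ (.inr .Z) := by
      apply ext_coord σ
      rintro (h | h)
      · simp [cBr, ev_apply]
      · cases h <;> simp [cBr, ev_apply, hv, Pi.single_apply]
    rwa [h2] at h
  -- the coordinates `B`
  have hB : ∀ i, Λ (ev σ (.inr (.B i))) = 0 := by
    intro i
    have h := key _ (.bracket _ _ (iter_L σ (hv .X)) (iter_W σ 0))
    rw [bracket_F_W] at h
    have h2 : (mk σ (fun | .inr (.B _) => -2 | _ => 0) : EuclideanSpace ℝ ι) =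
        (-2 : ℝ) • ev σ (.inr (.B i)) := by
      apply ext_coord σ
      rintro (h | h)
      · simp [ev_apply]
      · cases h with
        | B k =>
          have hk : k = i := by
            apply Fin.ext
            have := k.2
            have := i.2
            omega
          simp [ev_apply, hk]
        | _ => simp [ev_apply]
    rw [h2, map_smul, smul_eq_mul] at h
    linarith
  -- the coordinates `C`
  have hC : ∀ i, Λ (ev σ (.inr (.C i))) = 0 := by
    intro i
    have hf : 0 < f := by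
      have := i.2
      omega
    have h := key _ (.bracket _ _ (iter_L σ (hv (.Q ⟨0, hf⟩))) (iter_L σ (hv .Y)))
    rw [bracket_L] at h
    have h2 : mk σ (cBr σ (hv (.Q ⟨0, hf⟩)) (hv .Y) p) =
        ev σ (.inr (.C i)) + ev σ (.inr .Z) := by
      apply ext_coord σ
      rintro (h | h)
      · simp [cBr, ev_apply]
      · cases h with
        | C k =>
          have hk : k = i := by
            apply Fin.ext
            have := k.2
            have := i.2
            omega
          simp [cBr, ev_apply, hv, Pi.single_apply, hk]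
        | _ => simp [cBr, ev_apply, hv, Pi.single_apply]
    rw [h2, map_add, hZ, add_zero] at h
    exact h
  -- the coordinates `U`
  have hU : ∀ k : ℕ, ∀ j : Fin m, m ≤ (j : ℕ) + k → Λ (ev σ (.inr (.U j))) = 0 := by
    intro k
    induction k with
    | zero =>
      intro j hj
      have := j.2
      omega
    | succ k ih =>
      intro j hj
      by_cases hj2 : m ≤ (j : ℕ) + k
      · exact ih j hj2
      have h := key _ (iter_W σ (j : ℕ))
      rw [linear_expand σ Λ _ (fun h => Or.inl (by simp))] at h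
      have h3 : ∑ j' : Fin m, (W σ ((j : ℕ) + 1) p) (σ (.inr (.U j'))) * Λ (ev σ (.inr (.U j'))) =
          (W σ ((j : ℕ) + 1) p) (σ (.inr (.U j))) * Λ (ev σ (.inr (.U j))) := by
        apply Finset.sum_eq_single j
        · intro b _ hb
          rcases lt_or_gt_of_ne hb with hlt | hgt
          · have : ((b : ℕ) + 1).descFactorial ((j : ℕ) + 1) = 0 := by
              apply Nat.descFactorial_of_lt
              have : (b : ℕ) < j := hlt
              omega
            rw [W_U, this]
            simp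
          · rw [ih b (by have : (j : ℕ) < b := hgt; omega), mul_zero]
        · intro h; exact absurd (Finset.mem_univ _) h
      rw [h3] at h
      simp only [W_Z, W_C, zero_mul, hB, mul_zero, Finset.sum_const_zero, add_zero,
        zero_add, W_U, Nat.sub_self, pow_zero, mul_one, Nat.descFactorial_self] at h
      have h4 : ((((j : ℕ) + 1).factorial : ℕ) : ℝ) ≠ 0 := by exact_mod_cast Nat.factorial_ne_zero _
      exact (mul_eq_zero.mp h).resolve_left h4
  have hU' : ∀ j : Fin m, Λ (ev σ (.inr (.U j))) = 0 := fun j => hU m j (by omega)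
  -- horizontal coordinates
  have hH : ∀ h : Hor f t, Λ (ev σ (.inl h)) = 0 := by
    intro h
    have h1 := key _ (iter_L σ (hv h))
    have h2 : L σ (hv h) p = ev σ (.inl h) + (L σ (hv h) p - ev σ (.inl h)) := by abel
    rw [h2, map_add] at h1
    rw [linear_expand σ Λ (L σ (hv h) p - ev σ (.inl h)) (fun h' => Or.inl (by
      simp [ev_apply, hv, Pi.single_apply]))] at h1
    simpa [hZ, hU', hB, hC] using h1
  apply LinearMap.ext
  intro v
  rw [linear_expand σ Λ v (fun h => Or.inr (hH h))]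
  simp [hZ, hU', hB, hC]

theorem noCauchy_D (hf : f ≤ 1) (hmf : 1 ≤ m ∨ 1 ≤ f) : HasNoCauchyCharacteristics (D σ) := by
  intro p v hvD h
  set w := hor σ v with hw
  have hLv : L σ w p = v := (eq_L σ hvD).symm
  have key : ∀ w' : Hor f t → ℝ, mk σ (cBr σ w w' p) ∈ D σ p := by
    intro w'
    rw [← bracket_L]
    exact h (L σ w) (L σ w') (contDiff_L σ w) (contDiff_L σ w') (L_mem σ w) (L_mem σ w') hLv
  have kZ : ∀ w' : Hor f t → ℝ, w .P * w' .X - w' .P * w .X + ((∑ i, w (.Q i)) * w' .Y -
      (∑ i, w' (.Q i)) * w .Y) + ∑ k : Fin t, (w (.A k) * w' (.E k) - w' (.A k) * w (.E k)) = 0 := by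
    intro w'
    have h1 := ((mem_D σ _ _).mp (key w')).2.2.2
    simpa [cBr] using h1
  have kX : w .X = 0 := by
    have := kZ (hv .P)
    simpa [hv, Pi.single_apply] using this
  have kP : w .P = 0 := by
    have := kZ (hv .X)
    simpa [hv, Pi.single_apply] using this
  have kE : ∀ k, w (.E k) = 0 := by
    intro k
    have := kZ (hv (.A k))
    simpa [hv, Pi.single_apply] using this
  have kA : ∀ k, w (.A k) = 0 := by
    intro k
    have := kZ (hv (.E k))
    simpa [hv, Pi.single_apply] using this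
  have kQs : ∑ i, w (.Q i) = 0 := by
    have := kZ (hv .Y)
    simpa [hv, Pi.single_apply] using this
  have kQ : ∀ i, w (.Q i) = 0 := by
    intro i
    have : ∑ i', w (.Q i') = w (.Q i) := by
      apply Finset.sum_eq_single i
      · intro b _ hb
        exact absurd (Fin.ext (by have := b.2; have := i.2; omega)) hb
      · intro h; exact absurd (Finset.mem_univ _) h
    rw [← this]
    exact kQs
  have kY : w .Y = 0 := by
    rcases hmf with h1 | h1
    · have h2 := ((mem_D σ _ _).mp (key (hv .X))).1 ⟨0, h1⟩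
      simpa [cBr, hv, Pi.single_apply, kX] using h2
    · have := kZ (hv (.Q ⟨0, h1⟩))
      simpa [hv, Pi.single_apply] using this
  have hw0 : w = 0 := by
    funext h
    cases h with
    | X => exact kX
    | Y => exact kY
    | P => exact kP
    | Q i => exact kQ i
    | A k => exact kA k
    | E k => exact kE k
  rw [← hLv, hw0]
  apply ext_coord σ
  rintro (h | h)
  · simp
  · cases h <;> simp

end Pool.Agent.H68.ST
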