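import Pool.Agent.H68.ST.Prim

set_option autoImplicit false

open MeasureTheory Set Filter
open scoped Manifold ContDiff Topology Pointwise

namespace Pool.Agent.H68.ST

variable {ι : Type} [Fintype ι]

/-- a smooth curve is a path with an `L²` velocity. -/
lemma exists_velocity (γ : ℝ → EuclideanSpace ℝ ι) (hγ : ContDiff ℝ ∞ γ) :
    ∃ u : Lp (EuclideanSpace ℝ ι) 2 mu01, (∀ᵐ t ∂mu01, u t = deriv γ t) ∧
      ∀ t ∈ Icc (0:ℝ) 1, path (γ 0) u t = γ t := by
  have hc : Continuous (deriv γ) := (contDiff_infty_iff_deriv.mp hγ).2.continuous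
  obtain ⟨C, hC⟩ := isCompact_Icc.exists_bound_of_continuousOn (s := Icc (0:ℝ) 1) hc.continuousOn
  have hmem : MemLp (deriv γ) 2 mu01 := by
    apply MemLp.of_bound hc.aestronglyMeasurable C
    have h1 : ∀ᵐ t ∂mu01, t ∈ Icc (0:ℝ) 1 := ae_restrict_mem measurableSet_Icc
    filter_upwards [h1] with t ht using hC t ht
  refine ⟨hmem.toLp _, hmem.coeFn_toLp, ?_⟩
  intro t ht
  unfold path
  have h1 : ∫ s in Icc (0:ℝ) t, (hmem.toLp (deriv γ)) s ∂mu01 = ∫ s in Icc (0:ℝ) t, deriv γ s ∂mu01 :=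
    integral_congr_ae (ae_restrict_of_ae hmem.coeFn_toLp)
  have h2 : ∫ s in Icc (0:ℝ) t, deriv γ s ∂mu01 = γ t - γ 0 := by
    unfold mu01
    rw [Measure.restrict_restrict measurableSet_Icc]
    have : Icc (0:ℝ) t ∩ Icc 0 1 = Icc 0 t :=
      inter_eq_left.mpr (Icc_subset_Icc_right ht.2)
    rw [this, integral_Icc_eq_integral_Ioc, ← intervalIntegral.integral_of_le ht.1]
    apply intervalIntegral.integral_deriv_eq_sub
    · intro x _
      exact (hγ.differentiable (by simp)).differentiableAt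
    · exact hc.intervalIntegrable _ _
  rw [h1, h2]
  abel

/-- a smooth curve with derivative in `Δ` is admissible. -/
lemma admissible_of_curve (Δ : EuclideanSpace ℝ ι → Submodule ℝ (EuclideanSpace ℝ ι))
    (γ : ℝ → EuclideanSpace ℝ ι) (u : Lp (EuclideanSpace ℝ ι) 2 mu01)
    (hu : ∀ᵐ t ∂mu01, u t = deriv γ t) (hp : ∀ t ∈ Icc (0:ℝ) 1, path (γ 0) u t = γ t)
    (h : ∀ t ∈ Icc (0:ℝ) 1, deriv γ t ∈ Δ (γ t)) : u ∈ admissible Δ (γ 0) := by
  have h1 : ∀ᵐ t ∂mu01, t ∈ Icc (0:ℝ) 1 := ae_restrict_mem measurableSet_Icc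
  filter_upwards [h1, hu] with t ht h2
  rw [h2, hp t ht]
  exact h t ht

end Pool.Agent.H68.ST
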