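import Pool.Agent.H68.ST.Trans

set_option autoImplicit false
set_option linter.unusedSectionVars false

open MeasureTheory Set Filter
open scoped Manifold ContDiff Topology Pointwise

namespace Pool.Agent.H68.ST

variable {ι : Type} [Fintype ι] {m e f g t : ℕ} (σ : Coord m e f g t ≃ ι)

lemma prim_deriv {φ : ℝ → ℝ} (hf : ContDiff ℝ ∞ φ) (c r : ℝ) :
    HasDerivAt (fun r => c + ∫ s in (0:ℝ)..r, φ s) (φ r) r :=
  (hf.continuous.integral_hasStrictDerivAt 0 r).hasDerivAt.const_add c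

lemma prim_smooth {φ : ℝ → ℝ} (hf : ContDiff ℝ ∞ φ) (c : ℝ) :
    ContDiff ℝ ∞ (fun r => c + ∫ s in (0:ℝ)..r, φ s) := by
  rw [contDiff_infty_iff_deriv]
  have h : deriv (fun r => c + ∫ s in (0:ℝ)..r, φ s) = φ := by
    funext r
    exact (prim_deriv hf c r).deriv
  exact ⟨fun r => (prim_deriv hf c r).differentiableAt, by rw [h]; exact hf⟩

lemma deriv_coord {γ : ℝ → EuclideanSpace ℝ ι} (hγ : Differentiable ℝ γ) (r : ℝ) (i : ι) :
    (deriv γ r) i = deriv (fun r => γ r i) r := by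
  have h1 : HasDerivAt (fun r => γ r i)
      ((EuclideanSpace.proj (𝕜 := ℝ) i : EuclideanSpace ℝ ι →L[ℝ] ℝ) (deriv γ r)) r :=
    (EuclideanSpace.proj (𝕜 := ℝ) i : EuclideanSpace ℝ ι →L[ℝ] ℝ).hasFDerivAt.comp_hasDerivAt r
      (hγ r).hasDerivAt
  rw [h1.deriv]
  rfl

lemma deriv_affine (a b r : ℝ) : deriv (fun r => a + b * r) r = b := by
  have h : HasDerivAt (fun r => a + b * r) b r := by
    simpa using ((hasDerivAt_id r).const_mul b).const_add a
  exact h.deriv

lemma contDiff_affine (a b : ℝ) : ContDiff ℝ ∞ (fun r : ℝ => a + b * r) :=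
  contDiff_const.add (contDiff_const.mul contDiff_id)

/-- velocities of the vertical coordinates along a curve with affine horizontal coordinates. -/
noncomputable def vel (p v : EuclideanSpace ℝ ι) (r : ℝ) : Ver m e g → ℝ
  | .U j => (p (σ (.inl .Y)) + v (σ (.inl .Y)) * r) ^ ((j : ℕ) + 1) * v (σ (.inl .X))
  | .B _ => (p (σ (.inl .X)) + v (σ (.inl .X)) * r) ^ 2 * v (σ (.inl .Y))
  | .C _ => (sQ (f := f) σ p + sQ (f := f) σ v * r) * v (σ (.inl .Y))
  | .Z => (p (σ (.inl .P)) + v (σ (.inl .P)) * r) * v (σ (.inl .X)) +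
      (sQ (f := f) σ p + sQ (f := f) σ v * r) * v (σ (.inl .Y)) +
      ∑ k : Fin t, (p (σ (.inl (.A k))) + v (σ (.inl (.A k))) * r) * v (σ (.inl (.E k)))

lemma contDiff_vel (p v : EuclideanSpace ℝ ι) (h : Ver m e g) :
    ContDiff ℝ ∞ (fun r => vel σ p v r h) := by
  cases h with
  | U j => exact ((contDiff_affine _ _).pow _).mul contDiff_const
  | B i => exact ((contDiff_affine _ _).pow _).mul contDiff_const
  | C i => exact (contDiff_affine _ _).mul contDiff_const
  | Z =>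
    exact (((contDiff_affine _ _).mul contDiff_const).add
      ((contDiff_affine _ _).mul contDiff_const)).add
      (ContDiff.sum fun k _ => (contDiff_affine _ _).mul contDiff_const)

/-- coordinates of the curve. -/
noncomputable def cCur (p v : EuclideanSpace ℝ ι) (r : ℝ) : Coord m e f g t → ℝ
  | .inl h => p (σ (.inl h)) + v (σ (.inl h)) * r
  | .inr h => p (σ (.inr h)) + ∫ s in (0:ℝ)..r, vel σ p v s h

/-- the curve with affine horizontal coordinates. -/
noncomputable def cur (p v : EuclideanSpace ℝ ι) (r : ℝ) : EuclideanSpace ℝ ι :=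
  mk σ (cCur σ p v r)

@[simp] lemma cur_inl (p v : EuclideanSpace ℝ ι) (r : ℝ) (h : Hor f t) :
    cur σ p v r (σ (.inl h)) = p (σ (.inl h)) + v (σ (.inl h)) * r := by simp [cur, cCur]

@[simp] lemma cur_inr (p v : EuclideanSpace ℝ ι) (r : ℝ) (h : Ver m e g) :
    cur σ p v r (σ (.inr h)) = p (σ (.inr h)) + ∫ s in (0:ℝ)..r, vel σ p v s h := by
  simp [cur, cCur]

lemma contDiff_cur (p v : EuclideanSpace ℝ ι) : ContDiff ℝ ∞ (cur σ p v) := by
  apply contDiff_of_coord σ
  rintro (h | h)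
  · simp only [cur_inl]
    exact contDiff_affine _ _
  · simp only [cur_inr]
    exact prim_smooth (contDiff_vel σ p v h) _

lemma deriv_cur_inl (p v : EuclideanSpace ℝ ι) (r : ℝ) (h : Hor f t) :
    (deriv (cur σ p v) r) (σ (.inl h)) = v (σ (.inl h)) := by
  rw [deriv_coord ((contDiff_cur σ p v).differentiable (by simp))]
  simp only [cur_inl]
  rw [deriv_affine]

lemma deriv_cur_inr (p v : EuclideanSpace ℝ ι) (r : ℝ) (h : Ver m e g) :
    (deriv (cur σ p v) r) (σ (.inr h)) = vel σ p v r h := by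
  rw [deriv_coord ((contDiff_cur σ p v).differentiable (by simp))]
  simp only [cur_inr]
  exact (prim_deriv (contDiff_vel σ p v h) _ r).deriv

lemma sQ_cur (p v : EuclideanSpace ℝ ι) (r : ℝ) :
    sQ σ (cur σ p v r) = sQ σ p + sQ σ v * r := by
  simp [sQ, Finset.sum_add_distrib, Finset.sum_mul]

lemma deriv_cur_mem (p v : EuclideanSpace ℝ ι) (r : ℝ) :
    deriv (cur σ p v) r ∈ D σ (cur σ p v r) := by
  rw [mem_D]
  refine ⟨fun j => ?_, fun i => ?_, fun i => ?_, ?_⟩
  · rw [deriv_cur_inr, deriv_cur_inl, cur_inl]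
    rfl
  · rw [deriv_cur_inr, deriv_cur_inl, cur_inl]
    rfl
  · rw [deriv_cur_inr, deriv_cur_inl, sQ_cur]
    rfl
  · rw [deriv_cur_inr, deriv_cur_inl, deriv_cur_inl, sQ_cur, cur_inl]
    simp only [deriv_cur_inl, cur_inl]
    rfl

lemma cur_zero (p v : EuclideanSpace ℝ ι) : cur σ p v 0 = p := by
  apply ext_coord σ
  rintro (h | h) <;> simp

lemma deriv_cur_zero {p v : EuclideanSpace ℝ ι} (hv : v ∈ D σ p) :
    deriv (cur σ p v) 0 = v := by
  have h1 := deriv_cur_mem σ p v 0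
  rw [cur_zero] at h1
  have h2 : hor σ (deriv (cur σ p v) 0) = hor (m := m) (e := e) (g := g) (t := t) (f := f) σ v := by
    funext h
    unfold hor
    rw [deriv_cur_inl]
  rw [eq_L σ h1, h2, ← eq_L σ hv]

theorem everyDirection_D (hm : 2 ≤ m) (he : 1 ≤ e) : SingularInEveryDirection (D σ) := by
  intro p v hv
  refine ⟨cur σ p v, contDiff_cur σ p v, cur_zero σ p v, deriv_cur_zero σ hv, ?_⟩
  have hs : IsSingularCurve (D σ) (cur σ p v) := by
    by_cases hb : v (σ (.inl .Y)) = 0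
    · exact curve_one σ hm _ (contDiff_cur σ p v) (deriv_cur_mem σ p v) fun r => by
        rw [deriv_cur_inl, hb]
    · exact curve_three σ hm ⟨0, he⟩ _ (contDiff_cur σ p v) (deriv_cur_mem σ p v)
        (v (σ (.inl .X))) (v (σ (.inl .Y))) hb fun r => by
        rw [deriv_cur_inl, deriv_cur_inl]; ring
  obtain ⟨u, hu, hp⟩ := hs
  rw [cur_zero] at hu hp
  exact ⟨u, hu, hp⟩

end Pool.Agent.H68.ST
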