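import Pool.Agent.H68.ST.Curve

set_option autoImplicit false
set_option linter.unusedSectionVars false

open MeasureTheory Set Filter
open scoped Manifold ContDiff Topology Pointwise

namespace Pool.Agent.H68.ST

/-- names of the horizontal coordinates. -/
inductive Hor (f t : ℕ) : Type
  | X : Hor f t
  | Y : Hor f t
  | P : Hor f t
  | Q (i : Fin f) : Hor f t
  | A (k : Fin t) : Hor f t
  | E (k : Fin t) : Hor f t
  deriving DecidableEq, Fintype

/-- names of the vertical coordinates. -/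
inductive Ver (m e g : ℕ) : Type
  | Z : Ver m e g
  | U (j : Fin m) : Ver m e g
  | B (i : Fin e) : Ver m e g
  | C (i : Fin g) : Ver m e g
  deriving DecidableEq, Fintype

/-- names of the coordinates. -/
abbrev Coord (m e f g t : ℕ) : Type := Hor f t ⊕ Ver m e g

/-- counting horizontal coordinates. -/
def horEquiv (f t : ℕ) : Hor f t ≃ Fin 3 ⊕ (Fin f ⊕ (Fin t ⊕ Fin t)) where
  toFun c := match c with
    | .X => .inl 0
    | .Y => .inl 1
    | .P => .inl 2
    | .Q i => .inr (.inl i)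
    | .A k => .inr (.inr (.inl k))
    | .E k => .inr (.inr (.inr k))
  invFun c := match c with
    | .inl 0 => .X
    | .inl 1 => .Y
    | .inl 2 => .P
    | .inr (.inl i) => .Q i
    | .inr (.inr (.inl k)) => .A k
    | .inr (.inr (.inr k)) => .E k
  left_inv c := by cases c <;> rfl
  right_inv c := by
    rcases c with a | (i | i | i)
    · fin_cases a <;> rfl
    all_goals rfl

/-- counting vertical coordinates. -/
def verEquiv (m e g : ℕ) : Ver m e g ≃ Fin 1 ⊕ (Fin m ⊕ (Fin e ⊕ Fin g)) where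
  toFun c := match c with
    | .Z => .inl 0
    | .U i => .inr (.inl i)
    | .B k => .inr (.inr (.inl k))
    | .C k => .inr (.inr (.inr k))
  invFun c := match c with
    | .inl 0 => .Z
    | .inr (.inl i) => .U i
    | .inr (.inr (.inl k)) => .B k
    | .inr (.inr (.inr k)) => .C k
  left_inv c := by cases c <;> rfl
  right_inv c := by
    rcases c with a | (i | i | i)
    · fin_cases a; rfl
    all_goals rfl

lemma card_hor (f t : ℕ) : Fintype.card (Hor f t) = 3 + (f + (t + t)) := by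
  rw [Fintype.card_congr (horEquiv f t)]
  simp

lemma card_ver (m e g : ℕ) : Fintype.card (Ver m e g) = 1 + (m + (e + g)) := by
  rw [Fintype.card_congr (verEquiv m e g)]
  simp

variable {m e f g t : ℕ} {ι : Type} [Fintype ι] (σ : Coord m e f g t ≃ ι)

/-- the vector with given coordinates. -/
noncomputable def mk (φ : Coord m e f g t → ℝ) : EuclideanSpace ℝ ι :=
  WithLp.toLp 2 fun i => φ (σ.symm i)

@[simp] lemma mk_apply (φ : Coord m e f g t → ℝ) (c : Coord m e f g t) :
    mk σ φ (σ c) = φ c := by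
  simp [mk]

lemma ext_coord {v w : EuclideanSpace ℝ ι} (h : ∀ c, v (σ c) = w (σ c)) : v = w := by
  ext i
  have := h (σ.symm i)
  simpa using this

/-- the sum of the coordinates `Q i`. -/
def sQ (p : EuclideanSpace ℝ ι) : ℝ := ∑ i, p (σ (.inl (.Q i)))

/-- The distribution: `dU_j = Y^(j+1) dX`, `dB = X² dY`, `dC = Q dY`,
`dZ = P dX + Q dY + Σ A_k dE_k`. -/
def D (p : EuclideanSpace ℝ ι) : Submodule ℝ (EuclideanSpace ℝ ι) where
  carrier := {v | (∀ j : Fin m, v (σ (.inr (.U j))) =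
      p (σ (.inl .Y)) ^ ((j : ℕ) + 1) * v (σ (.inl .X))) ∧
    (∀ i : Fin e, v (σ (.inr (.B i))) = p (σ (.inl .X)) ^ 2 * v (σ (.inl .Y))) ∧
    (∀ i : Fin g, v (σ (.inr (.C i))) = (∑ i, p (σ (.inl (.Q i)))) * v (σ (.inl .Y))) ∧
    v (σ (.inr .Z)) = p (σ (.inl .P)) * v (σ (.inl .X)) +
      (∑ i, p (σ (.inl (.Q i)))) * v (σ (.inl .Y)) +
      ∑ k : Fin t, p (σ (.inl (.A k))) * v (σ (.inl (.E k)))}
  add_mem' := by
    rintro a b ⟨h1, h2, h3, h4⟩ ⟨h1', h2', h3', h4'⟩
    refine ⟨fun j => ?_, fun i => ?_, fun i => ?_, ?_⟩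
    · simp only [PiLp.add_apply, h1, h1']; ring
    · simp only [PiLp.add_apply, h2, h2']; ring
    · simp only [PiLp.add_apply, h3, h3']; ring
    · simp only [PiLp.add_apply, h4, h4', mul_add, Finset.sum_add_distrib]; ring
  zero_mem' := by simp
  smul_mem' := by
    rintro c a ⟨h1, h2, h3, h4⟩
    refine ⟨fun j => ?_, fun i => ?_, fun i => ?_, ?_⟩
    · simp only [PiLp.smul_apply, smul_eq_mul, h1]; ring
    · simp only [PiLp.smul_apply, smul_eq_mul, h2]; ring
    · simp only [PiLp.smul_apply, smul_eq_mul, h3]; ring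
    · simp only [PiLp.smul_apply, smul_eq_mul, h4, mul_add, Finset.mul_sum]
      have : ∀ k : Fin t, p (σ (.inl (.A k))) * (c * a (σ (.inl (.E k)))) =
        c * (p (σ (.inl (.A k))) * a (σ (.inl (.E k)))) := fun k => by ring
      simp only [this]
      have h5 : ∀ i : Fin f, c * (p (σ (.inl (.Q i))) * a (σ (.inl .Y))) =
        p (σ (.inl (.Q i))) * (c * a (σ (.inl .Y))) := fun i => by ring
      simp only [Finset.sum_mul, Finset.mul_sum, h5]
      ring

lemma mem_D (p v : EuclideanSpace ℝ ι) : v ∈ D σ p ↔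
    (∀ j : Fin m, v (σ (.inr (.U j))) = p (σ (.inl .Y)) ^ ((j : ℕ) + 1) * v (σ (.inl .X))) ∧
    (∀ i : Fin e, v (σ (.inr (.B i))) = p (σ (.inl .X)) ^ 2 * v (σ (.inl .Y))) ∧
    (∀ i : Fin g, v (σ (.inr (.C i))) = sQ σ p * v (σ (.inl .Y))) ∧
    v (σ (.inr .Z)) = p (σ (.inl .P)) * v (σ (.inl .X)) + sQ σ p * v (σ (.inl .Y)) +
      ∑ k : Fin t, p (σ (.inl (.A k))) * v (σ (.inl (.E k))) := Iff.rfl

/-- coordinates of the horizontal lift. -/
def cL (w : Hor f t → ℝ) (p : EuclideanSpace ℝ ι) : Coord m e f g t → ℝ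
  | .inl h => w h
  | .inr (.U j) => p (σ (.inl .Y)) ^ ((j : ℕ) + 1) * w .X
  | .inr (.B _) => p (σ (.inl .X)) ^ 2 * w .Y
  | .inr (.C _) => sQ σ p * w .Y
  | .inr .Z => p (σ (.inl .P)) * w .X + sQ σ p * w .Y +
      ∑ k : Fin t, p (σ (.inl (.A k))) * w (.E k)

/-- the vector of `D p` with horizontal coordinates `w`. -/
noncomputable def L (w : Hor f t → ℝ) (p : EuclideanSpace ℝ ι) : EuclideanSpace ℝ ι :=
  mk σ (cL σ w p)

section
variable (w : Hor f t → ℝ) (p : EuclideanSpace ℝ ι)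
@[simp] lemma L_inl (h : Hor f t) : L σ w p (σ (.inl h)) = w h := by simp [L, cL]
@[simp] lemma L_U (j : Fin m) : L σ w p (σ (.inr (.U j))) =
    p (σ (.inl .Y)) ^ ((j : ℕ) + 1) * w .X := by simp [L, cL]
@[simp] lemma L_B (i : Fin e) : L σ w p (σ (.inr (.B i))) = p (σ (.inl .X)) ^ 2 * w .Y := by
  simp [L, cL]
@[simp] lemma L_C (i : Fin g) : L σ w p (σ (.inr (.C i))) = sQ σ p * w .Y := by simp [L, cL]
@[simp] lemma L_Z : L σ w p (σ (.inr .Z)) = p (σ (.inl .P)) * w .X + sQ σ p * w .Y +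
      ∑ k : Fin t, p (σ (.inl (.A k))) * w (.E k) := by simp [L, cL]

lemma L_mem : L σ w p ∈ D σ p := by
  rw [mem_D]; simp
end

/-- horizontal coordinates. -/
def hor (v : EuclideanSpace ℝ ι) : Hor f t → ℝ := fun h => v (σ (.inl h))

lemma eq_L {p v : EuclideanSpace ℝ ι} (hv : v ∈ D σ p) : v = L σ (hor σ v) p := by
  rw [mem_D] at hv
  obtain ⟨h1, h2, h3, h4⟩ := hv
  apply ext_coord σ
  rintro (h | h)
  · simp [hor]
  · cases h with
    | U j => simp [h1, hor]
    | B i => simp [h2, hor]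
    | C i => simp [h3, hor]
    | Z => simp [h4, hor]

lemma L_add (w w' : Hor f t → ℝ) (p : EuclideanSpace ℝ ι) :
    L σ (w + w') p = L σ w p + L σ w' p := by
  apply ext_coord σ
  rintro (h | h)
  · simp
  · cases h <;> simp [mul_add, Finset.sum_add_distrib]
    ring

lemma L_smul (c : ℝ) (w : Hor f t → ℝ) (p : EuclideanSpace ℝ ι) :
    L σ (c • w) p = c • L σ w p := by
  have := Submodule.smul_mem (D σ p) c (L_mem σ w p)
  rw [eq_L σ this]
  congr 1
  funext h
  simp [hor]

lemma L_sum (p : EuclideanSpace ℝ ι) (w : Hor f t → ℝ) :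
    L σ w p = ∑ h, w h • L σ (Pi.single h 1) p := by
  have h1 : (∑ h, w h • L σ (Pi.single h 1) p) ∈ D σ p :=
    Submodule.sum_mem _ fun h _ => Submodule.smul_mem _ _ (L_mem σ _ p)
  rw [eq_L σ h1]
  congr 1
  funext h
  unfold hor
  have : (∑ h', w h' • L σ (Pi.single h' 1) p) (σ (.inl h)) =
    ∑ h', w h' * L σ (Pi.single h' 1) p (σ (.inl h)) := by simp
  rw [this]
  simp [Pi.single_apply]

/-- coordinates are smooth. -/
lemma contDiff_coord (i : ι) : ContDiff ℝ ∞ (fun p : EuclideanSpace ℝ ι => p i) :=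
  (EuclideanSpace.proj (𝕜 := ℝ) i : EuclideanSpace ℝ ι →L[ℝ] ℝ).contDiff

lemma contDiff_of_coord {H : Type*} [NormedAddCommGroup H] [NormedSpace ℝ H]
    {φ : H → EuclideanSpace ℝ ι} (h : ∀ c, ContDiff ℝ ∞ (fun p => φ p (σ c))) :
    ContDiff ℝ ∞ φ := by
  rw [contDiff_piLp]
  intro i
  have := h (σ.symm i)
  simpa using this

lemma contDiff_sQ : ContDiff ℝ ∞ (sQ (f := f) σ) := by
  unfold sQ
  exact ContDiff.sum fun i _ => contDiff_coord _

lemma contDiff_L (w : Hor f t → ℝ) : ContDiff ℝ ∞ (L σ w) := by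
  apply contDiff_of_coord σ
  rintro (h | h)
  · simpa using contDiff_const
  · cases h with
    | U j => simpa using ((contDiff_coord (σ (.inl .Y))).pow _).mul contDiff_const
    | B i => simpa using ((contDiff_coord (σ (.inl .X))).pow 2).mul contDiff_const
    | C i => simpa using (contDiff_sQ σ).mul contDiff_const
    | Z =>
      have h1 : ContDiff ℝ ∞ (fun p : EuclideanSpace ℝ ι => p (σ (.inl .P)) * w .X + sQ σ p * w .Y +
        ∑ k : Fin t, p (σ (.inl (.A k))) * w (.E k)) :=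
        (((contDiff_coord _).mul contDiff_const).add ((contDiff_sQ σ).mul contDiff_const)).add
          (ContDiff.sum fun i _ => (contDiff_coord _).mul contDiff_const)
      simpa using h1

theorem smooth_D {r : ℕ} (hr : Fintype.card (Hor f t) = r) : IsSmoothDistribution r (D σ) := by
  intro p
  let ε : Fin r ≃ Hor f t := (Fintype.equivFinOfCardEq hr).symm
  refine ⟨univ, isOpen_univ, mem_univ p, fun i p => L σ (Pi.single (ε i) 1) p, ?_, ?_⟩
  · intro i
    exact (contDiff_L σ _).contDiffOn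
  · intro x _
    constructor
    · rw [Fintype.linearIndependent_iff]
      intro c hc i
      have h1 := congrArg (fun v : EuclideanSpace ℝ ι => v (σ (.inl (ε i)))) hc
      have h2 : (∑ j, c j • L σ (Pi.single (ε j) 1) x) (σ (.inl (ε i))) =
        ∑ j, c j * L σ (Pi.single (ε j) 1) x (σ (.inl (ε i))) := by simp
      simp only [h2] at h1
      simpa [Pi.single_apply] using h1
    · apply le_antisymm
      · rw [Submodule.span_le]
        rintro _ ⟨i, rfl⟩
        exact L_mem σ _ x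
      · intro v hv
        rw [eq_L σ hv, L_sum]
        refine Submodule.sum_mem _ fun h _ => Submodule.smul_mem _ _ ?_
        exact Submodule.subset_span ⟨ε.symm h, by simp⟩

end Pool.Agent.H68.ST
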