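import Pool.Agent.H68.ST.Hom

set_option autoImplicit false
set_option linter.unusedSectionVars false

open MeasureTheory Set Filter
open scoped Manifold ContDiff Topology Pointwise

/-! # Symmetries from one-jets: generic version -/

namespace Pool.Agent.H68.ST.G

open Pool.Agent.H68.ST (fderiv_coord_apply hasFDerivAt_coord fderiv_along
  differentiable_coord contDiff_coord)

variable {ι : Type} [Fintype ι] [DecidableEq ι]

/-- three different coordinates. -/
structure Tri (ι : Type) where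
  a : ι
  b : ι
  c : ι
  hab : a ≠ b
  hac : a ≠ c
  hbc : b ≠ c

variable (σ : Tri ι)

/-- unit vectors. -/
noncomputable def ev (i : ι) : EuclideanSpace ℝ ι := EuclideanSpace.single i 1

lemma ev_apply (i j : ι) : (ev i : EuclideanSpace ℝ ι) j = if j = i then 1 else 0 := by
  simp [ev]

/-- the jet of `f` as a vertical vector. -/
noncomputable def jet (f : ℝ → ℝ) (p : EuclideanSpace ℝ ι) : EuclideanSpace ℝ ι :=
  deriv f (p (σ.a)) • ev σ.b + f (p (σ.a)) • ev σ.c

lemma jet_X (f : ℝ → ℝ) (p : EuclideanSpace ℝ ι) : jet σ f p (σ.a) = 0 := by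
  simp [jet, ev_apply, σ.hab, σ.hac]
lemma jet_Z (f : ℝ → ℝ) (p : EuclideanSpace ℝ ι) :
    jet σ f p (σ.c) = f (p (σ.a)) := by
  simp [jet, ev_apply, σ.hbc.symm]

lemma jet_congr (f : ℝ → ℝ) {p q : EuclideanSpace ℝ ι} (h : p (σ.a) = q (σ.a)) :
    jet σ f p = jet σ f q := by
  unfold jet
  rw [h]

/-- shift by the 1-jet of `f`. -/
noncomputable def shift (f : ℝ → ℝ) : Equiv.Perm (EuclideanSpace ℝ ι) where
  toFun p := p + jet σ f p
  invFun p := p - jet σ f p
  left_inv p := by
    have h : jet σ f (p + jet σ f p) = jet σ f p :=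
      jet_congr σ f (by simp [jet_X])
    show p + jet σ f p - jet σ f (p + jet σ f p) = p
    rw [h]
    simp
  right_inv p := by
    have h : jet σ f (p - jet σ f p) = jet σ f p :=
      jet_congr σ f (by simp [jet_X])
    show p - jet σ f p + jet σ f (p - jet σ f p) = p
    rw [h]
    simp

lemma shift_apply (f : ℝ → ℝ) (p : EuclideanSpace ℝ ι) :
    shift σ f p = p + jet σ f p := rfl

lemma shift_symm_apply (f : ℝ → ℝ) (p : EuclideanSpace ℝ ι) :
    (shift σ f).symm p = p - jet σ f p := rfl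

lemma shift_add (f g : ℝ → ℝ) (hf : Differentiable ℝ f) (hg : Differentiable ℝ g) :
    shift σ (fun x => f x + g x) = shift σ f * shift σ g := by
  apply Equiv.ext
  intro p
  rw [Equiv.Perm.mul_apply, shift_apply, shift_apply, shift_apply]
  have h1 : jet σ f (p + jet σ g p) = jet σ f p :=
    jet_congr σ f (by simp [jet_X])
  rw [h1]
  have : deriv (fun x => f x + g x) (p (σ.a)) = deriv f (p (σ.a)) + deriv g (p (σ.a)) :=
    deriv_fun_add (hf _) (hg _)
  unfold jet
  rw [this, add_smul, add_smul]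
  abel

lemma contDiff_deriv' {f : ℝ → ℝ} (hf : ContDiff ℝ ∞ f) : ContDiff ℝ ∞ (deriv f) :=
  (contDiff_infty_iff_deriv.mp hf).2

lemma contDiff_jet {f : ℝ → ℝ} (hf : ContDiff ℝ ∞ f) : ContDiff ℝ ∞ (jet σ f) :=
  (((contDiff_deriv' hf).comp (contDiff_coord (σ.a))).smul contDiff_const).add
    ((hf.comp (contDiff_coord (σ.a))).smul contDiff_const)

/-- differential of `shift f`. -/
noncomputable def dshift (f : ℝ → ℝ) (p : EuclideanSpace ℝ ι) :
    EuclideanSpace ℝ ι →L[ℝ] EuclideanSpace ℝ ι :=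
  ContinuousLinearMap.id ℝ (EuclideanSpace ℝ ι) +
    ((deriv (deriv f) (p (σ.a)) •
      (EuclideanSpace.proj (𝕜 := ℝ) (σ.a) : EuclideanSpace ℝ ι →L[ℝ] ℝ)).smulRight (ev σ.b)
    + (deriv f (p (σ.a)) •
      (EuclideanSpace.proj (𝕜 := ℝ) (σ.a) : EuclideanSpace ℝ ι →L[ℝ] ℝ)).smulRight (ev σ.c))

lemma dshift_apply (f : ℝ → ℝ) (p v : EuclideanSpace ℝ ι) : dshift σ f p v =
    v + ((deriv (deriv f) (p (σ.a)) * v (σ.a)) • ev σ.b +
      (deriv f (p (σ.a)) * v (σ.a)) • ev σ.c) := by
  simp [dshift]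

lemma hasFDerivAt_shift {f : ℝ → ℝ} (hf : ContDiff ℝ ∞ f) (p : EuclideanSpace ℝ ι) :
    HasFDerivAt (shift σ f) (dshift σ f p) p := by
  have hd : HasDerivAt f (deriv f (p (σ.a))) (p (σ.a)) :=
    (hf.differentiable (by norm_num)).differentiableAt.hasDerivAt
  have hdd : HasDerivAt (deriv f) (deriv (deriv f) (p (σ.a))) (p (σ.a)) :=
    ((contDiff_deriv' hf).differentiable (by norm_num)).differentiableAt.hasDerivAt
  have h3 := hasFDerivAt_coord (σ.a) p
  have h4 : HasFDerivAt (fun p : EuclideanSpace ℝ ι => f (p (σ.a)))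
      (deriv f (p (σ.a)) •
        (EuclideanSpace.proj (𝕜 := ℝ) (σ.a) : EuclideanSpace ℝ ι →L[ℝ] ℝ)) p :=
    hd.comp_hasFDerivAt p h3
  have h5 : HasFDerivAt (fun p : EuclideanSpace ℝ ι => deriv f (p (σ.a)))
      (deriv (deriv f) (p (σ.a)) •
        (EuclideanSpace.proj (𝕜 := ℝ) (σ.a) : EuclideanSpace ℝ ι →L[ℝ] ℝ)) p :=
    HasDerivAt.comp_hasFDerivAt (h₂ := deriv f) p hdd h3
  exact (hasFDerivAt_id p).add ((h5.smul_const (ev σ.b)).add (h4.smul_const (ev σ.c)))

/-- diagonal argument: countably many compact sets never contain all the shifts. -/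
lemma diag {G : Type*} [TopologicalSpace G] (act : G → Equiv.Perm (EuclideanSpace ℝ ι))
    (hact : ∀ x, Continuous fun g => act g x) (K : ℕ → Set G) (hK : ∀ n, IsCompact (K n)) :
    ∃ f : ℝ → ℝ, ContDiff ℝ ∞ f ∧ ∀ n, ∀ g ∈ K n, act g ≠ shift σ f := by
  have h1 : ∀ n : ℕ, ∃ C : ℝ, ∀ g ∈ K n, (act g (EuclideanSpace.single σ.a (n : ℝ))) (σ.c) ≤ C := by
    intro n
    have hc : Continuous fun g => (act g (EuclideanSpace.single σ.a (n : ℝ))) (σ.c) :=
      (EuclideanSpace.proj (𝕜 := ℝ) (σ.c) : EuclideanSpace ℝ ι →L[ℝ] ℝ).continuous.comp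
        (hact _)
    obtain ⟨C, hC⟩ := (hK n).bddAbove_image hc.continuousOn
    exact ⟨C, fun g hg => hC ⟨g, hg, rfl⟩⟩
  choose C hC using h1
  let t : ℝ → Set ℝ := fun x => {y | ∀ k : ℕ, (k : ℝ) ≤ |x| + 1 → C k < y}
  have ht : ∀ x, Convex ℝ (t x) := by
    intro x
    have : t x = ⋂ k : ℕ, ⋂ (_ : (k : ℝ) ≤ |x| + 1), Ioi (C k) := by
      ext y; simp [t]
    rw [this]
    exact convex_iInter fun k => convex_iInter fun _ => convex_Ioi _
  have Hloc : ∀ x : ℝ, ∃ c : ℝ, ∀ᶠ y in 𝓝 x, c ∈ t y := by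
    intro x
    obtain ⟨N, hN⟩ := exists_nat_gt (|x| + 2)
    refine ⟨(∑ k ∈ Finset.range (N + 1), |C k|) + 1, ?_⟩
    have h2 : ∀ᶠ y in 𝓝 x, |y - x| < 1 := by
      have := Metric.ball_mem_nhds x (one_pos)
      filter_upwards [this] with y hy
      rwa [Metric.mem_ball, Real.dist_eq] at hy
    filter_upwards [h2] with y hy k hk
    have h3 : |y| ≤ |x| + 1 := by
      have := abs_sub_abs_le_abs_sub y x
      linarith
    have h4 : k ∈ Finset.range (N + 1) := by
      rw [Finset.mem_range]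
      have : (k : ℝ) < N := by linarith
      have : k < N := by exact_mod_cast this
      omega
    have h5 := Finset.single_le_sum (f := fun k => |C k|) (fun _ _ => abs_nonneg _) h4
    have h6 := le_abs_self (C k)
    linarith
  obtain ⟨F, hF⟩ := exists_contMDiffMap_forall_mem_convex_of_local_const (n := (⊤ : ℕ∞)) 𝓘(ℝ, ℝ) ht Hloc
  refine ⟨F, contMDiff_iff_contDiff.mp F.contMDiff, ?_⟩
  intro n g hg heq
  have h2 := hC n g hg
  rw [heq, shift_apply, PiLp.add_apply, jet_Z] at h2
  have h3 := hF n n (by have := le_abs_self (n : ℝ); linarith)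
  simp [σ.hac.symm] at h2
  linarith

lemma shift_mul_hom {f : ℝ → ℝ} (hf : ContDiff ℝ ∞ f) (a t : ℝ) :
    shift σ (fun x => (a + t) * f x) =
      shift σ (fun x => a * f x) * shift σ (fun x => t * f x) := by
  have hd : Differentiable ℝ f := hf.differentiable (by norm_num)
  rw [← shift_add σ _ _ (hd.const_mul a) (hd.const_mul t)]
  congr 1
  funext x
  ring

theorem not_lie {Δ : EuclideanSpace ℝ ι → Submodule ℝ (EuclideanSpace ℝ ι)}
    (hsym : ∀ f : ℝ → ℝ, ContDiff ℝ ∞ f → IsSymmetry Δ (shift σ f)) :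
    ¬ SymmetryGroupIsLie Δ := by
  rintro ⟨n, G, tG, cG, gG, lG, φ, hinj, hrange, hcont, hor⟩
  have hex : ∀ f : ℝ → ℝ, ContDiff ℝ ∞ f → ∃ g, φ g = shift σ f := by
    intro f hf
    have : shift σ f ∈ Set.range φ := by rw [hrange]; exact hsym f hf
    exact this
  have hlc : LocallyCompactSpace G := ChartedSpace.locallyCompactSpace (EuclideanSpace ℝ (Fin n)) G
  have hK : ∃ K : ℕ → Set G, (∀ m, IsCompact (K m)) ∧
      ∀ f : ℝ → ℝ, ContDiff ℝ ∞ f → ∀ g, φ g = shift σ f → ∃ m, g ∈ K m := by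
    rcases hor with h2 | h2
    · refine ⟨compactCovering G, isCompact_compactCovering G, fun f _ g _ => exists_mem_compactCovering g⟩
    · have hgr : IsTopologicalGroup G := topologicalGroup_of_lieGroup (𝓡 n) ∞
      obtain ⟨K, hKc, hK1⟩ := exists_compact_mem_nhds (1 : G)
      let P : ℕ → Set G := fun m => Nat.rec {1} (fun _ S => S * K) m
      have hP : ∀ m, IsCompact (P m) := by
        intro m
        induction m with
        | zero => exact isCompact_singleton
        | succ m ih => exact ih.mul hKc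
      have hpow : ∀ (a : G), a ∈ K → ∀ m, a ^ m ∈ P m := by
        intro a ha m
        induction m with
        | zero => simp [P]
        | succ m ih => rw [pow_succ]; exact Set.mul_mem_mul ih ha
      refine ⟨P, hP, ?_⟩
      intro f hf g hg
      choose ψ hψ using fun s : ℝ => hex (fun x => s * f x) (contDiff_const.mul hf)
      let ρ : Multiplicative ℝ →* G :=
        { toFun := fun s => ψ (Multiplicative.toAdd s)
          map_one' := by
            apply hinj
            have e0 : Multiplicative.toAdd (1 : Multiplicative ℝ) = 0 := rfl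
            rw [e0, hψ, map_one]
            apply Equiv.ext
            intro p
            have : deriv (fun x => (0:ℝ) * f x) (p (σ.a)) = 0 := by simp
            rw [shift_apply]
            unfold jet
            rw [this]
            simp
          map_mul' := by
            intro s t
            apply hinj
            have e0 : Multiplicative.toAdd (s * t) = Multiplicative.toAdd s + Multiplicative.toAdd t := rfl
            rw [e0, map_mul φ, hψ, hψ, hψ]
            exact shift_mul_hom σ hf _ _ }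
      have hρ : ∀ s : ℝ, φ (ρ (Multiplicative.ofAdd s)) = shift σ (fun x => s * f x) :=
        fun s => hψ s
      have hsm : ContDiff ℝ ∞ (fun p : ℝ × EuclideanSpace ℝ ι =>
          φ (ρ (Multiplicative.ofAdd p.1)) p.2) := by
        have e : (fun p : ℝ × EuclideanSpace ℝ ι => φ (ρ (Multiplicative.ofAdd p.1)) p.2)
            = fun p : ℝ × EuclideanSpace ℝ ι => p.2 +
              ((p.1 * deriv f (p.2 (σ.a))) • ev σ.b +
                (p.1 * f (p.2 (σ.a))) • ev σ.c) := by
          funext p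
          rw [hρ, shift_apply]
          have : deriv (fun x => p.1 * f x) (p.2 (σ.a)) = p.1 * deriv f (p.2 (σ.a)) :=
            deriv_const_mul _ (hf.differentiable (by norm_num)).differentiableAt
          unfold jet
          rw [this]
        rw [e]
        have hc0 : ContDiff ℝ ∞ (fun p : ℝ × EuclideanSpace ℝ ι => p.2 (σ.a)) :=
          (contDiff_coord (σ.a)).comp contDiff_snd
        exact contDiff_snd.add (((contDiff_fst.mul ((contDiff_deriv' hf).comp hc0)).smul
          contDiff_const).add ((contDiff_fst.mul (hf.comp hc0)).smul contDiff_const))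
      have hρc := h2 ρ hsm
      have h0 : ρ (Multiplicative.ofAdd 0) = 1 := by
        rw [ofAdd_zero, map_one]
      have hlim : Tendsto (fun m : ℕ => ρ (Multiplicative.ofAdd (1 / ((m : ℝ) + 1)))) atTop (𝓝 1) := by
        have := (hρc.tendsto 0).comp (tendsto_one_div_add_atTop_nhds_zero_nat (𝕜 := ℝ))
        rw [h0] at this
        exact this
      obtain ⟨m, hm⟩ := (hlim.eventually hK1).exists
      refine ⟨m + 1, ?_⟩
      have h3 : g = (ρ (Multiplicative.ofAdd (1 / ((m : ℝ) + 1)))) ^ (m + 1) := by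
        apply hinj
        rw [← map_pow, ← ofAdd_nsmul, hρ, hg]
        congr 1
        funext x
        have : ((m + 1 : ℕ) • (1 / ((m : ℝ) + 1))) = 1 := by
          rw [nsmul_eq_mul]; push_cast; field_simp
        rw [this, one_mul]
      rw [h3]
      exact hpow _ hm (m + 1)
  obtain ⟨K, hKc, hKm⟩ := hK
  obtain ⟨f, hf, hne⟩ := diag σ φ hcont K hKc
  obtain ⟨g, hg⟩ := hex f hf
  obtain ⟨m, hm⟩ := hKm f hf g hg
  exact hne m g hm hg

/-- polynomial with coefficients `s`. -/
noncomputable def polyFun {n : ℕ} (s : Fin n → ℝ) (x : ℝ) : ℝ := ∑ i, s i * x ^ (i : ℕ)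

lemma contDiff_polyFun {n : ℕ} (s : Fin n → ℝ) : ContDiff ℝ ∞ (polyFun s) := by
  unfold polyFun
  fun_prop

lemma deriv_polyFun {n : ℕ} (s : Fin n → ℝ) (x : ℝ) :
    deriv (polyFun s) x = ∑ i, s i * (((i : ℕ) : ℝ) * x ^ ((i : ℕ) - 1)) := by
  unfold polyFun
  rw [deriv_fun_sum (fun i _ => by fun_prop)]
  apply Finset.sum_congr rfl
  intro i _
  rw [deriv_const_mul _ (by fun_prop)]
  simp

lemma polyFun_add {n : ℕ} (s t : Fin n → ℝ) :
    polyFun (s + t) = fun x => polyFun s x + polyFun t x := by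
  funext x
  simp [polyFun, add_mul, Finset.sum_add_distrib]

lemma polyFun_inj {n : ℕ} {s t : Fin n → ℝ} (h : polyFun s = polyFun t) : s = t := by
  have key : ∀ s : Fin n → ℝ, ∀ x : ℝ,
      (∑ i, Polynomial.C (s i) * Polynomial.X ^ (i : ℕ)).eval x = polyFun s x := by
    intro s x
    rw [Polynomial.eval_finsetSum]
    simp [polyFun]
  have hp : (∑ i, Polynomial.C (s i) * Polynomial.X ^ (i : ℕ))
      = (∑ i, Polynomial.C (t i) * Polynomial.X ^ (i : ℕ)) := by
    apply Polynomial.funext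
    intro x
    rw [key, key, h]
  funext i
  have hc : ∀ s : Fin n → ℝ, (∑ j, Polynomial.C (s j) * Polynomial.X ^ (j : ℕ)).coeff (i : ℕ) = s i := by
    intro s
    rw [Polynomial.finsetSum_coeff]
    simp only [Polynomial.coeff_C_mul, Polynomial.coeff_X_pow]
    rw [Finset.sum_eq_single i]
    · simp
    · intro j _ hj
      have : (i : ℕ) ≠ j := fun h => hj (Fin.ext h.symm)
      simp [this]
    · intro h; exact absurd (Finset.mem_univ _) h
  rw [← hc s, hp, hc t]

theorem large_symmetry {Δ : EuclideanSpace ℝ ι → Submodule ℝ (EuclideanSpace ℝ ι)}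
    (hsym : ∀ f : ℝ → ℝ, ContDiff ℝ ∞ f → IsSymmetry Δ (shift σ f)) :
    HasSymmetryActionsOfAllRanks Δ := by
  intro n
  refine ⟨{ toFun := fun s => shift σ (polyFun (Multiplicative.toAdd s)), map_one' := ?_,
            map_mul' := ?_ }, ?_, ?_, ?_⟩
  · have e0 : Multiplicative.toAdd (1 : Multiplicative (Fin n → ℝ)) = 0 := rfl
    rw [e0]
    apply Equiv.ext
    intro p
    rw [shift_apply]
    unfold jet
    rw [deriv_polyFun]
    simp [polyFun]
  · intro s t
    have e0 : Multiplicative.toAdd (s * t) = Multiplicative.toAdd s + Multiplicative.toAdd t := rfl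
    rw [e0, polyFun_add]
    exact shift_add σ _ _ ((contDiff_polyFun _).differentiable (by norm_num))
      ((contDiff_polyFun _).differentiable (by norm_num))
  · intro s t hst
    have h1 : shift σ (polyFun (Multiplicative.toAdd s)) =
      shift σ (polyFun (Multiplicative.toAdd t)) := hst
    have h2 : polyFun (Multiplicative.toAdd s) = polyFun (Multiplicative.toAdd t) := by
      funext x
      have h3 := congrArg (fun Φ : Equiv.Perm (EuclideanSpace ℝ ι) =>
        (Φ (EuclideanSpace.single σ.a x)) (σ.c)) h1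
      simp only [shift_apply, PiLp.add_apply, jet_Z] at h3
      simpa [σ.hac.symm] using h3
    exact polyFun_inj h2
  · intro s
    exact hsym _ (contDiff_polyFun _)
  · change ContDiff ℝ ∞ (fun p : (Fin n → ℝ) × EuclideanSpace ℝ ι => shift σ (polyFun p.1) p.2)
    simp only [shift_apply, jet, deriv_polyFun]
    unfold polyFun
    have hc0 : ContDiff ℝ ∞ (fun p : (Fin n → ℝ) × EuclideanSpace ℝ ι => p.2 (σ.a)) :=
      (contDiff_coord (σ.a)).comp contDiff_snd
    have hs : ∀ i : Fin n, ContDiff ℝ ∞ (fun p : (Fin n → ℝ) × EuclideanSpace ℝ ι => p.1 i) :=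
      fun i => by fun_prop
    have ha : ContDiff ℝ ∞ (fun p : (Fin n → ℝ) × EuclideanSpace ℝ ι =>
        ∑ i, p.1 i * (((i : ℕ) : ℝ) * p.2 (σ.a) ^ ((i : ℕ) - 1))) :=
      ContDiff.sum fun i _ => (hs i).mul (contDiff_const.mul (hc0.pow _))
    have hb : ContDiff ℝ ∞ (fun p : (Fin n → ℝ) × EuclideanSpace ℝ ι =>
        ∑ i, p.1 i * p.2 (σ.a) ^ (i : ℕ)) :=
      ContDiff.sum fun i _ => (hs i).mul (hc0.pow _)
    exact contDiff_snd.add ((ha.smul contDiff_const).add (hb.smul contDiff_const))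

end Pool.Agent.H68.ST.G
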