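import Pool.Agent.H68.ST.KTrans
import Pool.Agent.H68.ST.Gen

set_option autoImplicit false
set_option linter.unusedSectionVars false

open MeasureTheory Set Filter
open scoped Manifold ContDiff Topology Pointwise

/-! # The second family: homogeneity and the large symmetry group -/

namespace Pool.Agent.H68.ST.K

open Pool.Agent.H68.ST (fderiv_coord_apply lieBracket_coord hasFDerivAt_coord fderiv_along
  differentiable_coord contDiff_coord fd_same Good)

variable {t : ℕ} {ι : Type} [Fintype ι] (σ : Coord t ≃ ι)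

/-- a permutation from a family with inverses. -/
lemma good_family {A : Type*} (T : A → EuclideanSpace ℝ ι → EuclideanSpace ℝ ι)
    (n : A → A) (hl : ∀ a q, T (n a) (T a q) = q) (hr : ∀ a q, T a (T (n a) q) = q)
    (sm : ∀ a, ContDiff ℝ ∞ (T a))
    (mp : ∀ a x, ∀ v ∈ D σ x, fderiv ℝ (T a) x v ∈ D σ (T a x)) (a : A) :
    Good (D σ) ⟨T a, T (n a), hl a, hr a⟩ :=
  ⟨sm a, sm (n a), mp a, mp (n a)⟩

/-! ### translation of `Y` -/

/-- translation of `Y`. -/
noncomputable def tY (a : ℝ) (q : EuclideanSpace ℝ ι) : EuclideanSpace ℝ ι :=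
  pt σ (q (σ (.inl .X))) (q (σ (.inl .Y)) + a) (q (σ (.inl .S)) + 2 * a * q (σ (.inl .X)))
    (fun i => q (σ (.inl (.A i)))) (fun i => q (σ (.inl (.E i))))
    (q (σ (.inr .V)) + (2 * a * (q (σ (.inl .X)) * q (σ (.inl .Y))) + a ^ 2 * q (σ (.inl .X))))
    (q (σ (.inr .B)) + a * q (σ (.inl .X)) ^ 2)

lemma tY_inv (a : ℝ) (q : EuclideanSpace ℝ ι) : tY σ (-a) (tY σ a q) = q := by
  apply ext_coord σ
  rintro (h | h)
  · cases h <;> simp [tY]
  · cases h with
    | V =>
      simp [tY]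
      ring
    | B => simp [tY]

lemma tY_inv' (a : ℝ) (q : EuclideanSpace ℝ ι) : tY σ a (tY σ (-a) q) = q := by
  have := tY_inv σ (-a) q
  rwa [neg_neg] at this

lemma contDiff_tY (a : ℝ) : ContDiff ℝ ∞ (tY σ a) := by
  have hX := contDiff_coord (ι := ι) (σ (.inl .X))
  have hY := contDiff_coord (ι := ι) (σ (.inl .Y))
  apply contDiff_of_coord σ
  rintro (h | h)
  · cases h with
    | Y => simpa [tY] using hY.add contDiff_const
    | S =>
      have h1 := (contDiff_coord (ι := ι) (σ (.inl .S))).add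
        ((contDiff_const (c := 2 * a)).mul hX)
      simpa [tY] using h1
    | _ => simpa [tY] using contDiff_coord _
  · cases h with
    | V =>
      have h1 := (contDiff_coord (ι := ι) (σ (.inr .V))).add
        (((contDiff_const (c := 2 * a)).mul (hX.mul hY)).add
          ((contDiff_const (c := a ^ 2)).mul hX))
      simpa [tY] using h1
    | B =>
      have h1 := (contDiff_coord (ι := ι) (σ (.inr .B))).add
        ((contDiff_const (c := a)).mul (hX.pow 2))
      simpa [tY] using h1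

lemma mem_tY (a : ℝ) (x v : EuclideanSpace ℝ ι)
    (hv : v ∈ D σ x) : fderiv ℝ (tY σ a) x v ∈ D σ (tY σ a x) := by
  have hd := contDiff_tY σ a
  have hv' := (mem_D σ x v).mp hv
  have cX := fd_same hd (c := σ (.inl .X)) (a := 0) (fun q => by simp [tY]) x v
  have cY := fd_same hd (c := σ (.inl .Y)) (a := a) (fun q => by simp [tY]) x v
  have cE : ∀ k : Fin t, (fderiv ℝ (tY σ a) x v) (σ (.inl (.E k))) = v (σ (.inl (.E k))) :=
    fun k => fd_same hd (a := 0) (fun q => by simp [tY]) x v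
  have cV : (fderiv ℝ (tY σ a) x v) (σ (.inr .V)) = v (σ (.inr .V)) +
      (2 * a * (x (σ (.inl .X)) * v (σ (.inl .Y)) + x (σ (.inl .Y)) * v (σ (.inl .X))) +
        a ^ 2 * v (σ (.inl .X))) := by
    rw [fderiv_coord_apply (hd.differentiable (by simp))]
    have : (fun q => tY σ a q (σ (.inr .V))) = fun q : EuclideanSpace ℝ ι =>
        q (σ (.inr .V)) + (2 * a * (q (σ (.inl .X)) * q (σ (.inl .Y))) +
          a ^ 2 * q (σ (.inl .X))) := by
      funext q; simp [tY]
    rw [this]
    have h := (hasFDerivAt_coord (σ (.inr .V)) x).add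
      ((((hasFDerivAt_coord (σ (.inl .X)) x).mul (hasFDerivAt_coord (σ (.inl .Y)) x)).const_mul
        (2 * a)).add ((hasFDerivAt_coord (σ (.inl .X)) x).const_mul (a ^ 2)))
    have h' := h.fderiv
    have h2 := congrArg (fun Λ : EuclideanSpace ℝ ι →L[ℝ] ℝ => Λ v) h'
    refine h2.trans ?_
    simp
    ring
  have cB : (fderiv ℝ (tY σ a) x v) (σ (.inr .B)) = v (σ (.inr .B)) +
      a * (x (σ (.inl .X)) * v (σ (.inl .X)) + x (σ (.inl .X)) * v (σ (.inl .X))) := by
    rw [fderiv_coord_apply (hd.differentiable (by simp))]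
    have : (fun q => tY σ a q (σ (.inr .B))) = fun q : EuclideanSpace ℝ ι =>
        q (σ (.inr .B)) + a * (q (σ (.inl .X)) * q (σ (.inl .X))) := by
      funext q; simp [tY, sq]
    rw [this]
    have h := (hasFDerivAt_coord (σ (.inr .B)) x).add
      (((hasFDerivAt_coord (σ (.inl .X)) x).mul (hasFDerivAt_coord (σ (.inl .X)) x)).const_mul a)
    have h' := h.fderiv
    have h2 := congrArg (fun Λ : EuclideanSpace ℝ ι →L[ℝ] ℝ => Λ v) h'
    refine h2.trans ?_
    simp
    ring
  rw [mem_D]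
  refine ⟨?_, ?_⟩
  · rw [cV, cX, cY, hv'.1]
    simp [tY]
    ring
  · rw [cB, cX, hv'.2]
    simp only [cE]
    simp [tY]
    ring

/-! ### translation of `S`, `A` -/

/-- translation of `S`, `A`. -/
noncomputable def tP (w : Hor t → ℝ) (q : EuclideanSpace ℝ ι) : EuclideanSpace ℝ ι :=
  pt σ (q (σ (.inl .X))) (q (σ (.inl .Y))) (q (σ (.inl .S)) + w .S)
    (fun i => q (σ (.inl (.A i))) + w (.A i)) (fun i => q (σ (.inl (.E i))))
    (q (σ (.inr .V)) + w .S * q (σ (.inl .Y)))
    (q (σ (.inr .B)) + (w .S * q (σ (.inl .X)) + ∑ k : Fin t, w (.A k) * q (σ (.inl (.E k)))))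

lemma tP_inv (w : Hor t → ℝ) (q : EuclideanSpace ℝ ι) : tP σ (-w) (tP σ w q) = q := by
  apply ext_coord σ
  rintro (h | h)
  · cases h <;> simp [tP]
  · cases h with
    | V => simp [tP]
    | B =>
      simp [tP]
      ring

lemma tP_inv' (w : Hor t → ℝ) (q : EuclideanSpace ℝ ι) : tP σ w (tP σ (-w) q) = q := by
  have := tP_inv σ (-w) q
  rwa [neg_neg] at this

lemma contDiff_lin (w : Hor t → ℝ) : ContDiff ℝ ∞ (fun q : EuclideanSpace ℝ ι =>
    w .S * q (σ (.inl .X)) + ∑ k : Fin t, w (.A k) * q (σ (.inl (.E k)))) :=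
  (contDiff_const.mul (contDiff_coord _)).add
    (ContDiff.sum fun _ _ => contDiff_const.mul (contDiff_coord _))

lemma contDiff_tP (w : Hor t → ℝ) : ContDiff ℝ ∞ (tP σ w) := by
  apply contDiff_of_coord σ
  rintro (h | h)
  · cases h with
    | S => simpa [tP] using (contDiff_coord (σ (.inl .S))).add contDiff_const
    | A i => simpa [tP] using (contDiff_coord (σ (.inl (.A i)))).add contDiff_const
    | _ => simpa [tP] using contDiff_coord _
  · cases h with
    | V =>
      have h1 := (contDiff_coord (ι := ι) (σ (.inr .V))).add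
        ((contDiff_const (c := w .S)).mul (contDiff_coord (ι := ι) (σ (.inl .Y))))
      simpa [tP] using h1
    | B =>
      have h1 := (contDiff_coord (ι := ι) (σ (.inr .B))).add (contDiff_lin σ w)
      simpa [tP] using h1

lemma mem_tP (w : Hor t → ℝ) (x v : EuclideanSpace ℝ ι)
    (hv : v ∈ D σ x) : fderiv ℝ (tP σ w) x v ∈ D σ (tP σ w x) := by
  have hd := contDiff_tP σ w
  have hv' := (mem_D σ x v).mp hv
  have cX := fd_same hd (c := σ (.inl .X)) (a := 0) (fun q => by simp [tP]) x v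
  have cY := fd_same hd (c := σ (.inl .Y)) (a := 0) (fun q => by simp [tP]) x v
  have cE : ∀ k : Fin t, (fderiv ℝ (tP σ w) x v) (σ (.inl (.E k))) = v (σ (.inl (.E k))) :=
    fun k => fd_same hd (a := 0) (fun q => by simp [tP]) x v
  have cV : (fderiv ℝ (tP σ w) x v) (σ (.inr .V)) = v (σ (.inr .V)) +
      w .S * v (σ (.inl .Y)) := by
    rw [fderiv_coord_apply (hd.differentiable (by simp))]
    have : (fun q => tP σ w q (σ (.inr .V))) = fun q : EuclideanSpace ℝ ι =>
        q (σ (.inr .V)) + w .S * q (σ (.inl .Y)) := by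
      funext q; simp [tP]
    rw [this]
    apply fderiv_along
    · exact ((differentiable_coord _).add ((differentiable_coord _).const_mul _)) x
    · intro r
      simp only [PiLp.add_apply, PiLp.smul_apply, smul_eq_mul]
      ring
  have cB : (fderiv ℝ (tP σ w) x v) (σ (.inr .B)) = v (σ (.inr .B)) +
      (w .S * v (σ (.inl .X)) + ∑ k : Fin t, w (.A k) * v (σ (.inl (.E k)))) := by
    rw [fderiv_coord_apply (hd.differentiable (by simp))]
    have : (fun q => tP σ w q (σ (.inr .B))) = fun q : EuclideanSpace ℝ ι =>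
        q (σ (.inr .B)) + (w .S * q (σ (.inl .X)) +
          ∑ k : Fin t, w (.A k) * q (σ (.inl (.E k)))) := by
      funext q; simp [tP]
    rw [this]
    apply fderiv_along
    · exact (((contDiff_coord (ι := ι) (σ (.inr .B))).add
        (contDiff_lin σ w)).differentiable (by simp)) x
    · intro r
      simp only [PiLp.add_apply, PiLp.smul_apply, smul_eq_mul, mul_add, Finset.sum_add_distrib]
      have : ∀ k : Fin t, w (.A k) * (r * v (σ (.inl (.E k)))) =
        r * (w (.A k) * v (σ (.inl (.E k)))) := fun k => by ring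
      simp only [this, ← Finset.mul_sum]
      ring
  rw [mem_D]
  refine ⟨?_, ?_⟩
  · rw [cV, cX, cY, hv'.1]
    simp [tP]
    ring
  · rw [cB, cX, hv'.2]
    simp only [cE]
    have h1 : ∀ k : Fin t, (tP σ w x) (σ (.inl (.A k))) = x (σ (.inl (.A k))) + w (.A k) := by
      intro k
      simp [tP]
    have h2 : (tP σ w x) (σ (.inl .S)) = x (σ (.inl .S)) + w .S := by simp [tP]
    simp only [h1, h2, add_mul, Finset.sum_add_distrib]
    ring

/-! ### translations -/

/-- translations. -/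
def tC (w : EuclideanSpace ℝ ι) (q : EuclideanSpace ℝ ι) : EuclideanSpace ℝ ι := q + w

lemma mem_tC (w : EuclideanSpace ℝ ι) (hY : w (σ (.inl .Y)) = 0)
    (hS : w (σ (.inl .S)) = 0) (hA : ∀ k, w (σ (.inl (.A k))) = 0) (x v : EuclideanSpace ℝ ι)
    (hv : v ∈ D σ x) : fderiv ℝ (tC w) x v ∈ D σ (tC w x) := by
  have h1 : fderiv ℝ (tC w) x v = v := by
    unfold tC
    rw [fderiv_add_const]
    simp
  rw [h1]
  have hv' := (mem_D σ x v).mp hv
  rw [mem_D]
  simp only [tC, PiLp.add_apply, hY, hS, hA, add_zero]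
  exact hv'

lemma good_tC (w : EuclideanSpace ℝ ι) (hY : w (σ (.inl .Y)) = 0)
    (hS : w (σ (.inl .S)) = 0) (hA : ∀ k, w (σ (.inl (.A k))) = 0) :
    Good (D σ) ⟨tC w, tC (-w), fun q => by simp [tC], fun q => by simp [tC]⟩ :=
  ⟨contDiff_id.add contDiff_const, contDiff_id.add contDiff_const, mem_tC σ w hY hS hA,
    mem_tC σ (-w) (by simp [hY]) (by simp [hS]) (by simp [hA])⟩

/-- symmetries move the origin everywhere. -/
lemma exists_good (q : EuclideanSpace ℝ ι) :
    ∃ Φ : Equiv.Perm (EuclideanSpace ℝ ι), Good (D σ) Φ ∧ Φ 0 = q := by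
  have g2 := good_family σ (tY σ) (fun a => -a) (tY_inv σ) (tY_inv' σ) (contDiff_tY σ)
    (fun a x v hv => mem_tY σ a x v hv) (q (σ (.inl .Y)))
  have g3 := good_family σ (tP σ) (fun a => -a) (tP_inv σ) (tP_inv' σ) (contDiff_tP σ)
    (fun a x v hv => mem_tP σ a x v hv) (hor σ q)
  have g := g3.mul g2
  set Ψ := ((⟨tP σ (hor σ q), _, _, _⟩ : Equiv.Perm (EuclideanSpace ℝ ι)) *
    ⟨tY σ (q (σ (.inl .Y))), _, _, _⟩) with hΨ
  have e0 : Ψ 0 = tP σ (hor σ q) (tY σ (q (σ (.inl .Y))) 0) := rfl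
  have g4 := good_tC σ (q - Ψ 0) (by rw [e0]; simp [tY, tP]) (by rw [e0]; simp [tY, tP, hor])
    (fun i => by rw [e0]; simp [tY, tP, hor])
  refine ⟨_, g4.mul g, ?_⟩
  show tC (q - Ψ 0) (Ψ 0) = q
  simp [tC]

theorem homogeneous_D : IsHomogeneous (D σ) := by
  intro p q
  obtain ⟨Φ, h1, h2⟩ := exists_good σ p
  obtain ⟨Ψ, h3, h4⟩ := exists_good σ q
  refine ⟨Ψ * Φ.symm, (h3.mul h1.symm).isSymmetry, ?_⟩
  show Ψ (Φ.symm p) = q
  rw [← h2, Equiv.symm_apply_apply, h4]

/-! ### the large group -/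

/-- the three coordinates of the jet. -/
def tri (k : Fin t) : G.Tri ι where
  a := σ (.inl (.E k))
  b := σ (.inl (.A k))
  c := σ (.inr .B)
  hab := by simp
  hac := by simp
  hbc := by simp

variable [DecidableEq ι]

lemma mem_shift (k : Fin t) {f : ℝ → ℝ} (hf : ContDiff ℝ ∞ f) (p v : EuclideanSpace ℝ ι)
    (hv : v ∈ D σ p) :
    fderiv ℝ (G.shift (tri σ k) f) p v ∈ D σ (G.shift (tri σ k) f p) := by
  rw [(G.hasFDerivAt_shift (tri σ k) hf p).fderiv]
  have hv' := (mem_D σ p v).mp hv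
  have cI : ∀ h : Hor _, h ≠ .A k →
      (G.dshift (tri σ k) f p v) (σ (.inl h)) = v (σ (.inl h)) := by
    intro h hh
    rw [G.dshift_apply]
    simp [G.ev_apply, hh, tri]
  have cV : (G.dshift (tri σ k) f p v) (σ (.inr .V)) = v (σ (.inr .V)) := by
    rw [G.dshift_apply]
    simp [G.ev_apply, tri]
  have cB : (G.dshift (tri σ k) f p v) (σ (.inr .B)) =
      v (σ (.inr .B)) + deriv f (p (σ (.inl (.E k)))) * v (σ (.inl (.E k))) := by
    rw [G.dshift_apply]
    simp [G.ev_apply, tri]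
  have sI : ∀ h : Hor _, h ≠ .A k →
      (G.shift (tri σ k) f p) (σ (.inl h)) = p (σ (.inl h)) := by
    intro h hh
    rw [G.shift_apply]
    simp [G.jet, G.ev_apply, hh, tri]
  have sA : (G.shift (tri σ k) f p) (σ (.inl (.A k))) =
      p (σ (.inl (.A k))) + deriv f (p (σ (.inl (.E k)))) := by
    rw [G.shift_apply]
    simp [G.jet, G.ev_apply, tri]
  rw [mem_D]
  refine ⟨?_, ?_⟩
  · rw [cV, cI _ (by simp), cI _ (by simp), sI _ (by simp), sI _ (by simp)]
    exact hv'.1
  · have h1 : ∀ j, (G.shift (tri σ k) f p) (σ (.inl (.A j))) *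
        (G.dshift (tri σ k) f p v) (σ (.inl (.E j))) =
        p (σ (.inl (.A j))) * v (σ (.inl (.E j))) +
          if j = k then deriv f (p (σ (.inl (.E k)))) * v (σ (.inl (.E k))) else 0 := by
      intro j
      rw [cI _ (by simp)]
      by_cases hj : j = k
      · subst hj
        rw [sA, if_pos rfl]
        ring
      · rw [sI _ (by simpa using hj), if_neg hj, add_zero]
    rw [cB, cI _ (by simp), sI _ (by simp), Finset.sum_congr rfl fun j _ => h1 j,
      Finset.sum_add_distrib, hv'.2]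
    simp
    ring

lemma good_shift (k : Fin t) {f : ℝ → ℝ} (hf : ContDiff ℝ ∞ f) :
    Good (D σ) (G.shift (tri σ k) f) := by
  have hneg : ((G.shift (tri σ k) f).symm : EuclideanSpace ℝ ι → EuclideanSpace ℝ ι) =
      G.shift (tri σ k) (fun x => -f x) := by
    funext p
    rw [G.shift_symm_apply, G.shift_apply]
    unfold G.jet
    have : deriv (fun x => -f x) (p (tri σ k).a) = -deriv f (p (tri σ k).a) := by
      simp
    rw [this, neg_smul, neg_smul]
    abel
  refine ⟨contDiff_id.add (G.contDiff_jet _ hf), contDiff_id.sub (G.contDiff_jet _ hf),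
    fun x v hv => mem_shift σ k hf x v hv, fun x v hv => ?_⟩
  rw [hneg]
  exact mem_shift σ k hf.neg x v hv

theorem not_lie (ht : 0 < t) : ¬ SymmetryGroupIsLie (D σ) :=
  G.not_lie (tri σ ⟨0, ht⟩) fun _ hf => (good_shift σ ⟨0, ht⟩ hf).isSymmetry

theorem large_symmetry (ht : 0 < t) : HasSymmetryActionsOfAllRanks (D σ) :=
  G.large_symmetry (tri σ ⟨0, ht⟩) fun _ hf => (good_shift σ ⟨0, ht⟩ hf).isSymmetry

end Pool.Agent.H68.ST.K
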