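import Pool.Agent.H68.ST.NotLie
import Pool.Agent.H68.ST.KHom

set_option autoImplicit false
set_option linter.unusedSectionVars false

open MeasureTheory Set Filter
open scoped Manifold ContDiff Topology Pointwise

namespace Pool.Agent.H68.ST

/-- `Δ` has a global frame of `r` real analytic vector fields. -/
def HasAnalyticFrame {E : Type*} [NormedAddCommGroup E] [NormedSpace ℝ E] (r : ℕ)
    (Δ : E → Submodule ℝ E) : Prop :=
  ∃ X : Fin r → E → E, (∀ i, AnalyticOnNhd ℝ (X i) univ) ∧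
    ∀ x, LinearIndependent ℝ (fun i => X i x) ∧
      Submodule.span ℝ (Set.range fun i => X i x) = Δ x

section
variable {ι : Type} [Fintype ι] {m e f g t : ℕ} (σ : Coord m e f g t ≃ ι)

lemma contDiff_omega_coord (i : ι) : ContDiff ℝ ω (fun p : EuclideanSpace ℝ ι => p i) :=
  (EuclideanSpace.proj (𝕜 := ℝ) i : EuclideanSpace ℝ ι →L[ℝ] ℝ).contDiff

lemma contDiff_omega_L (w : Hor f t → ℝ) :
    ContDiff ℝ ω (L (m := m) (e := e) (g := g) σ w) := by
  rw [contDiff_piLp]
  intro i
  obtain ⟨c, rfl⟩ := σ.surjective i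
  have hs : ContDiff ℝ ω (sQ (f := f) σ) := by
    unfold sQ
    exact ContDiff.sum fun i _ => contDiff_omega_coord _
  rcases c with h | h
  · simpa using contDiff_const
  · cases h with
    | U j => simpa using ((contDiff_omega_coord (σ (.inl .Y))).pow _).mul contDiff_const
    | B i => simpa using ((contDiff_omega_coord (σ (.inl .X))).pow 2).mul contDiff_const
    | C i => simpa using hs.mul contDiff_const
    | Z =>
      have h1 : ContDiff ℝ ω (fun p : EuclideanSpace ℝ ι => p (σ (.inl .P)) * w .X + sQ σ p * w .Y +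
        ∑ k : Fin t, p (σ (.inl (.A k))) * w (.E k)) :=
        (((contDiff_omega_coord _).mul contDiff_const).add (hs.mul contDiff_const)).add
          (ContDiff.sum fun i _ => (contDiff_omega_coord _).mul contDiff_const)
      simpa using h1

theorem analytic_D {r : ℕ} (hr : Fintype.card (Hor f t) = r) : HasAnalyticFrame r (D σ) := by
  let ε : Fin r ≃ Hor f t := (Fintype.equivFinOfCardEq hr).symm
  refine ⟨fun i p => L σ (Pi.single (ε i) 1) p, ?_, ?_⟩
  · intro i
    exact contDiff_omega_iff_analyticOnNhd.mp (contDiff_omega_L σ _)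
  · intro x
    constructor
    · rw [Fintype.linearIndependent_iff]
      intro c hc i
      have h1 := congrArg (fun v : EuclideanSpace ℝ ι => v (σ (.inl (ε i)))) hc
      have h2 : (∑ j, c j • L σ (Pi.single (ε j) 1) x) (σ (.inl (ε i))) =
        ∑ j, c j * L σ (Pi.single (ε j) 1) x (σ (.inl (ε i))) := by simp
      simp only [h2] at h1
      simpa [Pi.single_apply] using h1
    · apply le_antisymm
      · rw [Submodule.span_le]
        rintro _ ⟨i, rfl⟩
        exact L_mem σ _ x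
      · intro v hv
        rw [eq_L σ hv, L_sum]
        refine Submodule.sum_mem _ fun h _ => Submodule.smul_mem _ _ ?_
        exact Submodule.subset_span ⟨ε.symm h, by simp⟩

end

/-- All the properties. -/
def AllProps {E : Type*} [NormedAddCommGroup E] [NormedSpace ℝ E] (r : ℕ)
    (Δ : E → Submodule ℝ E) : Prop :=
  IsSmoothDistribution r Δ ∧ HasAnalyticFrame r Δ ∧ BracketGenerating Δ ∧
    HasNoCauchyCharacteristics Δ ∧ IsHomogeneous Δ ∧ SingularTransitive Δ ∧
    ¬ SymmetryGroupIsLie Δ ∧ HasSymmetryActionsOfAllRanks Δ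

theorem family (m e f g t r n : ℕ) (hr : r = 3 + f + 2 * t) (hn : n = r + 1 + m + e + g)
    (he : e ≤ 1) (hf : f ≤ 1) (hg : g ≤ 1) (hgf : g ≤ f) (hok : Ok m e f g)
    (hme : 1 ≤ e → 1 ≤ m) (hmf : 1 ≤ m ∨ 1 ≤ f) :
    ∃ Δ : EuclideanSpace ℝ (Fin n) → Submodule ℝ (EuclideanSpace ℝ (Fin n)),
      AllProps r Δ ∧ (2 ≤ m ∧ 1 ≤ e → SingularInEveryDirection Δ) := by
  have hc : Fintype.card (Coord m e f g t) = n := by
    rw [Fintype.card_sum, card_hor, card_ver]
    omega
  let σ : Coord m e f g t ≃ Fin n := Fintype.equivFinOfCardEq hc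
  have hh : Fintype.card (Hor f t) = r := by
    rw [card_hor]
    omega
  exact ⟨D σ, ⟨smooth_D σ hh, analytic_D σ hh, bracketGenerating_D σ he hg hgf,
    noCauchy_D σ hf hmf, homogeneous_D σ hme, singularTransitive_D σ hok he hg hgf,
    not_lie σ, large_symmetry σ⟩, fun h => everyDirection_D σ h.1 h.2⟩

theorem familyK (t r n : ℕ) (ht : 0 < t) (hr : r = 3 + 2 * t) (hn : n = r + 2) :
    ∃ Δ : EuclideanSpace ℝ (Fin n) → Submodule ℝ (EuclideanSpace ℝ (Fin n)), AllProps r Δ := by
  have hc : Fintype.card (K.Coord t) = n := by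
    rw [Fintype.card_sum, K.card_hor, K.card_ver]
    omega
  let σ : K.Coord t ≃ Fin n := Fintype.equivFinOfCardEq hc
  have hh : Fintype.card (K.Hor t) = r := by
    rw [K.card_hor]
    omega
  let ε : Fin r ≃ K.Hor t := (Fintype.equivFinOfCardEq hh).symm
  exact ⟨K.D σ, K.smooth_D σ hh, ⟨fun i p => K.L σ (Pi.single (ε i) 1) p,
    fun i => contDiff_omega_iff_analyticOnNhd.mp (K.contDiff_L σ _ _), fun x => K.frame_D σ ε x⟩,
    K.bracketGenerating_D σ, K.noCauchy_D σ, K.homogeneous_D σ, K.singularTransitive_D σ,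
    K.not_lie σ ht, K.large_symmetry σ ht⟩

theorem exists_all (r n : ℕ) (hr : 3 ≤ r) (hn : r + 2 ≤ n) (h35 : ¬ (r = 3 ∧ n = 5)) :
    ∃ Δ : EuclideanSpace ℝ (Fin n) → Submodule ℝ (EuclideanSpace ℝ (Fin n)),
      AllProps r Δ ∧ (r + 4 ≤ n → SingularInEveryDirection Δ) := by
  obtain ⟨f, t, hf, hrf⟩ : ∃ f t : ℕ, f ≤ 1 ∧ r = 3 + f + 2 * t := by
    rcases Nat.even_or_odd r with h | h
    · obtain ⟨k, hk⟩ := h
      exact ⟨1, k - 2, le_rfl, by omega⟩
    · obtain ⟨k, hk⟩ := h
      exact ⟨0, k - 1, by omega, by omega⟩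
  by_cases h4 : r + 4 ≤ n
  · obtain ⟨Δ, h1, h2⟩ := family (n - r - 2) 1 f 0 t r n hrf (by omega) le_rfl hf (by omega)
      (by omega) (Or.inl ⟨by omega, Or.inl le_rfl⟩) (fun _ => by omega) (Or.inl (by omega))
    exact ⟨Δ, h1, fun _ => h2 ⟨by omega, le_rfl⟩⟩
  · by_cases hf1 : f = 1
    · subst hf1
      by_cases h3 : n = r + 3
      · obtain ⟨Δ, h1, h2⟩ := family 1 0 1 1 t r n hrf (by omega) (by omega) le_rfl le_rfl
          le_rfl (Or.inr le_rfl) (fun _ => by omega) (Or.inl (by omega))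
        exact ⟨Δ, h1, fun h => absurd h h4⟩
      · obtain ⟨Δ, h1, h2⟩ := family 0 0 1 1 t r n hrf (by omega) (by omega) le_rfl le_rfl
          le_rfl (Or.inr le_rfl) (fun _ => by omega) (Or.inr (by omega))
        exact ⟨Δ, h1, fun h => absurd h h4⟩
    · have hf0 : f = 0 := by omega
      subst hf0
      by_cases h3 : n = r + 3
      · obtain ⟨Δ, h1, h2⟩ := family 2 0 0 0 t r n hrf (by omega) (by omega) (by omega)
          (by omega) le_rfl (Or.inl ⟨le_rfl, Or.inr rfl⟩) (fun _ => by omega) (Or.inl (by omega))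
        exact ⟨Δ, h1, fun h => absurd h h4⟩
      · obtain ⟨Δ, h1⟩ := familyK t r n (by omega) (by omega) (by omega)
        exact ⟨Δ, h1, fun h => absurd h h4⟩

end Pool.Agent.H68.ST
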