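import Pool.Agent.H68.ST.Sym

set_option autoImplicit false
set_option linter.unusedSectionVars false

open MeasureTheory Set Filter
open scoped Manifold ContDiff Topology Pointwise

namespace Pool.Agent.H68.ST

variable {ι : Type} [Fintype ι] {m e f g t : ℕ} (σ : Coord m e f g t ≃ ι)

/-- a permutation from a family with inverses. -/
lemma good_family {A : Type*} (T : A → EuclideanSpace ℝ ι → EuclideanSpace ℝ ι)
    (n : A → A) (hl : ∀ a q, T (n a) (T a q) = q) (hr : ∀ a q, T a (T (n a) q) = q)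
    (sm : ∀ a, ContDiff ℝ ∞ (T a))
    (mp : ∀ a x, ∀ v ∈ D σ x, fderiv ℝ (T a) x v ∈ D σ (T a x)) (a : A) :
    Good (D σ) ⟨T a, T (n a), hl a, hr a⟩ :=
  ⟨sm a, sm (n a), mp a, mp (n a)⟩

lemma fd_same {T : EuclideanSpace ℝ ι → EuclideanSpace ℝ ι} (hT : ContDiff ℝ ∞ T) {c : ι} {a : ℝ}
    (h : ∀ q, T q c = q c + a) (x v : EuclideanSpace ℝ ι) : (fderiv ℝ T x v) c = v c := by
  rw [fderiv_coord_apply (hT.differentiable (by simp)), funext h, fderiv_add_const, fderiv_coord]

/-! ### translation of `X` -/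

/-- the first of the coordinates `U`. -/
def u0 (q : EuclideanSpace ℝ ι) : ℝ := if h : 0 < m then q (σ (.inr (.U ⟨0, h⟩))) else 0

/-- translation of `X`. -/
noncomputable def tX (a : ℝ) (q : EuclideanSpace ℝ ι) : EuclideanSpace ℝ ι :=
  pt σ (q (σ (.inl .X)) + a) (q (σ (.inl .Y))) (q (σ (.inl .P))) (fun i => q (σ (.inl (.Q i))))
    (fun i => q (σ (.inl (.A i)))) (fun i => q (σ (.inl (.E i)))) (fun j => q (σ (.inr (.U j))))
    (fun i => q (σ (.inr (.B i))) + 2 * a * (q (σ (.inl .X)) * q (σ (.inl .Y)) - u0 σ q) +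
      a ^ 2 * q (σ (.inl .Y))) (fun i => q (σ (.inr (.C i)))) (q (σ (.inr .Z)))

lemma u0_tX (a : ℝ) (q : EuclideanSpace ℝ ι) : u0 σ (tX σ a q) = u0 σ q := by
  unfold u0
  split_ifs
  · simp [tX]
  · rfl

lemma tX_inv (a : ℝ) (q : EuclideanSpace ℝ ι) : tX σ (-a) (tX σ a q) = q := by
  apply ext_coord σ
  rintro (h | h)
  · cases h <;> simp [tX]
  · cases h with
    | B i =>
      have h1 := u0_tX σ a q
      unfold tX at h1 ⊢
      simp only [pt_B, pt_X, pt_Y, h1]
      ring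
    | _ => simp [tX]

lemma tX_inv' (a : ℝ) (q : EuclideanSpace ℝ ι) : tX σ a (tX σ (-a) q) = q := by
  have := tX_inv σ (-a) q
  rwa [neg_neg] at this

lemma contDiff_u0 : ContDiff ℝ ∞ (u0 σ) := by
  by_cases h : 0 < m
  · have : (u0 σ) = fun q : EuclideanSpace ℝ ι => q (σ (.inr (.U ⟨0, h⟩))) := by
      funext q
      exact dif_pos h
    rw [this]
    exact contDiff_coord _
  · have : (u0 σ) = fun _ : EuclideanSpace ℝ ι => (0 : ℝ) := by
      funext q
      exact dif_neg h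
    rw [this]
    exact contDiff_const

lemma contDiff_tX (a : ℝ) : ContDiff ℝ ∞ (tX σ a) := by
  have hX := contDiff_coord (ι := ι) (σ (.inl .X))
  have hY := contDiff_coord (ι := ι) (σ (.inl .Y))
  apply contDiff_of_coord σ
  rintro (h | h)
  · cases h with
    | X => simpa [tX] using hX.add contDiff_const
    | _ => simpa [tX] using contDiff_coord _
  · cases h with
    | B i =>
      have h1 := ((contDiff_coord (ι := ι) (σ (.inr (.B i)))).add ((contDiff_const (c := 2 * a)).mul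
        ((hX.mul hY).sub (contDiff_u0 σ)))).add ((contDiff_const (c := a ^ 2)).mul hY)
      simpa [tX] using h1
    | _ => simpa [tX] using contDiff_coord _

lemma mem_tX (hme : 1 ≤ e → 1 ≤ m) (a : ℝ) (x v : EuclideanSpace ℝ ι)
    (hv : v ∈ D σ x) : fderiv ℝ (tX σ a) x v ∈ D σ (tX σ a x) := by
  have hd := contDiff_tX σ a
  have hv' := (mem_D σ x v).mp hv
  have cX := fd_same hd (c := σ (.inl .X)) (a := a) (fun q => by simp [tX]) x v
  have cY := fd_same hd (c := σ (.inl .Y)) (a := 0) (fun q => by simp [tX]) x v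
  have cE : ∀ k : Fin t, (fderiv ℝ (tX σ a) x v) (σ (.inl (.E k))) = v (σ (.inl (.E k))) :=
    fun k => fd_same hd (a := 0) (fun q => by simp [tX]) x v
  have cU : ∀ j : Fin m, (fderiv ℝ (tX σ a) x v) (σ (.inr (.U j))) = v (σ (.inr (.U j))) :=
    fun j => fd_same hd (a := 0) (fun q => by simp [tX]) x v
  have cC : ∀ i : Fin g, (fderiv ℝ (tX σ a) x v) (σ (.inr (.C i))) = v (σ (.inr (.C i))) :=
    fun i => fd_same hd (a := 0) (fun q => by simp [tX]) x v
  have cZ := fd_same hd (c := σ (.inr .Z)) (a := 0) (fun q => by simp [tX]) x v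
  have sq : sQ (f := f) σ (tX σ a x) = sQ σ x := by simp [tX, sQ]
  rw [mem_D]
  refine ⟨fun j => ?_, fun i => ?_, fun i => ?_, ?_⟩
  · rw [cU, cX, hv'.1 j]
    simp [tX]
  · have hm : 0 < m := by
      have := i.2
      exact hme (by omega)
    have cB : (fderiv ℝ (tX σ a) x v) (σ (.inr (.B i))) = v (σ (.inr (.B i))) +
        2 * a * (x (σ (.inl .X)) * v (σ (.inl .Y)) + x (σ (.inl .Y)) * v (σ (.inl .X)) -
        v (σ (.inr (.U ⟨0, hm⟩)))) + a ^ 2 * v (σ (.inl .Y)) := by
      rw [fderiv_coord_apply (hd.differentiable (by simp))]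
      have : (fun q => tX σ a q (σ (.inr (.B i)))) = fun q : EuclideanSpace ℝ ι =>
        q (σ (.inr (.B i))) + 2 * a * (q (σ (.inl .X)) * q (σ (.inl .Y)) -
          q (σ (.inr (.U ⟨0, hm⟩)))) + a ^ 2 * q (σ (.inl .Y)) := by
        funext q; simp [tX, u0, hm]
      rw [this]
      have h := (((hasFDerivAt_coord (σ (.inr (.B i))) x).add
        ((((hasFDerivAt_coord (σ (.inl .X)) x).mul (hasFDerivAt_coord (σ (.inl .Y)) x)).sub
        (hasFDerivAt_coord (σ (.inr (.U ⟨0, hm⟩))) x)).const_mul (2 * a))).add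
        ((hasFDerivAt_coord (σ (.inl .Y)) x).const_mul (a ^ 2)))
      have h' := h.fderiv
      have h2 := congrArg (fun Λ : EuclideanSpace ℝ ι →L[ℝ] ℝ => Λ v) h'
      refine h2.trans ?_
      simp
    rw [cB, cY, hv'.2.1 i, hv'.1 ⟨0, hm⟩]
    simp [tX]
    ring
  · rw [cC, cY, hv'.2.2.1 i, sq]
  · rw [cZ, cX, cY, hv'.2.2.2, sq]
    simp only [cE]
    simp [tX]

/-! ### translation of `Y` -/

/-- translation of `Y`. -/
noncomputable def tY (a : ℝ) (q : EuclideanSpace ℝ ι) : EuclideanSpace ℝ ι :=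
  pt σ (q (σ (.inl .X))) (q (σ (.inl .Y)) + a) (q (σ (.inl .P))) (fun i => q (σ (.inl (.Q i))))
    (fun i => q (σ (.inl (.A i)))) (fun i => q (σ (.inl (.E i))))
    (fun j => ell (q (σ (.inl .X))) (fun j => q (σ (.inr (.U j))))
      (Polynomial.taylor a (Polynomial.X ^ ((j : ℕ) + 1))))
    (fun i => q (σ (.inr (.B i)))) (fun i => q (σ (.inr (.C i)))) (q (σ (.inr .Z)))

lemma tY_inv (a : ℝ) (q : EuclideanSpace ℝ ι) : tY σ (-a) (tY σ a q) = q := by
  apply ext_coord σ
  rintro (h | h)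
  · cases h <;> simp [tY]
  · cases h with
    | U j =>
      simp only [tY, pt_U, pt_X]
      rw [ell_shift]
      · rw [Polynomial.taylor_taylor]
        simp only [add_neg_cancel, Polynomial.taylor_zero]
        exact ell_pow _ _ j
      · rw [Polynomial.natDegree_taylor, Polynomial.natDegree_X_pow]
        exact j.2
    | _ => simp [tY]

lemma tY_inv' (a : ℝ) (q : EuclideanSpace ℝ ι) : tY σ a (tY σ (-a) q) = q := by
  have := tY_inv σ (-a) q
  rwa [neg_neg] at this

lemma contDiff_ell (φ : Polynomial ℝ) :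
    ContDiff ℝ ∞ (fun q : EuclideanSpace ℝ ι =>
      ell (q (σ (.inl .X))) (fun j => q (σ (.inr (.U j)))) φ) := by
  simp only [ell_apply]
  exact (contDiff_const.mul (contDiff_coord _)).add
    (ContDiff.sum fun j _ => contDiff_const.mul (contDiff_coord _))

lemma fderiv_ell (φ : Polynomial ℝ) (x v : EuclideanSpace ℝ ι) :
    fderiv ℝ (fun q : EuclideanSpace ℝ ι =>
      ell (q (σ (.inl .X))) (fun j => q (σ (.inr (.U j)))) φ) x v =
      ell (v (σ (.inl .X))) (fun j => v (σ (.inr (.U j)))) φ := by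
  apply fderiv_along (((contDiff_ell σ φ).differentiable (by simp)) x)
  intro r
  simp only [ell_apply, PiLp.add_apply, PiLp.smul_apply, smul_eq_mul, mul_add,
    Finset.sum_add_distrib, Finset.mul_sum]
  have : ∀ j : Fin m, φ.coeff ((j : ℕ) + 1) * (r * v (σ (.inr (.U j)))) =
    r * (φ.coeff ((j : ℕ) + 1) * v (σ (.inr (.U j)))) := fun j => by ring
  simp only [this]
  ring

lemma contDiff_tY (a : ℝ) : ContDiff ℝ ∞ (tY σ a) := by
  apply contDiff_of_coord σ
  rintro (h | h)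
  · cases h with
    | Y => simpa [tY] using (contDiff_coord (σ (.inl .Y))).add contDiff_const
    | _ => simpa [tY] using contDiff_coord _
  · cases h with
    | U j =>
      have h := contDiff_ell σ (Polynomial.taylor a (Polynomial.X ^ ((j : ℕ) + 1)))
      have h2 : (fun q => tY σ a q (σ (.inr (.U j)))) = fun q : EuclideanSpace ℝ ι =>
        ell (q (σ (.inl .X))) (fun j => q (σ (.inr (.U j))))
          (Polynomial.taylor a (Polynomial.X ^ ((j : ℕ) + 1))) := by
        funext q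
        simp only [tY, pt_U]
      rw [h2]
      exact h
    | _ => simpa [tY] using contDiff_coord _

lemma mem_tY (a : ℝ) (x v : EuclideanSpace ℝ ι)
    (hv : v ∈ D σ x) : fderiv ℝ (tY σ a) x v ∈ D σ (tY σ a x) := by
  have hd := contDiff_tY σ a
  have hv' := (mem_D σ x v).mp hv
  have cX := fd_same hd (c := σ (.inl .X)) (a := 0) (fun q => by simp [tY]) x v
  have cY := fd_same hd (c := σ (.inl .Y)) (a := a) (fun q => by simp [tY]) x v
  have cE : ∀ k : Fin t, (fderiv ℝ (tY σ a) x v) (σ (.inl (.E k))) = v (σ (.inl (.E k))) :=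
    fun k => fd_same hd (a := 0) (fun q => by simp [tY]) x v
  have cB : ∀ j : Fin e, (fderiv ℝ (tY σ a) x v) (σ (.inr (.B j))) = v (σ (.inr (.B j))) :=
    fun j => fd_same hd (a := 0) (fun q => by simp [tY]) x v
  have cC : ∀ i : Fin g, (fderiv ℝ (tY σ a) x v) (σ (.inr (.C i))) = v (σ (.inr (.C i))) :=
    fun i => fd_same hd (a := 0) (fun q => by simp [tY]) x v
  have cZ := fd_same hd (c := σ (.inr .Z)) (a := 0) (fun q => by simp [tY]) x v
  have sq : sQ (f := f) σ (tY σ a x) = sQ σ x := by simp [tY, sQ]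
  have cU : ∀ j, (fderiv ℝ (tY σ a) x v) (σ (.inr (.U j))) = ell (v (σ (.inl .X)))
      (fun j => v (σ (.inr (.U j)))) (Polynomial.taylor a (Polynomial.X ^ ((j : ℕ) + 1))) := by
    intro j
    rw [fderiv_coord_apply (hd.differentiable (by simp))]
    have : (fun q => tY σ a q (σ (.inr (.U j)))) = fun q : EuclideanSpace ℝ ι =>
      ell (q (σ (.inl .X))) (fun j => q (σ (.inr (.U j))))
        (Polynomial.taylor a (Polynomial.X ^ ((j : ℕ) + 1))) := by
      funext q
      simp only [tY, pt_U]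
    rw [this, fderiv_ell]
  rw [mem_D]
  refine ⟨fun j => ?_, fun i => ?_, fun i => ?_, ?_⟩
  · rw [cU, cX, ell_eval (v (σ (.inl .X))) (x (σ (.inl .Y))) _ hv'.1, Polynomial.taylor_eval]
    · simp [tY]
    · rw [Polynomial.natDegree_taylor, Polynomial.natDegree_X_pow]
      exact j.2
  · rw [cB, cY, hv'.2.1 i]
    simp [tY]
  · rw [cC, cY, hv'.2.2.1 i, sq]
  · rw [cZ, cX, cY, hv'.2.2.2, sq]
    simp only [cE]
    simp [tY]

/-! ### translation of `P`, `Q`, `A` -/

/-- translation of `P`, `Q`, `A`. -/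
noncomputable def tP (w : Hor f t → ℝ) (q : EuclideanSpace ℝ ι) : EuclideanSpace ℝ ι :=
  pt σ (q (σ (.inl .X))) (q (σ (.inl .Y))) (q (σ (.inl .P)) + w .P)
    (fun i => q (σ (.inl (.Q i))) + w (.Q i))
    (fun i => q (σ (.inl (.A i))) + w (.A i)) (fun i => q (σ (.inl (.E i))))
    (fun j => q (σ (.inr (.U j)))) (fun i => q (σ (.inr (.B i))))
    (fun i => q (σ (.inr (.C i))) + (∑ i, w (.Q i)) * q (σ (.inl .Y)))
    (q (σ (.inr .Z)) + (w .P * q (σ (.inl .X)) + (∑ i, w (.Q i)) * q (σ (.inl .Y)) +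
      ∑ k : Fin t, w (.A k) * q (σ (.inl (.E k)))))

lemma tP_inv (w : Hor f t → ℝ) (q : EuclideanSpace ℝ ι) :
    tP (m := m) (e := e) (g := g) σ (-w) (tP σ w q) = q := by
  apply ext_coord σ
  rintro (h | h)
  · cases h <;> simp [tP]
  · cases h with
    | Z =>
      simp [tP]
      ring
    | _ => simp [tP]

lemma tP_inv' (w : Hor f t → ℝ) (q : EuclideanSpace ℝ ι) :
    tP (m := m) (e := e) (g := g) σ w (tP σ (-w) q) = q := by
  have := tP_inv (m := m) (e := e) (g := g) σ (-w) q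
  rwa [neg_neg] at this

lemma contDiff_lin (w : Hor f t → ℝ) : ContDiff ℝ ∞ (fun q : EuclideanSpace ℝ ι =>
    w .P * q (σ (.inl .X)) + (∑ i, w (.Q i)) * q (σ (.inl .Y)) +
      ∑ k : Fin t, w (.A k) * q (σ (.inl (.E k)))) :=
  ((contDiff_const.mul (contDiff_coord _)).add (contDiff_const.mul (contDiff_coord _))).add
    (ContDiff.sum fun k _ => contDiff_const.mul (contDiff_coord _))

lemma contDiff_tP (w : Hor f t → ℝ) : ContDiff ℝ ∞ (tP (m := m) (e := e) (g := g) σ w) := by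
  apply contDiff_of_coord σ
  rintro (h | h)
  · cases h with
    | P => simpa [tP] using (contDiff_coord (σ (.inl .P))).add contDiff_const
    | Q i => simpa [tP] using (contDiff_coord (σ (.inl (.Q i)))).add contDiff_const
    | A i => simpa [tP] using (contDiff_coord (σ (.inl (.A i)))).add contDiff_const
    | _ => simpa [tP] using contDiff_coord _
  · cases h with
    | C i =>
      have h1 := (contDiff_coord (ι := ι) (σ (.inr (.C i)))).add
        ((contDiff_const (c := ∑ i, w (.Q i))).mul (contDiff_coord (ι := ι) (σ (.inl .Y))))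
      simpa [tP] using h1
    | Z =>
      have h1 := (contDiff_coord (ι := ι) (σ (.inr .Z))).add (contDiff_lin σ w)
      simpa [tP] using h1
    | _ => simpa [tP] using contDiff_coord _

lemma mem_tP (w : Hor f t → ℝ) (x v : EuclideanSpace ℝ ι)
    (hv : v ∈ D σ x) : fderiv ℝ (tP (m := m) (e := e) (g := g) σ w) x v ∈ D σ (tP σ w x) := by
  have hd := contDiff_tP (m := m) (e := e) (g := g) σ w
  have hv' := (mem_D σ x v).mp hv
  have cX := fd_same hd (c := σ (.inl .X)) (a := 0) (fun q => by simp [tP]) x v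
  have cY := fd_same hd (c := σ (.inl .Y)) (a := 0) (fun q => by simp [tP]) x v
  have cE : ∀ k : Fin t, (fderiv ℝ (tP σ w) x v) (σ (.inl (.E k))) = v (σ (.inl (.E k))) :=
    fun k => fd_same hd (a := 0) (fun q => by simp [tP]) x v
  have cB : ∀ j : Fin e, (fderiv ℝ (tP σ w) x v) (σ (.inr (.B j))) = v (σ (.inr (.B j))) :=
    fun j => fd_same hd (a := 0) (fun q => by simp [tP]) x v
  have cU : ∀ j : Fin m, (fderiv ℝ (tP σ w) x v) (σ (.inr (.U j))) = v (σ (.inr (.U j))) :=
    fun j => fd_same hd (a := 0) (fun q => by simp [tP]) x v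
  have sq : sQ (f := f) σ (tP σ w x) = sQ σ x + ∑ i, w (.Q i) := by
    simp [tP, sQ, Finset.sum_add_distrib]
  have cC : ∀ i : Fin g, (fderiv ℝ (tP σ w) x v) (σ (.inr (.C i))) = v (σ (.inr (.C i))) +
      (∑ i, w (.Q i)) * v (σ (.inl .Y)) := by
    intro i
    rw [fderiv_coord_apply (hd.differentiable (by simp))]
    have : (fun q => tP σ w q (σ (.inr (.C i)))) = fun q : EuclideanSpace ℝ ι =>
        q (σ (.inr (.C i))) + (∑ i, w (.Q i)) * q (σ (.inl .Y)) := by
      funext q; simp [tP]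
    rw [this]
    apply fderiv_along
    · exact ((differentiable_coord _).add ((differentiable_coord _).const_mul _)) x
    · intro r
      simp only [PiLp.add_apply, PiLp.smul_apply, smul_eq_mul]
      ring
  have cZ : (fderiv ℝ (tP σ w) x v) (σ (.inr .Z)) = v (σ (.inr .Z)) +
      (w .P * v (σ (.inl .X)) + (∑ i, w (.Q i)) * v (σ (.inl .Y)) +
      ∑ k : Fin t, w (.A k) * v (σ (.inl (.E k)))) := by
    rw [fderiv_coord_apply (hd.differentiable (by simp))]
    have : (fun q => tP σ w q (σ (.inr .Z))) = fun q : EuclideanSpace ℝ ι =>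
        q (σ (.inr .Z)) + (w .P * q (σ (.inl .X)) + (∑ i, w (.Q i)) * q (σ (.inl .Y)) +
      ∑ k : Fin t, w (.A k) * q (σ (.inl (.E k)))) := by
      funext q; simp [tP]
    rw [this]
    apply fderiv_along
    · exact (((contDiff_coord (ι := ι) (σ (.inr .Z))).add
        (contDiff_lin σ w)).differentiable (by simp)) x
    · intro r
      simp only [PiLp.add_apply, PiLp.smul_apply, smul_eq_mul, mul_add, Finset.sum_add_distrib]
      have : ∀ k : Fin t, w (.A k) * (r * v (σ (.inl (.E k)))) =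
        r * (w (.A k) * v (σ (.inl (.E k)))) := fun k => by ring
      simp only [this, ← Finset.mul_sum]
      ring
  rw [mem_D]
  refine ⟨fun j => ?_, fun i => ?_, fun i => ?_, ?_⟩
  · rw [cU, cX, hv'.1 j]
    simp [tP]
  · rw [cB, cY, hv'.2.1 i]
    simp [tP]
  · rw [cC, cY, hv'.2.2.1 i, sq]
    ring
  · rw [cZ, cX, cY, hv'.2.2.2, sq]
    simp only [cE]
    have h1 : ∀ k : Fin t, (tP σ w x) (σ (.inl (.A k))) = x (σ (.inl (.A k))) + w (.A k) := by
      intro k
      simp [tP]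
    have h2 : (tP σ w x) (σ (.inl .P)) = x (σ (.inl .P)) + w .P := by simp [tP]
    simp only [h1, h2, add_mul, Finset.sum_add_distrib]
    ring

/-! ### vertical translations -/

/-- translations. -/
def tC (w : EuclideanSpace ℝ ι) (q : EuclideanSpace ℝ ι) : EuclideanSpace ℝ ι := q + w

lemma mem_tC (w : EuclideanSpace ℝ ι) (hX : w (σ (.inl .X)) = 0) (hY : w (σ (.inl .Y)) = 0)
    (hP : w (σ (.inl .P)) = 0) (hQ : ∀ i, w (σ (.inl (.Q i))) = 0)
    (hA : ∀ k, w (σ (.inl (.A k))) = 0) (x v : EuclideanSpace ℝ ι) (hv : v ∈ D σ x) :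
    fderiv ℝ (tC w) x v ∈ D σ (tC w x) := by
  have h1 : fderiv ℝ (tC w) x v = v := by
    unfold tC
    rw [fderiv_add_const]
    simp
  rw [h1]
  have hv' := (mem_D σ x v).mp hv
  rw [mem_D]
  have sq : sQ (f := f) σ (tC w x) = sQ σ x := by simp [tC, sQ, hQ]
  rw [sq]
  simp only [tC, PiLp.add_apply, hX, hY, hP, hA, add_zero]
  exact hv'

lemma good_tC (w : EuclideanSpace ℝ ι) (hX : w (σ (.inl .X)) = 0) (hY : w (σ (.inl .Y)) = 0)
    (hP : w (σ (.inl .P)) = 0) (hQ : ∀ i, w (σ (.inl (.Q i))) = 0)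
    (hA : ∀ k, w (σ (.inl (.A k))) = 0) :
    Good (D σ) ⟨tC w, tC (-w), fun q => by simp [tC], fun q => by simp [tC]⟩ :=
  ⟨contDiff_id.add contDiff_const, contDiff_id.add contDiff_const, mem_tC σ w hX hY hP hQ hA,
    mem_tC σ (-w) (by simp [hX]) (by simp [hY]) (by simp [hP]) (by simp [hQ]) (by simp [hA])⟩

/-- symmetries move the origin everywhere. -/
lemma exists_good (hme : 1 ≤ e → 1 ≤ m) (q : EuclideanSpace ℝ ι) :
    ∃ Φ : Equiv.Perm (EuclideanSpace ℝ ι), Good (D σ) Φ ∧ Φ 0 = q := by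
  have g1 := good_family σ (tX σ) (fun a => -a) (tX_inv σ) (tX_inv' σ)
    (contDiff_tX σ) (fun a x v hv => mem_tX σ hme a x v hv) (q (σ (.inl .X)))
  have g2 := good_family σ (tY σ) (fun a => -a) (tY_inv σ) (tY_inv' σ) (contDiff_tY σ)
    (fun a x v hv => mem_tY σ a x v hv) (q (σ (.inl .Y)))
  have g3 := good_family σ (tP σ) (fun a => -a) (tP_inv σ) (tP_inv' σ) (contDiff_tP σ)
    (fun a x v hv => mem_tP σ a x v hv) (hor σ q)
  have g := (g3.mul g2).mul g1
  set Ψ := (((⟨tP σ (hor σ q), _, _, _⟩ : Equiv.Perm (EuclideanSpace ℝ ι)) *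
    ⟨tY σ (q (σ (.inl .Y))), _, _, _⟩) * ⟨tX σ (q (σ (.inl .X))), _, _, _⟩) with hΨ
  have e0 : Ψ 0 = tP σ (hor σ q) (tY σ (q (σ (.inl .Y))) (tX σ (q (σ (.inl .X))) 0)) := rfl
  have g4 := good_tC σ (q - Ψ 0) (by rw [e0]; simp [tX, tY, tP]) (by rw [e0]; simp [tX, tY, tP])
    (by rw [e0]; simp [tX, tY, tP, hor]) (fun i => by rw [e0]; simp [tX, tY, tP, hor])
    (fun i => by rw [e0]; simp [tX, tY, tP, hor])
  refine ⟨_, g4.mul g, ?_⟩
  show tC (q - Ψ 0) (Ψ 0) = q
  simp [tC]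

theorem homogeneous_D (hme : 1 ≤ e → 1 ≤ m) : IsHomogeneous (D σ) := by
  intro p q
  obtain ⟨Φ, h1, h2⟩ := exists_good σ hme p
  obtain ⟨Ψ, h3, h4⟩ := exists_good σ hme q
  refine ⟨Ψ * Φ.symm, (h3.mul h1.symm).isSymmetry, ?_⟩
  show Ψ (Φ.symm p) = q
  rw [← h2, Equiv.symm_apply_apply, h4]

end Pool.Agent.H68.ST
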