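import Pool.Agent.H68.ST.Sing

set_option autoImplicit false
set_option linter.unusedSectionVars false

open MeasureTheory Set Filter
open scoped Manifold ContDiff Topology Pointwise

/-! # The second family: `dV = S dY + Y² dX`, `dB = S dX + Σ A_k dE_k` -/

namespace Pool.Agent.H68.ST.K

open Pool.Agent.H68.ST (fderiv_coord_apply lieBracket_coord hasFDerivAt_coord fderiv_along
  differentiable_coord contDiff_coord)

/-- names of the horizontal coordinates. -/
inductive Hor (t : ℕ) : Type
  | X : Hor t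
  | Y : Hor t
  | S : Hor t
  | A (k : Fin t) : Hor t
  | E (k : Fin t) : Hor t
  deriving DecidableEq, Fintype

/-- names of the vertical coordinates. -/
inductive Ver : Type
  | V : Ver
  | B : Ver
  deriving DecidableEq

instance : Fintype Ver := ⟨{.V, .B}, fun x => by cases x <;> simp⟩

/-- names of the coordinates. -/
abbrev Coord (t : ℕ) : Type := Hor t ⊕ Ver

/-- counting horizontal coordinates. -/
def horEquiv (t : ℕ) : Hor t ≃ Fin 3 ⊕ (Fin t ⊕ Fin t) where
  toFun c := match c with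
    | .X => .inl 0
    | .Y => .inl 1
    | .S => .inl 2
    | .A k => .inr (.inl k)
    | .E k => .inr (.inr k)
  invFun c := match c with
    | .inl 0 => .X
    | .inl 1 => .Y
    | .inl 2 => .S
    | .inr (.inl k) => .A k
    | .inr (.inr k) => .E k
  left_inv c := by cases c <;> rfl
  right_inv c := by
    rcases c with a | (i | i)
    · fin_cases a <;> rfl
    all_goals rfl

lemma card_hor (t : ℕ) : Fintype.card (Hor t) = 3 + (t + t) := by
  rw [Fintype.card_congr (horEquiv t)]
  simp

lemma card_ver : Fintype.card Ver = 2 := rfl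

variable {t : ℕ} {ι : Type} [Fintype ι] (σ : Coord t ≃ ι)

/-- the vector with given coordinates. -/
noncomputable def mk (φ : Coord t → ℝ) : EuclideanSpace ℝ ι :=
  WithLp.toLp 2 fun i => φ (σ.symm i)

@[simp] lemma mk_apply (φ : Coord t → ℝ) (c : Coord t) : mk σ φ (σ c) = φ c := by
  simp [mk]

lemma ext_coord {v w : EuclideanSpace ℝ ι} (h : ∀ c, v (σ c) = w (σ c)) : v = w := by
  ext i
  have := h (σ.symm i)
  simpa using this

/-- The distribution: `dV = S dY + Y² dX`, `dB = S dX + Σ A_k dE_k`. -/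
def D (p : EuclideanSpace ℝ ι) : Submodule ℝ (EuclideanSpace ℝ ι) where
  carrier := {v | v (σ (.inr .V)) = p (σ (.inl .S)) * v (σ (.inl .Y)) +
      p (σ (.inl .Y)) ^ 2 * v (σ (.inl .X)) ∧
    v (σ (.inr .B)) = p (σ (.inl .S)) * v (σ (.inl .X)) +
      ∑ k : Fin t, p (σ (.inl (.A k))) * v (σ (.inl (.E k)))}
  add_mem' := by
    rintro a b ⟨h1, h2⟩ ⟨h1', h2'⟩
    refine ⟨?_, ?_⟩
    · simp only [PiLp.add_apply, h1, h1']; ring
    · simp only [PiLp.add_apply, h2, h2', mul_add, Finset.sum_add_distrib]; ring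
  zero_mem' := by simp
  smul_mem' := by
    rintro c a ⟨h1, h2⟩
    refine ⟨?_, ?_⟩
    · simp only [PiLp.smul_apply, smul_eq_mul, h1]; ring
    · simp only [PiLp.smul_apply, smul_eq_mul, h2, mul_add, Finset.mul_sum]
      have : ∀ k : Fin t, p (σ (.inl (.A k))) * (c * a (σ (.inl (.E k)))) =
        c * (p (σ (.inl (.A k))) * a (σ (.inl (.E k)))) := fun k => by ring
      simp only [this]
      ring

lemma mem_D (p v : EuclideanSpace ℝ ι) : v ∈ D σ p ↔
    v (σ (.inr .V)) = p (σ (.inl .S)) * v (σ (.inl .Y)) +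
      p (σ (.inl .Y)) ^ 2 * v (σ (.inl .X)) ∧
    v (σ (.inr .B)) = p (σ (.inl .S)) * v (σ (.inl .X)) +
      ∑ k : Fin t, p (σ (.inl (.A k))) * v (σ (.inl (.E k))) := Iff.rfl

/-- coordinates of the horizontal lift. -/
def cL (w : Hor t → ℝ) (p : EuclideanSpace ℝ ι) : Coord t → ℝ
  | .inl h => w h
  | .inr .V => p (σ (.inl .S)) * w .Y + p (σ (.inl .Y)) ^ 2 * w .X
  | .inr .B => p (σ (.inl .S)) * w .X + ∑ k : Fin t, p (σ (.inl (.A k))) * w (.E k)

/-- the vector of `D p` with horizontal coordinates `w`. -/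
noncomputable def L (w : Hor t → ℝ) (p : EuclideanSpace ℝ ι) : EuclideanSpace ℝ ι :=
  mk σ (cL σ w p)

section
variable (w : Hor t → ℝ) (p : EuclideanSpace ℝ ι)
@[simp] lemma L_inl (h : Hor t) : L σ w p (σ (.inl h)) = w h := by simp [L, cL]
@[simp] lemma L_V : L σ w p (σ (.inr .V)) =
    p (σ (.inl .S)) * w .Y + p (σ (.inl .Y)) ^ 2 * w .X := by simp [L, cL]
@[simp] lemma L_B : L σ w p (σ (.inr .B)) =
    p (σ (.inl .S)) * w .X + ∑ k : Fin t, p (σ (.inl (.A k))) * w (.E k) := by simp [L, cL]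

lemma L_mem : L σ w p ∈ D σ p := by
  rw [mem_D]; simp
end

/-- horizontal coordinates. -/
def hor (v : EuclideanSpace ℝ ι) : Hor t → ℝ := fun h => v (σ (.inl h))

lemma eq_L {p v : EuclideanSpace ℝ ι} (hv : v ∈ D σ p) : v = L σ (hor σ v) p := by
  rw [mem_D] at hv
  obtain ⟨h1, h2⟩ := hv
  apply ext_coord σ
  rintro (h | h)
  · simp [hor]
  · cases h with
    | V => simp [h1, hor]
    | B => simp [h2, hor]

lemma L_smul (c : ℝ) (w : Hor t → ℝ) (p : EuclideanSpace ℝ ι) :
    L σ (c • w) p = c • L σ w p := by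
  have := Submodule.smul_mem (D σ p) c (L_mem σ w p)
  rw [eq_L σ this]
  congr 1
  funext h
  simp [hor]

lemma L_sum (p : EuclideanSpace ℝ ι) (w : Hor t → ℝ) :
    L σ w p = ∑ h, w h • L σ (Pi.single h 1) p := by
  have h1 : (∑ h, w h • L σ (Pi.single h 1) p) ∈ D σ p :=
    Submodule.sum_mem _ fun h _ => Submodule.smul_mem _ _ (L_mem σ _ p)
  rw [eq_L σ h1]
  congr 1
  funext h
  unfold hor
  have : (∑ h', w h' • L σ (Pi.single h' 1) p) (σ (.inl h)) =
    ∑ h', w h' * L σ (Pi.single h' 1) p (σ (.inl h)) := by simp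
  rw [this]
  simp [Pi.single_apply]

lemma contDiff_coord_n (n : WithTop ℕ∞) (i : ι) :
    ContDiff ℝ n (fun p : EuclideanSpace ℝ ι => p i) :=
  (EuclideanSpace.proj (𝕜 := ℝ) i : EuclideanSpace ℝ ι →L[ℝ] ℝ).contDiff

lemma contDiff_of_coord {H : Type*} [NormedAddCommGroup H] [NormedSpace ℝ H] {n : WithTop ℕ∞}
    {φ : H → EuclideanSpace ℝ ι} (h : ∀ c, ContDiff ℝ n (fun p => φ p (σ c))) :
    ContDiff ℝ n φ := by
  rw [contDiff_piLp]
  intro i
  have := h (σ.symm i)
  simpa using this

lemma contDiff_L (n : WithTop ℕ∞) (w : Hor t → ℝ) : ContDiff ℝ n (L σ w) := by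
  apply contDiff_of_coord σ
  rintro (h | h)
  · simpa using contDiff_const
  · cases h with
    | V =>
      have h1 := ((contDiff_coord_n n (σ (.inl .S))).mul (contDiff_const (c := w .Y))).add
        (((contDiff_coord_n n (σ (.inl .Y))).pow 2).mul (contDiff_const (c := w .X)))
      simpa using h1
    | B =>
      have h1 : ContDiff ℝ n (fun p : EuclideanSpace ℝ ι => p (σ (.inl .S)) * w .X +
        ∑ k : Fin t, p (σ (.inl (.A k))) * w (.E k)) :=
        ((contDiff_coord_n n _).mul contDiff_const).add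
          (ContDiff.sum fun i _ => (contDiff_coord_n n _).mul contDiff_const)
      simpa using h1

lemma frame_D {r : ℕ} (ε : Fin r ≃ Hor t) (x : EuclideanSpace ℝ ι) :
    LinearIndependent ℝ (fun i => L σ (Pi.single (ε i) 1) x) ∧
      Submodule.span ℝ (Set.range fun i => L σ (Pi.single (ε i) 1) x) = D σ x := by
  constructor
  · rw [Fintype.linearIndependent_iff]
    intro c hc i
    have h1 := congrArg (fun v : EuclideanSpace ℝ ι => v (σ (.inl (ε i)))) hc
    have h2 : (∑ j, c j • L σ (Pi.single (ε j) 1) x) (σ (.inl (ε i))) =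
      ∑ j, c j * L σ (Pi.single (ε j) 1) x (σ (.inl (ε i))) := by simp
    simp only [h2] at h1
    simpa [Pi.single_apply] using h1
  · apply le_antisymm
    · rw [Submodule.span_le]
      rintro _ ⟨i, rfl⟩
      exact L_mem σ _ x
    · intro v hv
      rw [eq_L σ hv, L_sum]
      refine Submodule.sum_mem _ fun h _ => Submodule.smul_mem _ _ ?_
      exact Submodule.subset_span ⟨ε.symm h, by simp⟩

theorem smooth_D {r : ℕ} (hr : Fintype.card (Hor t) = r) : IsSmoothDistribution r (D σ) := by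
  intro p
  let ε : Fin r ≃ Hor t := (Fintype.equivFinOfCardEq hr).symm
  exact ⟨univ, isOpen_univ, mem_univ p, fun i p => L σ (Pi.single (ε i) 1) p,
    fun i => (contDiff_L σ _ _).contDiffOn, fun x _ => frame_D σ ε x⟩

/-! ### brackets -/

lemma diff_L (w : Hor t → ℝ) : Differentiable ℝ (L σ w) :=
  (contDiff_L σ ∞ w).differentiable (by simp)

lemma fderiv_cV (v : Hor t → ℝ) (p w : EuclideanSpace ℝ ι) :
    fderiv ℝ (fun q : EuclideanSpace ℝ ι => q (σ (.inl .S)) * v .Y +
      q (σ (.inl .Y)) ^ 2 * v .X) p w =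
      w (σ (.inl .S)) * v .Y + 2 * p (σ (.inl .Y)) * w (σ (.inl .Y)) * v .X := by
  have h := (((hasFDerivAt_coord (σ (.inl .S)) p).mul_const (v .Y)).add
    (((hasFDerivAt_coord (σ (.inl .Y)) p).pow 2).mul_const (v .X)))
  have h2 := congrArg (fun Λ : EuclideanSpace ℝ ι →L[ℝ] ℝ => Λ w) h.fderiv
  refine h2.trans ?_
  simp
  ring

lemma fderiv_cB (v : Hor t → ℝ) (p w : EuclideanSpace ℝ ι) :
    fderiv ℝ (fun q : EuclideanSpace ℝ ι => q (σ (.inl .S)) * v .X +
      ∑ k : Fin t, q (σ (.inl (.A k))) * v (.E k)) p w =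
      w (σ (.inl .S)) * v .X + ∑ k : Fin t, w (σ (.inl (.A k))) * v (.E k) := by
  apply fderiv_along
  · have h1 : ContDiff ℝ ∞ (fun p : EuclideanSpace ℝ ι => p (σ (.inl .S)) * v .X +
        ∑ k : Fin t, p (σ (.inl (.A k))) * v (.E k)) :=
        ((contDiff_coord _).mul contDiff_const).add
          (ContDiff.sum fun i _ => (contDiff_coord _).mul contDiff_const)
    exact (h1.differentiable (by simp)) p
  · intro r
    simp only [PiLp.add_apply, PiLp.smul_apply, smul_eq_mul, add_mul, Finset.sum_add_distrib]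
    have : ∀ k : Fin t, r * w (σ (.inl (.A k))) * v (.E k) =
      r * (w (σ (.inl (.A k))) * v (.E k)) := fun k => by ring
    simp only [this, ← Finset.mul_sum]
    ring

/-- coordinates of the bracket of two lifts. -/
def cBr (v w : Hor t → ℝ) (p : EuclideanSpace ℝ ι) : Coord t → ℝ
  | .inl _ => 0
  | .inr .V => v .S * w .Y - w .S * v .Y + 2 * p (σ (.inl .Y)) * (v .Y * w .X - w .Y * v .X)
  | .inr .B => v .S * w .X - w .S * v .X +
      ∑ k : Fin t, (v (.A k) * w (.E k) - w (.A k) * v (.E k))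

lemma bracket_L (v w : Hor t → ℝ) (p : EuclideanSpace ℝ ι) :
    VectorField.lieBracket ℝ (L σ v) (L σ w) p = mk σ (cBr σ v w p) := by
  apply ext_coord σ
  intro c
  rw [lieBracket_coord (diff_L σ v) (diff_L σ w), mk_apply]
  rcases c with h | h
  · simp [cBr]
  · cases h with
    | V =>
      simp only [L_V, fderiv_cV, cBr, L_inl]
      ring
    | B =>
      simp only [L_B, fderiv_cB, cBr, L_inl, Finset.sum_sub_distrib]
      ring

/-- coordinate vectors. -/
noncomputable def ev (c : Coord t) : EuclideanSpace ℝ ι := mk σ (Pi.single c 1)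

lemma ev_apply (c c' : Coord t) : ev σ c (σ c') = if c' = c then 1 else 0 := by
  simp [ev, Pi.single_apply]

lemma sum_ev (v : EuclideanSpace ℝ ι) : v = ∑ c, v (σ c) • ev σ c := by
  apply ext_coord σ
  intro c'
  have : (∑ c, v (σ c) • ev σ c) (σ c') = ∑ c, v (σ c) * (ev σ c) (σ c') := by simp
  rw [this]
  simp [ev_apply]

/-- horizontal coordinate vectors. -/
noncomputable def hv (h : Hor t) : Hor t → ℝ := Pi.single h 1

lemma iter_L (w : Hor t → ℝ) : IteratedBracket (D σ) (L σ w) :=
  .sec _ (contDiff_L σ ∞ w) (L_mem σ w)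

theorem bracketGenerating_D : BracketGenerating (D σ) := by
  intro p
  rw [eq_top_iff]
  intro v _
  set T := Submodule.span ℝ {v | ∃ V, IteratedBracket (D σ) V ∧ V p = v} with hT
  have key : ∀ V, IteratedBracket (D σ) V → V p ∈ T := fun V hV =>
    Submodule.subset_span ⟨V, hV, rfl⟩
  have hB : ev σ (.inr .B) ∈ T := by
    have h := key _ (.bracket _ _ (iter_L σ (hv .S)) (iter_L σ (hv .X)))
    rw [bracket_L] at h
    have h2 : mk σ (cBr σ (hv .S) (hv .X) p) = ev σ (.inr .B) := by
      apply ext_coord σ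
      rintro (h | h)
      · simp [cBr, ev_apply]
      · cases h <;> simp [cBr, ev_apply, hv, Pi.single_apply]
    rwa [h2] at h
  have hV : ev σ (.inr .V) ∈ T := by
    have h := key _ (.bracket _ _ (iter_L σ (hv .S)) (iter_L σ (hv .Y)))
    rw [bracket_L] at h
    have h2 : mk σ (cBr σ (hv .S) (hv .Y) p) = ev σ (.inr .V) := by
      apply ext_coord σ
      rintro (h | h)
      · simp [cBr, ev_apply]
      · cases h <;> simp [cBr, ev_apply, hv, Pi.single_apply]
    rwa [h2] at h
  have hver : ∀ w : EuclideanSpace ℝ ι, (∀ h : Hor t, w (σ (.inl h)) = 0) → w ∈ T := by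
    intro w hw
    rw [sum_ev σ w, Fintype.sum_sum_type]
    refine Submodule.add_mem _ ?_ ?_
    · refine Submodule.sum_mem _ fun h _ => ?_
      rw [hw, zero_smul]
      exact Submodule.zero_mem _
    · refine Submodule.sum_mem _ fun h _ => Submodule.smul_mem _ _ ?_
      cases h
      · exact hV
      · exact hB
  have h1 : L σ (hor σ v) p ∈ T := key _ (iter_L σ _)
  have h2 : v - L σ (hor σ v) p ∈ T := hver _ fun h => by simp [hor]
  have := Submodule.add_mem _ h1 h2
  rwa [add_sub_cancel] at this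

theorem noCauchy_D : HasNoCauchyCharacteristics (D σ) := by
  intro p v hvD h
  set w := hor σ v with hw
  have hLv : L σ w p = v := (eq_L σ hvD).symm
  have key : ∀ w' : Hor t → ℝ, mk σ (cBr σ w w' p) ∈ D σ p := by
    intro w'
    rw [← bracket_L]
    exact h (L σ w) (L σ w') (contDiff_L σ ∞ w) (contDiff_L σ ∞ w') (L_mem σ w) (L_mem σ w') hLv
  have kB : ∀ w' : Hor t → ℝ, w .S * w' .X - w' .S * w .X +
      ∑ k : Fin t, (w (.A k) * w' (.E k) - w' (.A k) * w (.E k)) = 0 := by
    intro w'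
    have h1 := ((mem_D σ _ _).mp (key w')).2
    simpa [cBr] using h1
  have kV : ∀ w' : Hor t → ℝ, w .S * w' .Y - w' .S * w .Y +
      2 * p (σ (.inl .Y)) * (w .Y * w' .X - w' .Y * w .X) = 0 := by
    intro w'
    have h1 := ((mem_D σ _ _).mp (key w')).1
    simpa [cBr] using h1
  have kX : w .X = 0 := by
    have := kB (hv .S)
    simpa [hv, Pi.single_apply] using this
  have kS : w .S = 0 := by
    have := kB (hv .X)
    simpa [hv, Pi.single_apply] using this
  have kE : ∀ k, w (.E k) = 0 := by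
    intro k
    have := kB (hv (.A k))
    simpa [hv, Pi.single_apply] using this
  have kA : ∀ k, w (.A k) = 0 := by
    intro k
    have := kB (hv (.E k))
    simpa [hv, Pi.single_apply] using this
  have kY : w .Y = 0 := by
    have := kV (hv .S)
    simpa [hv, Pi.single_apply] using this
  have hw0 : w = 0 := by
    funext h
    cases h with
    | X => exact kX
    | Y => exact kY
    | S => exact kS
    | A k => exact kA k
    | E k => exact kE k
  rw [← hLv, hw0]
  apply ext_coord σ
  rintro (h | h)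
  · simp
  · cases h <;> simp

end Pool.Agent.H68.ST.K
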