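import Pool.Agent.H68.ST.KFam
import Pool.Agent.H68.ST.Dir

set_option autoImplicit false
set_option linter.unusedSectionVars false

open MeasureTheory Set Filter
open scoped Manifold ContDiff Topology Pointwise

namespace Pool.Agent.H68.ST.K

open Pool.Agent.H68.ST (fderiv_coord_apply lieBracket_coord hasFDerivAt_coord fderiv_along
  differentiable_coord contDiff_coord IsPrim IsSingularCurve contDiff_line deriv_line step_line
  path_add_coord path_comb_zero path_zero add_coord_of_zero abs_coord_le isPrim_path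
  abs_coord_sub_le path_coord_of_zero exists_velocity admissible_of_curve singular_of_fun
  deriv_coord deriv_affine contDiff_affine isPrim_sum)

variable {t : ℕ} {ι : Type} [Fintype ι] (σ : Coord t ≃ ι)

lemma IsPrim.bound2 {A a : ℝ → ℝ} (hA : IsPrim A a) (w w' : Lp (EuclideanSpace ℝ ι) 2 mu01)
    (K K' : ℝ) (hK : 0 ≤ K) (hK' : 0 ≤ K')
    (h : ∀ᵐ t ∂mu01, |a t| ≤ K * ‖w t‖ + K' * ‖w' t‖) :
    |A 1 - A 0| ≤ K * ‖w‖ + K' * ‖w'‖ := by
  rw [hA.ftc]
  have h1 : |∫ t, a t ∂mu01| ≤ ∫ t, (K * ‖w t‖ + K' * ‖w' t‖) ∂mu01 := by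
    rw [← Real.norm_eq_abs]
    apply norm_integral_le_of_norm_le (((integrable_Lp w).norm.const_mul K).add
      ((integrable_Lp w').norm.const_mul K'))
    filter_upwards [h] with t ht
    rwa [Real.norm_eq_abs]
  refine h1.trans ?_
  rw [integral_add ((integrable_Lp w).norm.const_mul K) ((integrable_Lp w').norm.const_mul K'),
    integral_const_mul, integral_const_mul]
  exact add_le_add (mul_le_mul_of_nonneg_left (integral_norm_le w) hK)
    (mul_le_mul_of_nonneg_left (integral_norm_le w') hK')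

/-- singular curves of the first kind. -/
lemma singular_one (q : EuclideanSpace ℝ ι) (u : Lp (EuclideanSpace ℝ ι) 2 mu01)
    (hu : u ∈ admissible (D σ) q) (hY : ∀ᵐ r ∂mu01, (u r) (σ (.inl .Y)) = 0)
    (hS : ∀ᵐ r ∂mu01, 1 * (u r) (σ (.inl .S)) -
      (2 * q (σ (.inl .Y))) * (u r) (σ (.inl .X)) = 0) :
    IsSingular (D σ) q u := by
  set y0 := q (σ (.inl .Y)) with hy0
  set s0 := q (σ (.inl .S)) with hs0
  set x0 := q (σ (.inl .X)) with hx0
  let Ψ : EuclideanSpace ℝ ι → ℝ := fun p => p (σ (.inr .V)) - y0 ^ 2 * p (σ (.inl .X)) -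
    2 * y0 * (p (σ (.inl .Y)) * p (σ (.inl .X)) - y0 * p (σ (.inl .X))) -
    (s0 - 2 * y0 * x0) * p (σ (.inl .Y))
  have hΨ : Differentiable ℝ Ψ := by
    unfold Ψ
    have hX := differentiable_coord (ι := ι) (σ (.inl .X))
    have hY' := differentiable_coord (ι := ι) (σ (.inl .Y))
    have hV := differentiable_coord (ι := ι) (σ (.inr .V))
    exact (((hV.sub (hX.const_mul (y0 ^ 2))).sub (((hY'.mul hX).sub (hX.const_mul y0)).const_mul
      (2 * y0))).sub (hY'.const_mul (s0 - 2 * y0 * x0)))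
  refine singular_of_fun (D σ) q u hu Ψ (fderiv ℝ Ψ (path q u 1)) ?_
    (hΨ _).hasFDerivAt ((1 + 2 * |y0|) + (‖u‖ + 1)) ?_
  · refine ⟨ev σ (.inr .V), ?_⟩
    rw [fderiv_along (c := 1) (hΨ _)]
    · exact one_ne_zero
    · intro r
      simp only [Ψ, PiLp.add_apply, PiLp.smul_apply, smul_eq_mul, ev_apply]
      simp
      ring
  · intro d hd hd1
    have hX := isPrim_path q (u + d) (σ (.inl .X))
    have hY' := isPrim_path q (u + d) (σ (.inl .Y))
    have hV := isPrim_path q (u + d) (σ (.inr .V))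
    have h1 := (((hV.sub (hX.const_mul (y0 ^ 2))).sub (((hY'.mul hX).sub (hX.const_mul y0)).const_mul
      (2 * y0))).sub (hY'.const_mul (s0 - 2 * y0 * x0)))
    have h2 : IsPrim (fun r => Ψ (path q (u + d) r))
        (fun r => ((path q (u + d) r) (σ (.inl .S)) - s0 -
            2 * y0 * ((path q (u + d) r) (σ (.inl .X)) - x0)) * (d r) (σ (.inl .Y)) +
          ((path q (u + d) r) (σ (.inl .Y)) - y0) ^ 2 *
          ((u + d : Lp _ 2 mu01) r) (σ (.inl .X))) := by
      refine h1.of_eq (fun r => rfl) ?_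
      have hd' : ∀ᵐ r ∂mu01, (u + d : Lp _ 2 mu01) r ∈ D σ (path q (u + d) r) := hd
      filter_upwards [hd', add_coord_of_zero u d _ hY] with r hr h3
      rw [mem_D] at hr
      rw [hr.1, h3]
      ring
    have hb1 : ∀ r, |(path q (u + d) r) (σ (.inl .S)) - s0 -
        2 * y0 * ((path q (u + d) r) (σ (.inl .X)) - x0)| ≤ (1 + 2 * |y0|) * ‖d‖ := by
      intro r
      have e1 : (path q (u + d) r) (σ (.inl .S)) - s0 -
          2 * y0 * ((path q (u + d) r) (σ (.inl .X)) - x0) =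
          ((path q d r) (σ (.inl .S)) - s0) - 2 * y0 * ((path q d r) (σ (.inl .X)) - x0) := by
        have h0 := path_comb_zero q u (σ (.inl .S)) (σ (.inl .X)) (2 * y0) 1 hS r
        rw [path_add_coord, path_add_coord]
        linarith
      rw [e1]
      have h4 := abs_coord_sub_le q d r (σ (.inl .S))
      have h5 := abs_coord_sub_le q d r (σ (.inl .X))
      refine (abs_sub _ _).trans ?_
      rw [abs_mul, abs_mul, abs_two]
      have h6 : 2 * |y0| * |(path q d r) (σ (.inl .X)) - x0| ≤ 2 * |y0| * ‖d‖ :=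
        mul_le_mul_of_nonneg_left h5 (by positivity)
      linarith
    have h3 := IsPrim.bound2 h2 d (u + d) ((1 + 2 * |y0|) * ‖d‖) (‖d‖ * ‖d‖) (by positivity)
      (by positivity) (by
      filter_upwards with r
      refine (abs_add_le _ _).trans ?_
      rw [abs_mul, abs_mul, abs_pow]
      have h4 := path_coord_of_zero q u d (σ (.inl .Y)) hY r
      have h5 : |(path q (u + d) r) (σ (.inl .Y)) - y0| ^ 2 ≤ ‖d‖ * ‖d‖ := by
        rw [← sq]
        exact pow_le_pow_left₀ (abs_nonneg _) h4 2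
      exact add_le_add (mul_le_mul (hb1 r) (abs_coord_le _ _) (abs_nonneg _) (by positivity))
        (mul_le_mul h5 (abs_coord_le _ _) (abs_nonneg _) (by positivity)))
    rw [path_zero] at h3
    have h6 : ‖u + d‖ ≤ ‖u‖ + 1 := (norm_add_le _ _).trans (by linarith)
    calc |Ψ (path q (u + d) 1) - Ψ q| ≤ (1 + 2 * |y0|) * ‖d‖ * ‖d‖ + ‖d‖ * ‖d‖ * ‖u + d‖ := h3
      _ ≤ (1 + 2 * |y0|) * ‖d‖ * ‖d‖ + ‖d‖ * ‖d‖ * (‖u‖ + 1) := by
          have := mul_le_mul_of_nonneg_left h6 (mul_nonneg (norm_nonneg d) (norm_nonneg d))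
          linarith
      _ = ((1 + 2 * |y0|) + (‖u‖ + 1)) * (‖d‖ * ‖d‖) := by ring

/-- singular curves of the second kind. -/
lemma singular_two (q : EuclideanSpace ℝ ι)
    (u : Lp (EuclideanSpace ℝ ι) 2 mu01)
    (hu : u ∈ admissible (D σ) q) (hX : ∀ᵐ r ∂mu01, (u r) (σ (.inl .X)) = 0)
    (hS : ∀ᵐ r ∂mu01, (u r) (σ (.inl .S)) = 0)
    (hA : ∀ k : Fin t, ∀ᵐ r ∂mu01, (u r) (σ (.inl (.A k))) = 0)
    (hE : ∀ k : Fin t, ∀ᵐ r ∂mu01, (u r) (σ (.inl (.E k))) = 0) : IsSingular (D σ) q u := by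
  set c := q (σ (.inl .S)) with hc
  let a : Fin t → ℝ := fun k => q (σ (.inl (.A k)))
  let Ψ : EuclideanSpace ℝ ι → ℝ := fun p => p (σ (.inr .B)) - c * p (σ (.inl .X)) -
    ∑ k : Fin t, a k * p (σ (.inl (.E k)))
  have hΨ : Differentiable ℝ Ψ := by
    unfold Ψ
    have h1 : Differentiable ℝ (fun p : EuclideanSpace ℝ ι => ∑ k : Fin t, a k * p (σ (.inl (.E k)))) :=
      Differentiable.fun_sum fun k _ => (differentiable_coord _).const_mul _
    exact ((differentiable_coord _).sub ((differentiable_coord _).const_mul _)).sub h1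
  refine singular_of_fun (D σ) q u hu Ψ (fderiv ℝ Ψ (path q u 1)) ?_
    (hΨ _).hasFDerivAt (1 + t) ?_
  · refine ⟨ev σ (.inr .B), ?_⟩
    rw [fderiv_along (c := 1) (hΨ _)]
    · exact one_ne_zero
    · intro r
      simp only [Ψ, PiLp.add_apply, PiLp.smul_apply, smul_eq_mul, ev_apply]
      simp
      ring
  · intro d hd hd1
    have hX' := isPrim_path q (u + d) (σ (.inl .X))
    have hB := isPrim_path q (u + d) (σ (.inr .B))
    have hE' : ∀ k, IsPrim _ _ := fun k : Fin t =>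
      (isPrim_path q (u + d) (σ (.inl (.E k)))).const_mul (a k)
    have hE'' := isPrim_sum Finset.univ _ _ (fun k _ => hE' k)
    have h1 := (hB.sub (hX'.const_mul c)).sub hE''
    have h2 : IsPrim (fun r => Ψ (path q (u + d) r))
        (fun r => ((path q (u + d) r) (σ (.inl .S)) - c) * (d r) (σ (.inl .X)) +
          ∑ k : Fin t, ((path q (u + d) r) (σ (.inl (.A k))) - a k) * (d r) (σ (.inl (.E k)))) := by
      refine h1.of_eq (fun r => rfl) ?_
      have hE3 : ∀ᵐ r ∂mu01, ∀ k : Fin t, ((u + d : Lp (EuclideanSpace ℝ ι) 2 mu01) r)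
          (σ (.inl (.E k))) = (d r) (σ (.inl (.E k))) :=
        (ae_all_iff).mpr fun k => add_coord_of_zero u d _ (hE k)
      have hd' : ∀ᵐ r ∂mu01, (u + d : Lp _ 2 mu01) r ∈ D σ (path q (u + d) r) := hd
      filter_upwards [hd', add_coord_of_zero u d _ hX, hE3] with r hr h3 h4
      rw [mem_D] at hr
      rw [hr.2]
      simp only [h3, h4, sub_mul, Finset.sum_sub_distrib]
      ring
    have h3 := h2.bound d ((1 + t) * ‖d‖) (by positivity) (by
      filter_upwards with r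
      have h4 : |((path q (u + d) r) (σ (.inl .S)) - c) * (d r) (σ (.inl .X))| ≤ ‖d‖ * ‖d r‖ := by
        rw [abs_mul]
        exact mul_le_mul (path_coord_of_zero q u d _ hS r) (abs_coord_le _ _) (abs_nonneg _)
          (norm_nonneg _)
      have h5 : |∑ k : Fin t, ((path q (u + d) r) (σ (.inl (.A k))) - a k) * (d r) (σ (.inl (.E k)))| ≤
          t * (‖d‖ * ‖d r‖) := by
        refine (Finset.abs_sum_le_sum_abs _ _).trans ?_
        have h6 : ∀ k ∈ (Finset.univ : Finset (Fin t)),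
            |((path q (u + d) r) (σ (.inl (.A k))) - a k) * (d r) (σ (.inl (.E k)))| ≤
            ‖d‖ * ‖d r‖ := by
          intro k _
          rw [abs_mul]
          exact mul_le_mul (path_coord_of_zero q u d _ (hA k) r) (abs_coord_le _ _) (abs_nonneg _)
            (norm_nonneg _)
        refine (Finset.sum_le_sum h6).trans ?_
        simp
      calc _ ≤ _ := abs_add_le _ _
        _ ≤ ‖d‖ * ‖d r‖ + t * (‖d‖ * ‖d r‖) := add_le_add h4 h5
        _ = (1 + t) * ‖d‖ * ‖d r‖ := by ring)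
    rw [path_zero] at h3
    calc |Ψ (path q (u + d) 1) - Ψ q| ≤ (1 + t) * ‖d‖ * ‖d‖ := h3
      _ = (1 + t) * (‖d‖ * ‖d‖) := by ring

lemma curve_one (γ : ℝ → EuclideanSpace ℝ ι) (hγ : ContDiff ℝ ∞ γ)
    (hD : ∀ r, deriv γ r ∈ D σ (γ r)) (hY : ∀ r, (deriv γ r) (σ (.inl .Y)) = 0)
    (hS : ∀ r, (deriv γ r) (σ (.inl .S)) = 2 * (γ 0) (σ (.inl .Y)) * (deriv γ r) (σ (.inl .X))) :
    IsSingularCurve (D σ) γ := by
  obtain ⟨u, hu, hp⟩ := exists_velocity γ hγ
  refine ⟨u, singular_one σ _ u (admissible_of_curve _ γ u hu hp fun r _ => hD r) ?_ ?_, hp⟩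
  · filter_upwards [hu] with r hr
    rw [hr, hY]
  · filter_upwards [hu] with r hr
    rw [hr, hS]
    ring

lemma curve_two (γ : ℝ → EuclideanSpace ℝ ι) (hγ : ContDiff ℝ ∞ γ)
    (hD : ∀ r, deriv γ r ∈ D σ (γ r)) (hX : ∀ r, (deriv γ r) (σ (.inl .X)) = 0)
    (hS : ∀ r, (deriv γ r) (σ (.inl .S)) = 0)
    (hA : ∀ (k : Fin t) r, (deriv γ r) (σ (.inl (.A k))) = 0)
    (hE : ∀ (k : Fin t) r, (deriv γ r) (σ (.inl (.E k))) = 0) : IsSingularCurve (D σ) γ := by
  obtain ⟨u, hu, hp⟩ := exists_velocity γ hγ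
  refine ⟨u, singular_two σ _ u (admissible_of_curve _ γ u hu hp fun r _ => hD r)
    ?_ ?_ ?_ ?_, hp⟩
  · filter_upwards [hu] with r hr
    rw [hr, hX]
  · filter_upwards [hu] with r hr
    rw [hr, hS]
  · intro k
    filter_upwards [hu] with r hr
    rw [hr, hA]
  · intro k
    filter_upwards [hu] with r hr
    rw [hr, hE]

/-! ### moves -/

/-- coordinates of a point. -/
def cpt (x y s : ℝ) (a w : Fin t → ℝ) (v b : ℝ) : Coord t → ℝ
  | .inl .X => x
  | .inl .Y => y
  | .inl .S => s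
  | .inl (.A k) => a k
  | .inl (.E k) => w k
  | .inr .V => v
  | .inr .B => b

/-- the point with given coordinates. -/
noncomputable def pt (x y s : ℝ) (a w : Fin t → ℝ) (v b : ℝ) : EuclideanSpace ℝ ι :=
  mk σ (cpt x y s a w v b)

section
variable (x y s : ℝ) (a w : Fin t → ℝ) (v b : ℝ)
@[simp] lemma pt_X : pt σ x y s a w v b (σ (.inl .X)) = x := by simp [pt, cpt]
@[simp] lemma pt_Y : pt σ x y s a w v b (σ (.inl .Y)) = y := by simp [pt, cpt]
@[simp] lemma pt_S : pt σ x y s a w v b (σ (.inl .S)) = s := by simp [pt, cpt]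
@[simp] lemma pt_A (k : Fin t) : pt σ x y s a w v b (σ (.inl (.A k))) = a k := by simp [pt, cpt]
@[simp] lemma pt_E (k : Fin t) : pt σ x y s a w v b (σ (.inl (.E k))) = w k := by simp [pt, cpt]
@[simp] lemma pt_V : pt σ x y s a w v b (σ (.inr .V)) = v := by simp [pt, cpt]
@[simp] lemma pt_B : pt σ x y s a w v b (σ (.inr .B)) = b := by simp [pt, cpt]
end

lemma pt_eta (q : EuclideanSpace ℝ ι) : pt σ (q (σ (.inl .X))) (q (σ (.inl .Y)))
    (q (σ (.inl .S))) (fun i => q (σ (.inl (.A i)))) (fun i => q (σ (.inl (.E i))))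
    (q (σ (.inr .V))) (q (σ (.inr .B))) = q := by
  apply ext_coord σ
  rintro (h | h) <;> cases h <;> simp

lemma pt_zero : pt σ 0 0 0 0 0 0 0 = (0 : EuclideanSpace ℝ ι) := by
  apply ext_coord σ
  rintro (h | h) <;> cases h <;> simp

lemma deriv_quad (a b c r : ℝ) : deriv (fun r => a + b * r + c * r ^ 2) r = b + 2 * c * r := by
  have h : HasDerivAt (fun r => a + b * r + c * r ^ 2) (b + c * (2 * r)) r := by
    have h1 := ((hasDerivAt_id r).const_mul b).const_add a
    have h2 := ((hasDerivAt_id r).pow 2).const_mul c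
    have h3 : HasDerivAt (fun r : ℝ => a + b * r + c * r ^ 2) _ r := h1.add h2
    convert h3 using 1
    simp
  rw [h.deriv]
  ring

lemma step_of_curve {Δ : EuclideanSpace ℝ ι → Submodule ℝ (EuclideanSpace ℝ ι)}
    {γ : ℝ → EuclideanSpace ℝ ι} (h : IsSingularCurve Δ γ) {p q : EuclideanSpace ℝ ι}
    (h0 : γ 0 = p) (h1 : γ 1 = q) : SingularStep Δ p q := by
  rw [← h0, ← h1]
  exact h.step

section
variable (x y s : ℝ) (a w : Fin t → ℝ) (v b : ℝ)

lemma stepX (r : ℝ) : SingularStep (D σ) (pt σ x y s a w v b)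
    (pt σ (x + r) y (s + 2 * y * r) a w (v + y ^ 2 * r) (b + s * r + y * r ^ 2)) := by
  let γ : ℝ → EuclideanSpace ℝ ι := fun τ => pt σ (x + r * τ) y (s + 2 * y * r * τ) a w
    (v + y ^ 2 * r * τ) (b + s * r * τ + y * r ^ 2 * τ ^ 2)
  have hγ : ContDiff ℝ ∞ γ := by
    apply contDiff_of_coord σ
    rintro (h | h)
    · cases h with
      | X => simpa [γ] using contDiff_affine x r
      | S => simpa [γ] using contDiff_affine s (2 * y * r)
      | _ => simpa [γ] using contDiff_const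
    · cases h with
      | V => simpa [γ] using contDiff_affine v (y ^ 2 * r)
      | B =>
        have h1 := (contDiff_affine b (s * r)).add
          ((contDiff_const (c := y * r ^ 2)).mul ((contDiff_id (𝕜 := ℝ) (n := ∞) (E := ℝ)).pow 2))
        simpa [γ] using h1
  have hd : Differentiable ℝ γ := hγ.differentiable (by simp)
  have dX : ∀ τ, (deriv γ τ) (σ (.inl .X)) = r := fun τ => by
    rw [deriv_coord hd]; simp only [γ, pt_X]; rw [deriv_affine]
  have dY : ∀ τ, (deriv γ τ) (σ (.inl .Y)) = 0 := fun τ => by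
    rw [deriv_coord hd]; simp only [γ, pt_Y]; rw [deriv_const]
  have dS : ∀ τ, (deriv γ τ) (σ (.inl .S)) = 2 * y * r := fun τ => by
    rw [deriv_coord hd]; simp only [γ, pt_S]; rw [deriv_affine]
  have dE : ∀ (k : Fin t) τ, (deriv γ τ) (σ (.inl (.E k))) = 0 := fun k τ => by
    rw [deriv_coord hd]; simp only [γ, pt_E]; rw [deriv_const]
  have dV : ∀ τ, (deriv γ τ) (σ (.inr .V)) = y ^ 2 * r := fun τ => by
    rw [deriv_coord hd]; simp only [γ, pt_V]; rw [deriv_affine]
  have dB : ∀ τ, (deriv γ τ) (σ (.inr .B)) = s * r + 2 * (y * r ^ 2) * τ := fun τ => by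
    rw [deriv_coord hd]; simp only [γ, pt_B]; rw [deriv_quad]
  refine step_of_curve (curve_one σ γ hγ (fun τ => ?_) dY (fun τ => ?_)) ?_ ?_
  · rw [mem_D, dV, dB, dX, dY]
    simp only [dE, γ, pt_S, pt_Y, pt_A]
    constructor
    · ring
    · simp
      ring
  · rw [dS, dX]
    simp [γ]
  · simp [γ]
  · simp [γ]

lemma stepY (r : ℝ) : SingularStep (D σ) (pt σ x y s a w v b)
    (pt σ x (y + r) s a w (v + s * r) b) := by
  let γ : ℝ → EuclideanSpace ℝ ι := fun τ => pt σ x (y + r * τ) s a w (v + s * r * τ) b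
  have hγ : ContDiff ℝ ∞ γ := by
    apply contDiff_of_coord σ
    rintro (h | h)
    · cases h with
      | Y => simpa [γ] using contDiff_affine y r
      | _ => simpa [γ] using contDiff_const
    · cases h with
      | V => simpa [γ] using contDiff_affine v (s * r)
      | B => simpa [γ] using contDiff_const
  have hd : Differentiable ℝ γ := hγ.differentiable (by simp)
  have dX : ∀ τ, (deriv γ τ) (σ (.inl .X)) = 0 := fun τ => by
    rw [deriv_coord hd]; simp only [γ, pt_X]; rw [deriv_const]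
  have dY : ∀ τ, (deriv γ τ) (σ (.inl .Y)) = r := fun τ => by
    rw [deriv_coord hd]; simp only [γ, pt_Y]; rw [deriv_affine]
  have dS : ∀ τ, (deriv γ τ) (σ (.inl .S)) = 0 := fun τ => by
    rw [deriv_coord hd]; simp only [γ, pt_S]; rw [deriv_const]
  have dA : ∀ (k : Fin t) τ, (deriv γ τ) (σ (.inl (.A k))) = 0 := fun k τ => by
    rw [deriv_coord hd]; simp only [γ, pt_A]; rw [deriv_const]
  have dE : ∀ (k : Fin t) τ, (deriv γ τ) (σ (.inl (.E k))) = 0 := fun k τ => by
    rw [deriv_coord hd]; simp only [γ, pt_E]; rw [deriv_const]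
  have dV : ∀ τ, (deriv γ τ) (σ (.inr .V)) = s * r := fun τ => by
    rw [deriv_coord hd]; simp only [γ, pt_V]; rw [deriv_affine]
  have dB : ∀ τ, (deriv γ τ) (σ (.inr .B)) = 0 := fun τ => by
    rw [deriv_coord hd]; simp only [γ, pt_B]; rw [deriv_const]
  refine step_of_curve (curve_two σ γ hγ (fun τ => ?_) dX dS dA dE) ?_ ?_
  · rw [mem_D, dV, dB, dX, dY]
    simp [dE, γ]
  · simp [γ]
  · simp [γ]

lemma stepA (r : Fin t → ℝ) : SingularStep (D σ) (pt σ x y s a w v b)
    (pt σ x y s (fun k => a k + r k) w v b) := by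
  let γ : ℝ → EuclideanSpace ℝ ι := fun τ => pt σ x y s (fun k => a k + r k * τ) w v b
  have hγ : ContDiff ℝ ∞ γ := by
    apply contDiff_of_coord σ
    rintro (h | h)
    · cases h with
      | A k => simpa [γ] using contDiff_affine (a k) (r k)
      | _ => simpa [γ] using contDiff_const
    · cases h <;> simpa [γ] using contDiff_const
  have hd : Differentiable ℝ γ := hγ.differentiable (by simp)
  have dX : ∀ τ, (deriv γ τ) (σ (.inl .X)) = 0 := fun τ => by
    rw [deriv_coord hd]; simp only [γ, pt_X]; rw [deriv_const]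
  have dY : ∀ τ, (deriv γ τ) (σ (.inl .Y)) = 0 := fun τ => by
    rw [deriv_coord hd]; simp only [γ, pt_Y]; rw [deriv_const]
  have dS : ∀ τ, (deriv γ τ) (σ (.inl .S)) = 0 := fun τ => by
    rw [deriv_coord hd]; simp only [γ, pt_S]; rw [deriv_const]
  have dE : ∀ (k : Fin t) τ, (deriv γ τ) (σ (.inl (.E k))) = 0 := fun k τ => by
    rw [deriv_coord hd]; simp only [γ, pt_E]; rw [deriv_const]
  have dV : ∀ τ, (deriv γ τ) (σ (.inr .V)) = 0 := fun τ => by
    rw [deriv_coord hd]; simp only [γ, pt_V]; rw [deriv_const]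
  have dB : ∀ τ, (deriv γ τ) (σ (.inr .B)) = 0 := fun τ => by
    rw [deriv_coord hd]; simp only [γ, pt_B]; rw [deriv_const]
  refine step_of_curve (curve_one σ γ hγ (fun τ => ?_) dY (fun τ => ?_)) ?_ ?_
  · rw [mem_D, dV, dB, dX, dY]
    simp [dE]
  · rw [dS, dX]
    simp
  · simp [γ]
  · simp [γ]

lemma stepE (r : Fin t → ℝ) : SingularStep (D σ) (pt σ x y s a w v b)
    (pt σ x y s a (fun k => w k + r k) v (b + ∑ k, a k * r k)) := by
  let γ : ℝ → EuclideanSpace ℝ ι := fun τ => pt σ x y s a (fun k => w k + r k * τ) v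
    (b + (∑ k, a k * r k) * τ)
  have hγ : ContDiff ℝ ∞ γ := by
    apply contDiff_of_coord σ
    rintro (h | h)
    · cases h with
      | E k => simpa [γ] using contDiff_affine (w k) (r k)
      | _ => simpa [γ] using contDiff_const
    · cases h with
      | V => simpa [γ] using contDiff_const
      | B => simpa [γ] using contDiff_affine b (∑ k, a k * r k)
  have hd : Differentiable ℝ γ := hγ.differentiable (by simp)
  have dX : ∀ τ, (deriv γ τ) (σ (.inl .X)) = 0 := fun τ => by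
    rw [deriv_coord hd]; simp only [γ, pt_X]; rw [deriv_const]
  have dY : ∀ τ, (deriv γ τ) (σ (.inl .Y)) = 0 := fun τ => by
    rw [deriv_coord hd]; simp only [γ, pt_Y]; rw [deriv_const]
  have dS : ∀ τ, (deriv γ τ) (σ (.inl .S)) = 0 := fun τ => by
    rw [deriv_coord hd]; simp only [γ, pt_S]; rw [deriv_const]
  have dE : ∀ (k : Fin t) τ, (deriv γ τ) (σ (.inl (.E k))) = r k := fun k τ => by
    rw [deriv_coord hd]; simp only [γ, pt_E]; rw [deriv_affine]
  have dV : ∀ τ, (deriv γ τ) (σ (.inr .V)) = 0 := fun τ => by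
    rw [deriv_coord hd]; simp only [γ, pt_V]; rw [deriv_const]
  have dB : ∀ τ, (deriv γ τ) (σ (.inr .B)) = ∑ k, a k * r k := fun τ => by
    rw [deriv_coord hd]; simp only [γ, pt_B]; rw [deriv_affine]
  refine step_of_curve (curve_one σ γ hγ (fun τ => ?_) dY (fun τ => ?_)) ?_ ?_
  · rw [mem_D, dV, dB, dX, dY]
    simp [dE, γ]
  · rw [dS, dX]
    simp
  · simp [γ]
  · simp [γ]

end

/-- joined by singular curves. -/
abbrev Rl : EuclideanSpace ℝ ι → EuclideanSpace ℝ ι → Prop :=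
  Relation.ReflTransGen (SingularStep (D σ))

lemma Rl.of_eq {p q : EuclideanSpace ℝ ι} (h : p = q) : Rl σ p q := by
  rw [h]

/-- translations which join all points. -/
def Tr (c : ℝ × ℝ × ℝ) : Prop :=
  ∀ s v b, Rl σ (pt σ 0 0 s 0 0 v b) (pt σ 0 0 (s + c.1) 0 0 (v + c.2.1) (b + c.2.2))

lemma Tr.add {c c' : ℝ × ℝ × ℝ} (h : Tr σ c) (h' : Tr σ c') : Tr σ (c + c') := by
  intro s v b
  refine (h s v b).trans ?_
  have := h' (s + c.1) (v + c.2.1) (b + c.2.2)
  simpa [add_assoc] using this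

lemma tr_loop (r y : ℝ) : Tr σ (-2 * r * y, r * y ^ 2, r ^ 2 * y) := by
  intro s v b
  refine (Relation.ReflTransGen.single (stepX σ _ _ _ _ _ _ _ r)).trans ?_
  refine (Relation.ReflTransGen.single (stepY σ _ _ _ _ _ _ _ y)).trans ?_
  refine (Relation.ReflTransGen.single (stepX σ _ _ _ _ _ _ _ (-r))).trans ?_
  refine (Relation.ReflTransGen.single (stepY σ _ _ _ _ _ _ _ (-y))).trans ?_
  refine Rl.of_eq σ ?_
  apply ext_coord σ
  rintro (h | h) <;> cases h <;> simp <;> ring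

lemma tr_S (c : ℝ) : Tr σ (c, 0, 0) := by
  have h := (tr_loop σ (-c / 4) 1).add σ (tr_loop σ (c / 4) (-1))
  have e : ((-2 * (-c / 4) * 1, (-c / 4) * 1 ^ 2, (-c / 4) ^ 2 * 1) : ℝ × ℝ × ℝ) +
      (-2 * (c / 4) * (-1), (c / 4) * (-1) ^ 2, (c / 4) ^ 2 * (-1)) = (c, 0, 0) := by
    refine Prod.ext ?_ (Prod.ext ?_ ?_)
    · simp; ring
    · simp; ring
    · simp; ring
  rwa [e] at h

lemma tr_V (c : ℝ) : Tr σ (0, c, 0) := by
  have h := (tr_loop σ (c / 2) 1).add σ (tr_loop σ (c / 2) (-1))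
  have e : ((-2 * (c / 2) * 1, (c / 2) * 1 ^ 2, (c / 2) ^ 2 * 1) : ℝ × ℝ × ℝ) +
      (-2 * (c / 2) * (-1), (c / 2) * (-1) ^ 2, (c / 2) ^ 2 * (-1)) = (0, c, 0) := by
    refine Prod.ext ?_ (Prod.ext ?_ ?_)
    · simp
    · simp
    · simp
  rwa [e] at h

lemma tr_B (c : ℝ) : Tr σ (0, 0, c) := by
  have h := (tr_loop σ 1 (c / 2)).add σ (tr_loop σ (-1) (c / 2))
  have e : ((-2 * 1 * (c / 2), 1 * (c / 2) ^ 2, 1 ^ 2 * (c / 2)) : ℝ × ℝ × ℝ) +
      (-2 * (-1) * (c / 2), (-1) * (c / 2) ^ 2, (-1) ^ 2 * (c / 2)) = (0, 0, c) := by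
    refine Prod.ext ?_ (Prod.ext ?_ ?_)
    · simp
    · simp
    · simp
  rwa [e] at h

lemma tr_all (c : ℝ × ℝ × ℝ) : Tr σ c := by
  have h := ((tr_S σ c.1).add σ (tr_V σ c.2.1)).add σ (tr_B σ c.2.2)
  have e : ((c.1, 0, 0) : ℝ × ℝ × ℝ) + (0, c.2.1, 0) + (0, 0, c.2.2) = c := by
    refine Prod.ext ?_ (Prod.ext ?_ ?_) <;> simp
  rwa [e] at h

/-- every point is joined to the origin. -/
lemma rl_to (p : EuclideanSpace ℝ ι) : Rl σ p 0 := by
  rw [← pt_eta σ p]
  refine (Relation.ReflTransGen.single (stepA σ _ _ _ _ _ _ _ (fun i => -p (σ (.inl (.A i)))))).trans ?_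
  refine (Relation.ReflTransGen.single (stepE σ _ _ _ _ _ _ _ (fun i => -p (σ (.inl (.E i)))))).trans ?_
  refine (Relation.ReflTransGen.single (stepY σ _ _ _ _ _ _ _ (-p (σ (.inl .Y))))).trans ?_
  refine (Relation.ReflTransGen.single (stepX σ _ _ _ _ _ _ _ (-p (σ (.inl .X))))).trans ?_
  simp only [add_neg_cancel]
  rw [← pt_zero σ]
  have h : ∀ s v b : ℝ, Rl σ (pt σ 0 0 s 0 0 v b) (pt σ 0 0 0 0 0 0 0) := by
    intro s v b
    have := tr_all σ (-s, -v, -b) s v b
    simpa using this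
  exact h _ _ _

/-- the origin is joined to every point. -/
lemma rl_from (p : EuclideanSpace ℝ ι) : Rl σ 0 p := by
  have h0 : ∀ s v b : ℝ, Rl σ (0 : EuclideanSpace ℝ ι) (pt σ 0 0 s 0 0 v b) := by
    intro s v b
    rw [← pt_zero σ]
    have := tr_all σ (s, v, b) 0 0 0
    simpa using this
  set x := p (σ (.inl .X)) with hx
  set y := p (σ (.inl .Y)) with hy
  set s := p (σ (.inl .S)) with hs
  set v := p (σ (.inr .V)) with hv
  set b := p (σ (.inr .B)) with hb
  refine (h0 s (v - s * y) (b - s * x)).trans ?_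
  refine (Relation.ReflTransGen.single (stepX σ _ _ _ _ _ _ _ x)).trans ?_
  refine (Relation.ReflTransGen.single (stepY σ _ _ _ _ _ _ _ y)).trans ?_
  refine (Relation.ReflTransGen.single (stepE σ _ _ _ _ _ _ _ (fun i => p (σ (.inl (.E i)))))).trans ?_
  refine (Relation.ReflTransGen.single (stepA σ _ _ _ _ _ _ _ (fun i => p (σ (.inl (.A i)))))).trans ?_
  refine Rl.of_eq σ ?_
  apply ext_coord σ
  rintro (h | h) <;> cases h <;> simp [hx, hy, hs, hv, hb]

theorem singularTransitive_D : SingularTransitive (D σ) := fun p q =>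
  (rl_to σ p).trans (rl_from σ q)

end Pool.Agent.H68.ST.K
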