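import Pool.Agent.H68.ST.Base

set_option autoImplicit false

open MeasureTheory Set Filter
open scoped Manifold ContDiff Topology Pointwise

namespace Pool.Agent.H68.ST

/-- `A` is absolutely continuous on `[0,1]` with derivative `a` almost everywhere. -/
def IsPrim (A a : ℝ → ℝ) : Prop :=
  AbsolutelyContinuousOnInterval A 0 1 ∧ ∀ᵐ t ∂mu01, HasDerivAt A (a t) t

lemma isPrim_const (c : ℝ) : IsPrim (fun _ => c) (fun _ => 0) := by
  refine ⟨ContDiffOn.absolutelyContinuousOnInterval (contDiffOn_const), ?_⟩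
  exact Eventually.of_forall fun t => hasDerivAt_const t c

lemma IsPrim.add {A B a b : ℝ → ℝ} (hA : IsPrim A a) (hB : IsPrim B b) :
    IsPrim (fun t => A t + B t) (fun t => a t + b t) := by
  refine ⟨hA.1.add hB.1, ?_⟩
  filter_upwards [hA.2, hB.2] with t h1 h2
  exact h1.add h2

lemma IsPrim.sub {A B a b : ℝ → ℝ} (hA : IsPrim A a) (hB : IsPrim B b) :
    IsPrim (fun t => A t - B t) (fun t => a t - b t) := by
  refine ⟨hA.1.sub hB.1, ?_⟩
  filter_upwards [hA.2, hB.2] with t h1 h2
  exact h1.sub h2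

lemma IsPrim.mul {A B a b : ℝ → ℝ} (hA : IsPrim A a) (hB : IsPrim B b) :
    IsPrim (fun t => A t * B t) (fun t => a t * B t + A t * b t) := by
  refine ⟨hA.1.mul hB.1, ?_⟩
  filter_upwards [hA.2, hB.2] with t h1 h2
  exact h1.mul h2

lemma IsPrim.const_mul {A a : ℝ → ℝ} (c : ℝ) (hA : IsPrim A a) :
    IsPrim (fun t => c * A t) (fun t => c * a t) := by
  refine ⟨hA.1.const_mul c, ?_⟩
  filter_upwards [hA.2] with t h1
  exact h1.const_mul c

lemma IsPrim.ftc {A a : ℝ → ℝ} (hA : IsPrim A a) : A 1 - A 0 = ∫ t, a t ∂mu01 := by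
  rw [← hA.1.integral_deriv_eq_sub, intervalIntegral.integral_of_le zero_le_one,
    ← integral_Icc_eq_integral_Ioc]
  apply integral_congr_ae
  filter_upwards [hA.2] with t ht
  exact ht.deriv

variable {ι : Type} [Fintype ι]

lemma path_coord (q : EuclideanSpace ℝ ι) (u : Lp (EuclideanSpace ℝ ι) 2 mu01) (t : ℝ) (i : ι) :
    (path q u t) i = q i + ∫ s in Icc (0:ℝ) t, (u s) i ∂mu01 := by
  unfold path
  rw [PiLp.add_apply]
  congr 1
  have := (EuclideanSpace.proj (𝕜 := ℝ) i : EuclideanSpace ℝ ι →L[ℝ] ℝ).integral_comp_comm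
    ((integrable_Lp u).restrict (s := Icc (0:ℝ) t))
  simpa using this.symm

lemma integrable_coord (u : Lp (EuclideanSpace ℝ ι) 2 mu01) (i : ι) :
    Integrable (fun s => (u s) i) mu01 :=
  (EuclideanSpace.proj (𝕜 := ℝ) i : EuclideanSpace ℝ ι →L[ℝ] ℝ).integrable_comp (integrable_Lp u)

lemma isPrim_path (q : EuclideanSpace ℝ ι) (u : Lp (EuclideanSpace ℝ ι) 2 mu01) (i : ι) :
    IsPrim (fun t => (path q u t) i) (fun t => (u t) i) := by
  let g : ℝ → ℝ := (Icc (0:ℝ) 1).indicator fun s => (u s) i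
  have hg : Integrable g volume := by
    rw [integrable_indicator_iff measurableSet_Icc]
    exact integrable_coord u i
  have hfun : (fun t => (path q u t) i) = fun t => q i + ∫ s in (0:ℝ)..t, g s := by
    funext t
    rw [path_coord]
    congr 1
    rcases le_or_gt 0 t with ht | ht
    · rw [intervalIntegral.integral_of_le ht, ← integral_Icc_eq_integral_Ioc]
      unfold mu01
      rw [Measure.restrict_restrict measurableSet_Icc]
      rw [setIntegral_indicator measurableSet_Icc]
      rfl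
    · rw [Icc_eq_empty (not_le.mpr ht)]
      rw [intervalIntegral.integral_of_ge ht.le]
      have h0 : ∫ s in Ioc t 0, g s = 0 := by
        rw [← integral_Ico_eq_integral_Ioc]
        apply setIntegral_eq_zero_of_forall_eq_zero
        intro s hs
        have : s ∉ Icc (0:ℝ) 1 := fun h => absurd hs.2 (not_lt.mpr h.1)
        exact indicator_of_notMem this _
      rw [h0]
      simp
  constructor
  · rw [hfun]
    have h1 : AbsolutelyContinuousOnInterval (fun t => ∫ s in (0:ℝ)..t, g s) 0 1 :=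
      (hg.intervalIntegrable).absolutelyContinuousOnInterval_intervalIntegral (by simp)
    exact (isPrim_const (q i)).1.add h1
  · rw [hfun]
    have h2 := LocallyIntegrable.ae_hasDerivAt_integral hg.locallyIntegrable
    unfold mu01
    have h3 : ∀ᵐ t ∂(volume.restrict (Icc (0:ℝ) 1)), t ∈ Icc (0:ℝ) 1 :=
      ae_restrict_mem measurableSet_Icc
    filter_upwards [ae_restrict_of_ae h2, h3] with t h4 h5
    have h6 := (h4 0).const_add (q i)
    have h7 : g t = (u t) i := indicator_of_mem h5 _
    rw [h7] at h6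
    exact h6

/-- difference of two paths. -/
lemma abs_coord_sub_le (q : EuclideanSpace ℝ ι) (d : Lp (EuclideanSpace ℝ ι) 2 mu01) (t : ℝ) (i : ι) :
    |(path q d t) i - q i| ≤ ‖d‖ := by
  rw [path, PiLp.add_apply, add_sub_cancel_left, ← Real.norm_eq_abs]
  exact (PiLp.norm_apply_le _ i).trans (norm_setIntegral_le d t)

lemma integral_abs_coord_le (u : Lp (EuclideanSpace ℝ ι) 2 mu01) (i : ι) :
    ∫ s, |(u s) i| ∂mu01 ≤ ‖u‖ := by
  refine le_trans ?_ (integral_norm_le u)
  apply integral_mono (integrable_coord u i).abs (integrable_Lp u).norm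
  intro s
  change |(u s) i| ≤ ‖u s‖
  rw [← Real.norm_eq_abs]
  exact PiLp.norm_apply_le _ i

/-- a constant coordinate. -/
lemma path_coord_of_zero (q : EuclideanSpace ℝ ι) (u d : Lp (EuclideanSpace ℝ ι) 2 mu01) (i : ι)
    (h : ∀ᵐ t ∂mu01, (u t) i = 0) (t : ℝ) :
    |(path q (u + d) t) i - q i| ≤ ‖d‖ := by
  have : (path q (u + d) t) i = (path q d t) i := by
    rw [path_coord, path_coord]
    congr 1
    apply integral_congr_ae
    apply ae_restrict_of_ae
    filter_upwards [h, Lp.coeFn_add u d] with s h1 h2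
    rw [h2]
    simp [h1]
  rw [this]
  exact abs_coord_sub_le q d t i

end Pool.Agent.H68.ST
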