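import Pool.Agent.H68.ST.Brk

set_option autoImplicit false
set_option linter.unusedSectionVars false

open MeasureTheory Set Filter
open scoped Manifold ContDiff Topology Pointwise

namespace Pool.Agent.H68.ST

lemma IsPrim.of_eq {A B a b : ℝ → ℝ} (hA : IsPrim A a) (h1 : ∀ t, B t = A t)
    (h2 : ∀ᵐ t ∂mu01, b t = a t) : IsPrim B b := by
  have : B = A := funext h1
  subst this
  refine ⟨hA.1, ?_⟩
  filter_upwards [hA.2, h2] with t h3 h4
  rw [h4]
  exact h3

lemma isPrim_sum {κ : Type*} (s : Finset κ) (A a : κ → ℝ → ℝ) (h : ∀ k ∈ s, IsPrim (A k) (a k)) :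
    IsPrim (fun t => ∑ k ∈ s, A k t) (fun t => ∑ k ∈ s, a k t) := by
  classical
  induction s using Finset.induction_on with
  | empty => simpa using isPrim_const 0
  | insert k s hk ih =>
    have h1 := (h k (Finset.mem_insert_self k s)).add (ih fun j hj => h j (Finset.mem_insert_of_mem hj))
    refine h1.of_eq (fun t => Finset.sum_insert hk) (Eventually.of_forall fun t => Finset.sum_insert hk)

variable {ι : Type} [Fintype ι]

/-- bound for the variation of a primitive. -/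
lemma IsPrim.bound {A a : ℝ → ℝ} (hA : IsPrim A a) (w : Lp (EuclideanSpace ℝ ι) 2 mu01)
    (K : ℝ) (hK : 0 ≤ K) (h : ∀ᵐ t ∂mu01, |a t| ≤ K * ‖w t‖) : |A 1 - A 0| ≤ K * ‖w‖ := by
  rw [hA.ftc]
  have h1 : |∫ t, a t ∂mu01| ≤ ∫ t, K * ‖w t‖ ∂mu01 := by
    rw [← Real.norm_eq_abs]
    apply norm_integral_le_of_norm_le ((integrable_Lp w).norm.const_mul K)
    filter_upwards [h] with t ht
    rwa [Real.norm_eq_abs]
  refine h1.trans ?_
  rw [integral_const_mul]
  exact mul_le_mul_of_nonneg_left (integral_norm_le w) hK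

lemma abs_coord_le (v : EuclideanSpace ℝ ι) (i : ι) : |v i| ≤ ‖v‖ := by
  rw [← Real.norm_eq_abs]
  exact PiLp.norm_apply_le _ i

lemma path_add_coord (q : EuclideanSpace ℝ ι) (u d : Lp (EuclideanSpace ℝ ι) 2 mu01) (t : ℝ)
    (i : ι) : (path q (u + d) t) i = (path q u t) i + ((path q d t) i - q i) := by
  rw [path_add]
  unfold path
  simp only [PiLp.add_apply]
  ring

lemma path_comb_zero (q : EuclideanSpace ℝ ι) (u : Lp (EuclideanSpace ℝ ι) 2 mu01) (i j : ι)
    (α β : ℝ) (h : ∀ᵐ t ∂mu01, β * (u t) i - α * (u t) j = 0) (t : ℝ) :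
    β * ((path q u t) i - q i) - α * ((path q u t) j - q j) = 0 := by
  rw [path_coord, path_coord]
  have h1 : ∫ s in Icc (0:ℝ) t, (β * (u s) i - α * (u s) j) ∂mu01 = 0 := by
    rw [integral_congr_ae (g := fun _ => (0:ℝ)) (ae_restrict_of_ae h)]
    simp
  rw [integral_sub ((integrable_coord u i).restrict.const_mul β)
    ((integrable_coord u j).restrict.const_mul α), integral_const_mul, integral_const_mul] at h1
  linarith

lemma path_zero (q : EuclideanSpace ℝ ι) (u : Lp (EuclideanSpace ℝ ι) 2 mu01) :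
    path q u 0 = q := by
  apply PiLp.ext
  intro i
  rw [path_coord]
  have h5 : mu01.restrict (Icc (0:ℝ) 0) = 0 := by
    rw [Measure.restrict_eq_zero, Icc_self]
    unfold mu01
    exact measure_singleton 0
  rw [h5]
  simp

/-- if a coordinate of `u` vanishes, it is the same for `u + d` and `d`. -/
lemma add_coord_of_zero (u d : Lp (EuclideanSpace ℝ ι) 2 mu01) (i : ι)
    (h : ∀ᵐ t ∂mu01, (u t) i = 0) :
    ∀ᵐ t ∂mu01, ((u + d : Lp (EuclideanSpace ℝ ι) 2 mu01) t) i = (d t) i := by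
  filter_upwards [h, Lp.coeFn_add u d] with t h3 h4
  rw [h4]
  simp [h3]

variable {m e f g t : ℕ} (σ : Coord m e f g t ≃ ι)

/-- singular curves of the first kind. -/
lemma singular_one (hm : 2 ≤ m) (q : EuclideanSpace ℝ ι) (u : Lp (EuclideanSpace ℝ ι) 2 mu01)
    (hu : u ∈ admissible (D σ) q) (hY : ∀ᵐ r ∂mu01, (u r) (σ (.inl .Y)) = 0) :
    IsSingular (D σ) q u := by
  set j0 : Fin m := ⟨0, by omega⟩ with hj0
  set j1 : Fin m := ⟨1, by omega⟩ with hj1
  have hj01 : j0 ≠ j1 := by simp [hj0, hj1]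
  set y0 := q (σ (.inl .Y)) with hy0
  let Ψ : EuclideanSpace ℝ ι → ℝ := fun p =>
    p (σ (.inr (.U j1))) - 2 * y0 * p (σ (.inr (.U j0))) + y0 ^ 2 * p (σ (.inl .X))
  have hΨ : Differentiable ℝ Ψ := by
    unfold Ψ
    exact (((differentiable_coord _).sub ((differentiable_coord _).const_mul _)).add
      ((differentiable_coord _).const_mul _))
  refine singular_of_fun (D σ) q u hu Ψ (fderiv ℝ Ψ (path q u 1)) ?_
    (hΨ _).hasFDerivAt (‖u‖ + 1) ?_
  · refine ⟨ev σ (.inr (.U j1)), ?_⟩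
    rw [fderiv_along (c := 1) (hΨ _)]
    · exact one_ne_zero
    · intro t
      simp only [Ψ, PiLp.add_apply, PiLp.smul_apply, smul_eq_mul, ev_apply]
      simp [hj01]
      ring
  · intro d hd hd1
    have hX := isPrim_path q (u + d) (σ (.inl .X))
    have hU0 := isPrim_path q (u + d) (σ (.inr (.U j0)))
    have hU1 := isPrim_path q (u + d) (σ (.inr (.U j1)))
    have h1 := (hU1.sub (hU0.const_mul (2 * y0))).add (hX.const_mul (y0 ^ 2))
    have h2 : IsPrim (fun t => Ψ (path q (u + d) t))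
        (fun t => ((path q (u + d) t) (σ (.inl .Y)) - y0) ^ 2 *
          ((u + d : Lp _ 2 mu01) t) (σ (.inl .X))) := by
      refine h1.of_eq (fun t => rfl) ?_
      have hd' : ∀ᵐ t ∂mu01, (u + d : Lp _ 2 mu01) t ∈ D σ (path q (u + d) t) := hd
      filter_upwards [hd'] with t ht
      rw [mem_D] at ht
      rw [ht.1 j0, ht.1 j1]
      simp only [hj0, hj1]
      ring
    have h3 := h2.bound (u + d) (‖d‖ * ‖d‖) (by positivity) (by
      filter_upwards with t
      rw [abs_mul, abs_pow]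
      have h4 := path_coord_of_zero q u d (σ (.inl .Y)) hY t
      rw [← sq]
      exact mul_le_mul (pow_le_pow_left₀ (abs_nonneg _) h4 2) (abs_coord_le _ _) (abs_nonneg _)
        (by positivity))
    rw [path_zero] at h3
    have h6 : ‖u + d‖ ≤ ‖u‖ + 1 := (norm_add_le _ _).trans (by linarith)
    calc |Ψ (path q (u + d) 1) - Ψ q| ≤ ‖d‖ * ‖d‖ * ‖u + d‖ := h3
      _ ≤ ‖d‖ * ‖d‖ * (‖u‖ + 1) := mul_le_mul_of_nonneg_left h6 (by positivity)
      _ = (‖u‖ + 1) * (‖d‖ * ‖d‖) := by ring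

/-- singular curves of the first kind, for `C`. -/
lemma singular_one' (i0 : Fin g) (q : EuclideanSpace ℝ ι) (u : Lp (EuclideanSpace ℝ ι) 2 mu01)
    (hu : u ∈ admissible (D σ) q) (hY : ∀ᵐ r ∂mu01, (u r) (σ (.inl .Y)) = 0)
    (hQ : ∀ i : Fin f, ∀ᵐ r ∂mu01, (u r) (σ (.inl (.Q i))) = 0) :
    IsSingular (D σ) q u := by
  set q0 := sQ (f := f) σ q with hq0
  let Ψ : EuclideanSpace ℝ ι → ℝ := fun p => p (σ (.inr (.C i0))) - q0 * p (σ (.inl .Y))
  have hΨ : Differentiable ℝ Ψ := by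
    unfold Ψ
    exact (differentiable_coord _).sub ((differentiable_coord _).const_mul _)
  refine singular_of_fun (D σ) q u hu Ψ (fderiv ℝ Ψ (path q u 1)) ?_
    (hΨ _).hasFDerivAt f ?_
  · refine ⟨ev σ (.inr (.C i0)), ?_⟩
    rw [fderiv_along (c := 1) (hΨ _)]
    · exact one_ne_zero
    · intro t
      simp only [Ψ, PiLp.add_apply, PiLp.smul_apply, smul_eq_mul, ev_apply]
      simp
      ring
  · intro d hd hd1
    have hY' := isPrim_path q (u + d) (σ (.inl .Y))
    have hC := isPrim_path q (u + d) (σ (.inr (.C i0)))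
    have h1 := hC.sub (hY'.const_mul q0)
    have h2 : IsPrim (fun t => Ψ (path q (u + d) t))
        (fun t => (sQ σ (path q (u + d) t) - q0) * (d t) (σ (.inl .Y))) := by
      refine h1.of_eq (fun t => rfl) ?_
      have hd' : ∀ᵐ t ∂mu01, (u + d : Lp _ 2 mu01) t ∈ D σ (path q (u + d) t) := hd
      filter_upwards [hd', add_coord_of_zero u d _ hY] with t ht h3
      rw [mem_D] at ht
      rw [ht.2.2.1 i0, h3]
      ring
    have hb : ∀ t, |sQ σ (path q (u + d) t) - q0| ≤ f * ‖d‖ := by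
      intro t
      have h4 : sQ σ (path q (u + d) t) - q0 =
          ∑ i : Fin f, ((path q (u + d) t) (σ (.inl (.Q i))) - q (σ (.inl (.Q i)))) := by
        rw [hq0, sQ, sQ, Finset.sum_sub_distrib]
      rw [h4]
      refine (Finset.abs_sum_le_sum_abs _ _).trans ?_
      refine (Finset.sum_le_sum fun i _ => path_coord_of_zero q u d (σ (.inl (.Q i))) (hQ i) t).trans ?_
      simp
    have h3 := h2.bound d (f * ‖d‖) (by positivity) (by
      filter_upwards with t
      rw [abs_mul]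
      exact mul_le_mul (hb t) (abs_coord_le _ _) (abs_nonneg _) (by positivity))
    rw [path_zero] at h3
    calc |Ψ (path q (u + d) 1) - Ψ q| ≤ f * ‖d‖ * ‖d‖ := h3
      _ = f * (‖d‖ * ‖d‖) := by ring

/-- the common part of the second kind. -/
lemma singular_two_aux (Ψ0 : EuclideanSpace ℝ ι → ℝ) (hΨ0 : Differentiable ℝ Ψ0)
    (hZ : ∀ (p : EuclideanSpace ℝ ι) (r : ℝ), Ψ0 (p + r • ev σ (.inr .Z)) = Ψ0 p + r)
    (q : EuclideanSpace ℝ ι)
    (hprim : ∀ w : Lp (EuclideanSpace ℝ ι) 2 mu01, w ∈ admissible (D σ) q →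
      IsPrim (fun r => Ψ0 (path q w r)) (fun r => (path q w r) (σ (.inl .P)) * (w r) (σ (.inl .X)) +
        ∑ k : Fin t, (path q w r) (σ (.inl (.A k))) * (w r) (σ (.inl (.E k)))))
    (u : Lp (EuclideanSpace ℝ ι) 2 mu01)
    (hu : u ∈ admissible (D σ) q) (hX : ∀ᵐ r ∂mu01, (u r) (σ (.inl .X)) = 0)
    (hP : ∀ᵐ r ∂mu01, (u r) (σ (.inl .P)) = 0)
    (hA : ∀ k : Fin t, ∀ᵐ r ∂mu01, (u r) (σ (.inl (.A k))) = 0)
    (hE : ∀ k : Fin t, ∀ᵐ r ∂mu01, (u r) (σ (.inl (.E k))) = 0) : IsSingular (D σ) q u := by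
  set c := q (σ (.inl .P)) with hc
  let a : Fin t → ℝ := fun k => q (σ (.inl (.A k)))
  let Ψ : EuclideanSpace ℝ ι → ℝ := fun p => Ψ0 p - c * p (σ (.inl .X)) -
    ∑ k : Fin t, a k * p (σ (.inl (.E k)))
  have hΨ : Differentiable ℝ Ψ := by
    unfold Ψ
    have h1 : Differentiable ℝ (fun p : EuclideanSpace ℝ ι => ∑ k : Fin t, a k * p (σ (.inl (.E k)))) :=
      Differentiable.fun_sum fun k _ => (differentiable_coord _).const_mul _
    exact (hΨ0.sub ((differentiable_coord _).const_mul _)).sub h1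
  refine singular_of_fun (D σ) q u hu Ψ (fderiv ℝ Ψ (path q u 1)) ?_
    (hΨ _).hasFDerivAt (1 + t) ?_
  · refine ⟨ev σ (.inr .Z), ?_⟩
    rw [fderiv_along (c := 1) (hΨ _)]
    · exact one_ne_zero
    · intro r
      simp only [Ψ, hZ, PiLp.add_apply, PiLp.smul_apply, smul_eq_mul, ev_apply]
      simp
      ring
  · intro d hd hd1
    have hX' := isPrim_path q (u + d) (σ (.inl .X))
    have hE' : ∀ k, IsPrim _ _ := fun k : Fin t => (isPrim_path q (u + d) (σ (.inl (.E k)))).const_mul (a k)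
    have hE'' := isPrim_sum Finset.univ _ _ (fun k _ => hE' k)
    have h1 := ((hprim (u + d) hd).sub (hX'.const_mul c)).sub hE''
    have h2 : IsPrim (fun r => Ψ (path q (u + d) r))
        (fun r => ((path q (u + d) r) (σ (.inl .P)) - c) * (d r) (σ (.inl .X)) +
          ∑ k : Fin t, ((path q (u + d) r) (σ (.inl (.A k))) - a k) * (d r) (σ (.inl (.E k)))) := by
      refine h1.of_eq (fun r => rfl) ?_
      have hE3 : ∀ᵐ r ∂mu01, ∀ k : Fin t, ((u + d : Lp (EuclideanSpace ℝ ι) 2 mu01) r)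
          (σ (.inl (.E k))) = (d r) (σ (.inl (.E k))) :=
        (ae_all_iff).mpr fun k => add_coord_of_zero u d _ (hE k)
      filter_upwards [add_coord_of_zero u d _ hX, hE3] with r h3 h4
      simp only [h3, h4, sub_mul, Finset.sum_sub_distrib]
      ring
    have h3 := h2.bound d ((1 + t) * ‖d‖) (by positivity) (by
      filter_upwards with r
      have h4 : |((path q (u + d) r) (σ (.inl .P)) - c) * (d r) (σ (.inl .X))| ≤ ‖d‖ * ‖d r‖ := by
        rw [abs_mul]
        exact mul_le_mul (path_coord_of_zero q u d _ hP r) (abs_coord_le _ _) (abs_nonneg _)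
          (norm_nonneg _)
      have h5 : |∑ k : Fin t, ((path q (u + d) r) (σ (.inl (.A k))) - a k) * (d r) (σ (.inl (.E k)))| ≤
          t * (‖d‖ * ‖d r‖) := by
        refine (Finset.abs_sum_le_sum_abs _ _).trans ?_
        have h6 : ∀ k ∈ (Finset.univ : Finset (Fin t)),
            |((path q (u + d) r) (σ (.inl (.A k))) - a k) * (d r) (σ (.inl (.E k)))| ≤
            ‖d‖ * ‖d r‖ := by
          intro k _
          rw [abs_mul]
          exact mul_le_mul (path_coord_of_zero q u d _ (hA k) r) (abs_coord_le _ _) (abs_nonneg _)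
            (norm_nonneg _)
        refine (Finset.sum_le_sum h6).trans ?_
        simp
      calc _ ≤ _ := abs_add_le _ _
        _ ≤ ‖d‖ * ‖d r‖ + t * (‖d‖ * ‖d r‖) := add_le_add h4 h5
        _ = (1 + t) * ‖d‖ * ‖d r‖ := by ring)
    rw [path_zero] at h3
    calc |Ψ (path q (u + d) 1) - Ψ q| ≤ (1 + t) * ‖d‖ * ‖d‖ := h3
      _ = (1 + t) * (‖d‖ * ‖d‖) := by ring

/-- singular curves of the second kind. -/
lemma singular_two (hfg : f = 0 ∨ 1 ≤ g) (q : EuclideanSpace ℝ ι)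
    (u : Lp (EuclideanSpace ℝ ι) 2 mu01)
    (hu : u ∈ admissible (D σ) q) (hX : ∀ᵐ r ∂mu01, (u r) (σ (.inl .X)) = 0)
    (hP : ∀ᵐ r ∂mu01, (u r) (σ (.inl .P)) = 0)
    (hA : ∀ k : Fin t, ∀ᵐ r ∂mu01, (u r) (σ (.inl (.A k))) = 0)
    (hE : ∀ k : Fin t, ∀ᵐ r ∂mu01, (u r) (σ (.inl (.E k))) = 0) : IsSingular (D σ) q u := by
  rcases hfg with h0 | h0
  · refine singular_two_aux σ (fun p => p (σ (.inr .Z))) (differentiable_coord _) ?_ q ?_ u hu
      hX hP hA hE
    · intro p r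
      simp [ev_apply]
    · intro w hw
      refine (isPrim_path q w (σ (.inr .Z))).of_eq (fun r => rfl) ?_
      have hw' : ∀ᵐ r ∂mu01, w r ∈ D σ (path q w r) := hw
      filter_upwards [hw'] with r hr
      rw [mem_D] at hr
      have h1 : sQ σ (path q w r) = 0 := by
        subst h0
        simp [sQ]
      rw [hr.2.2.2, h1]
      ring
  · set i0 : Fin g := ⟨0, h0⟩
    refine singular_two_aux σ (fun p => p (σ (.inr .Z)) - p (σ (.inr (.C i0))))
      ((differentiable_coord _).sub (differentiable_coord _)) ?_ q ?_ u hu hX hP hA hE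
    · intro p r
      simp [ev_apply]
      ring
    · intro w hw
      refine ((isPrim_path q w (σ (.inr .Z))).sub (isPrim_path q w (σ (.inr (.C i0))))).of_eq
        (fun r => rfl) ?_
      have hw' : ∀ᵐ r ∂mu01, w r ∈ D σ (path q w r) := hw
      filter_upwards [hw'] with r hr
      rw [mem_D] at hr
      rw [hr.2.2.2, hr.2.2.1 i0]
      ring

/-- singular curves of the third kind. -/
lemma singular_three (hm : 2 ≤ m) (i : Fin e) (q : EuclideanSpace ℝ ι)
    (u : Lp (EuclideanSpace ℝ ι) 2 mu01) (hu : u ∈ admissible (D σ) q) (α β : ℝ) (hβ : β ≠ 0)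
    (h : ∀ᵐ r ∂mu01, β * (u r) (σ (.inl .X)) - α * (u r) (σ (.inl .Y)) = 0) :
    IsSingular (D σ) q u := by
  set j0 : Fin m := ⟨0, by omega⟩ with hj0
  set j1 : Fin m := ⟨1, by omega⟩ with hj1
  set x0 := q (σ (.inl .X)) with hx0
  set y0 := q (σ (.inl .Y)) with hy0
  let Ψ : EuclideanSpace ℝ ι → ℝ := fun p =>
    β ^ 2 * (p (σ (.inr (.B i))) - 2 * x0 * (p (σ (.inl .X)) * p (σ (.inl .Y)) -
      p (σ (.inr (.U j0)))) + x0 ^ 2 * p (σ (.inl .Y)))
    - 2 * α * β * (1 / 2 * (p (σ (.inl .X)) * p (σ (.inl .Y)) * p (σ (.inl .Y))) -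
      1 / 2 * p (σ (.inr (.U j1)))
      - y0 * (p (σ (.inl .X)) * p (σ (.inl .Y)) - p (σ (.inr (.U j0)))) -
      x0 / 2 * (p (σ (.inl .Y)) * p (σ (.inl .Y)))
      + x0 * y0 * p (σ (.inl .Y)))
    + α ^ 2 * (1 / 3 * (p (σ (.inl .Y)) * p (σ (.inl .Y)) * p (σ (.inl .Y))) -
      y0 * (p (σ (.inl .Y)) * p (σ (.inl .Y)))
      + y0 ^ 2 * p (σ (.inl .Y)))
  have hΨ : Differentiable ℝ Ψ := by
    unfold Ψ
    have hX := differentiable_coord (ι := ι) (σ (.inl .X))
    have hY := differentiable_coord (ι := ι) (σ (.inl .Y))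
    have hB := differentiable_coord (ι := ι) (σ (.inr (.B i)))
    have hU0 := differentiable_coord (ι := ι) (σ (.inr (.U j0)))
    have hU1 := differentiable_coord (ι := ι) (σ (.inr (.U j1)))
    have hXY := hX.mul hY
    have hYY := hY.mul hY
    exact (((((hB.sub ((hXY.sub hU0).const_mul (2 * x0))).add (hY.const_mul (x0 ^ 2))).const_mul
      (β ^ 2)).sub (((((((hXY.mul hY).const_mul (1 / 2)).sub (hU1.const_mul (1 / 2))).sub
      ((hXY.sub hU0).const_mul y0)).sub (hYY.const_mul (x0 / 2))).add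
      (hY.const_mul (x0 * y0))).const_mul (2 * α * β))).add
      (((((hYY.mul hY).const_mul (1 / 3)).sub (hYY.const_mul y0)).add
      (hY.const_mul (y0 ^ 2))).const_mul (α ^ 2)))
  refine singular_of_fun (D σ) q u hu Ψ (fderiv ℝ Ψ (path q u 1)) ?_
    (hΨ _).hasFDerivAt ((|β| + |α|) ^ 2 * (‖u‖ + 1)) ?_
  · refine ⟨ev σ (.inr (.B i)), ?_⟩
    rw [fderiv_along (c := β ^ 2) (hΨ _)]
    · exact pow_ne_zero 2 hβ
    · intro t
      simp only [Ψ, PiLp.add_apply, PiLp.smul_apply, smul_eq_mul, ev_apply]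
      simp
      ring
  · intro d hd hd1
    have hX := isPrim_path q (u + d) (σ (.inl .X))
    have hY := isPrim_path q (u + d) (σ (.inl .Y))
    have hB := isPrim_path q (u + d) (σ (.inr (.B i)))
    have hU0 := isPrim_path q (u + d) (σ (.inr (.U j0)))
    have hU1 := isPrim_path q (u + d) (σ (.inr (.U j1)))
    have hXY := hX.mul hY
    have hYY := hY.mul hY
    have h1 := (((((hB.sub ((hXY.sub hU0).const_mul (2 * x0))).add (hY.const_mul (x0 ^ 2))).const_mul
      (β ^ 2)).sub (((((((hXY.mul hY).const_mul (1 / 2)).sub (hU1.const_mul (1 / 2))).sub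
      ((hXY.sub hU0).const_mul y0)).sub (hYY.const_mul (x0 / 2))).add
      (hY.const_mul (x0 * y0))).const_mul (2 * α * β))).add
      (((((hYY.mul hY).const_mul (1 / 3)).sub (hYY.const_mul y0)).add
      (hY.const_mul (y0 ^ 2))).const_mul (α ^ 2)))
    have h2 : IsPrim (fun t => Ψ (path q (u + d) t))
        (fun t => (β * ((path q (u + d) t) (σ (.inl .X)) - x0) -
          α * ((path q (u + d) t) (σ (.inl .Y)) - y0)) ^ 2
          * ((u + d : Lp _ 2 mu01) t) (σ (.inl .Y))) := by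
      refine h1.of_eq (fun t => rfl) ?_
      have hd' : ∀ᵐ t ∂mu01, (u + d : Lp _ 2 mu01) t ∈ D σ (path q (u + d) t) := hd
      filter_upwards [hd'] with t ht
      rw [mem_D] at ht
      rw [ht.1 j0, ht.1 j1, ht.2.1 i]
      simp only [hj0, hj1]
      ring
    have h3 := h2.bound (u + d) ((|β| + |α|) ^ 2 * (‖d‖ * ‖d‖)) (by positivity) (by
      filter_upwards with t
      rw [abs_mul, abs_pow]
      refine mul_le_mul ?_ (abs_coord_le _ _) (abs_nonneg _) (by positivity)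
      have e1 : β * ((path q (u + d) t) (σ (.inl .X)) - x0) -
          α * ((path q (u + d) t) (σ (.inl .Y)) - y0) =
          β * ((path q d t) (σ (.inl .X)) - x0) - α * ((path q d t) (σ (.inl .Y)) - y0) := by
        have h0 := path_comb_zero q u (σ (.inl .X)) (σ (.inl .Y)) α β h t
        rw [path_add_coord, path_add_coord]
        linarith
      rw [e1]
      have h4 := abs_coord_sub_le q d t (σ (.inl .X))
      have h5 := abs_coord_sub_le q d t (σ (.inl .Y))
      have h6 : |β * ((path q d t) (σ (.inl .X)) - x0) - α * ((path q d t) (σ (.inl .Y)) - y0)| ≤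
          (|β| + |α|) * ‖d‖ := by
        refine (abs_sub _ _).trans ?_
        rw [abs_mul, abs_mul, add_mul]
        exact add_le_add (mul_le_mul_of_nonneg_left h4 (abs_nonneg _))
          (mul_le_mul_of_nonneg_left h5 (abs_nonneg _))
      calc |β * ((path q d t) (σ (.inl .X)) - x0) - α * ((path q d t) (σ (.inl .Y)) - y0)| ^ 2
          ≤ ((|β| + |α|) * ‖d‖) ^ 2 := pow_le_pow_left₀ (abs_nonneg _) h6 2
        _ = (|β| + |α|) ^ 2 * (‖d‖ * ‖d‖) := by ring)
    rw [path_zero] at h3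
    have h6 : ‖u + d‖ ≤ ‖u‖ + 1 := (norm_add_le _ _).trans (by linarith)
    calc |Ψ (path q (u + d) 1) - Ψ q| ≤ (|β| + |α|) ^ 2 * (‖d‖ * ‖d‖) * ‖u + d‖ := h3
      _ ≤ (|β| + |α|) ^ 2 * (‖d‖ * ‖d‖) * (‖u‖ + 1) := mul_le_mul_of_nonneg_left h6 (by positivity)
      _ = (|β| + |α|) ^ 2 * (‖u‖ + 1) * (‖d‖ * ‖d‖) := by ring

/-! ### curves -/

/-- the curve is a singular curve (as a path with its velocity). -/
def IsSingularCurve (Δ : EuclideanSpace ℝ ι → Submodule ℝ (EuclideanSpace ℝ ι))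
    (γ : ℝ → EuclideanSpace ℝ ι) : Prop :=
  ∃ u : Lp (EuclideanSpace ℝ ι) 2 mu01, IsSingular Δ (γ 0) u ∧
    ∀ t ∈ Icc (0:ℝ) 1, path (γ 0) u t = γ t

lemma curve_one (hm : 2 ≤ m) (γ : ℝ → EuclideanSpace ℝ ι) (hγ : ContDiff ℝ ∞ γ)
    (hD : ∀ r, deriv γ r ∈ D σ (γ r)) (hY : ∀ r, (deriv γ r) (σ (.inl .Y)) = 0) :
    IsSingularCurve (D σ) γ := by
  obtain ⟨u, hu, hp⟩ := exists_velocity γ hγ
  refine ⟨u, singular_one σ hm _ u (admissible_of_curve _ γ u hu hp fun r _ => hD r) ?_, hp⟩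
  filter_upwards [hu] with r hr
  rw [hr, hY]

lemma curve_one' (i0 : Fin g) (γ : ℝ → EuclideanSpace ℝ ι) (hγ : ContDiff ℝ ∞ γ)
    (hD : ∀ r, deriv γ r ∈ D σ (γ r)) (hY : ∀ r, (deriv γ r) (σ (.inl .Y)) = 0)
    (hQ : ∀ (i : Fin f) r, (deriv γ r) (σ (.inl (.Q i))) = 0) :
    IsSingularCurve (D σ) γ := by
  obtain ⟨u, hu, hp⟩ := exists_velocity γ hγ
  refine ⟨u, singular_one' σ i0 _ u (admissible_of_curve _ γ u hu hp fun r _ => hD r) ?_ ?_, hp⟩
  · filter_upwards [hu] with r hr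
    rw [hr, hY]
  · intro i
    filter_upwards [hu] with r hr
    rw [hr, hQ]

lemma curve_two (hfg : f = 0 ∨ 1 ≤ g) (γ : ℝ → EuclideanSpace ℝ ι) (hγ : ContDiff ℝ ∞ γ)
    (hD : ∀ r, deriv γ r ∈ D σ (γ r)) (hX : ∀ r, (deriv γ r) (σ (.inl .X)) = 0)
    (hP : ∀ r, (deriv γ r) (σ (.inl .P)) = 0)
    (hA : ∀ (k : Fin t) r, (deriv γ r) (σ (.inl (.A k))) = 0)
    (hE : ∀ (k : Fin t) r, (deriv γ r) (σ (.inl (.E k))) = 0) : IsSingularCurve (D σ) γ := by
  obtain ⟨u, hu, hp⟩ := exists_velocity γ hγ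
  refine ⟨u, singular_two σ hfg _ u (admissible_of_curve _ γ u hu hp fun r _ => hD r)
    ?_ ?_ ?_ ?_, hp⟩
  · filter_upwards [hu] with r hr
    rw [hr, hX]
  · filter_upwards [hu] with r hr
    rw [hr, hP]
  · intro k
    filter_upwards [hu] with r hr
    rw [hr, hA]
  · intro k
    filter_upwards [hu] with r hr
    rw [hr, hE]

lemma curve_three (hm : 2 ≤ m) (i : Fin e) (γ : ℝ → EuclideanSpace ℝ ι) (hγ : ContDiff ℝ ∞ γ)
    (hD : ∀ r, deriv γ r ∈ D σ (γ r)) (α β : ℝ) (hβ : β ≠ 0)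
    (h : ∀ r, β * (deriv γ r) (σ (.inl .X)) - α * (deriv γ r) (σ (.inl .Y)) = 0) :
    IsSingularCurve (D σ) γ := by
  obtain ⟨u, hu, hp⟩ := exists_velocity γ hγ
  refine ⟨u, singular_three σ hm i _ u (admissible_of_curve _ γ u hu hp fun r _ => hD r) α β hβ ?_,
    hp⟩
  filter_upwards [hu] with r hr
  rw [hr, h]

lemma IsSingularCurve.step {Δ : EuclideanSpace ℝ ι → Submodule ℝ (EuclideanSpace ℝ ι)}
    {γ : ℝ → EuclideanSpace ℝ ι} (h : IsSingularCurve Δ γ) : SingularStep Δ (γ 0) (γ 1) := by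
  obtain ⟨u, hu, hp⟩ := h
  exact ⟨u, hu, hp 1 ⟨zero_le_one, le_rfl⟩⟩

end Pool.Agent.H68.ST
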