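import Pool.Agent.H68.ST.Dir

set_option autoImplicit false
set_option linter.unusedSectionVars false

open MeasureTheory Set Filter
open scoped Manifold ContDiff Topology Pointwise

namespace Pool.Agent.H68.ST

section good

variable {E : Type*} [NormedAddCommGroup E] [NormedSpace ℝ E]

/-- `Φ` and its inverse are smooth and their differentials map `Δ` into `Δ`. -/
structure Good (Δ : E → Submodule ℝ E) (Φ : Equiv.Perm E) : Prop where
  sm : ContDiff ℝ ∞ Φ
  sm' : ContDiff ℝ ∞ Φ.symm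
  mp : ∀ x, ∀ v ∈ Δ x, fderiv ℝ Φ x v ∈ Δ (Φ x)
  mp' : ∀ x, ∀ v ∈ Δ x, fderiv ℝ Φ.symm x v ∈ Δ (Φ.symm x)

lemma Good.symm {Δ : E → Submodule ℝ E} {Φ : Equiv.Perm E} (h : Good Δ Φ) : Good Δ Φ.symm :=
  ⟨h.sm', h.sm, h.mp', h.mp⟩

lemma Good.isSymmetry {Δ : E → Submodule ℝ E} {Φ : Equiv.Perm E} (h : Good Δ Φ) :
    IsSymmetry Δ Φ := by
  refine ⟨h.sm, h.sm', fun x => le_antisymm ?_ ?_⟩
  · rintro _ ⟨v, hv, rfl⟩
    exact h.mp x v hv
  · intro w hw
    refine ⟨fderiv ℝ Φ.symm (Φ x) w, ?_, ?_⟩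
    · have := h.mp' (Φ x) w hw
      rwa [Equiv.symm_apply_apply] at this
    · have d1 : DifferentiableAt ℝ Φ (Φ.symm (Φ x)) := (h.sm.differentiable (by simp)) _
      have d2 : DifferentiableAt ℝ Φ.symm (Φ x) := (h.sm'.differentiable (by simp)) _
      have h1 := fderiv_comp (Φ x) d1 d2
      have h2 : (Φ ∘ Φ.symm : E → E) = id := by
        funext y
        simp
      rw [h2, fderiv_id, Equiv.symm_apply_apply] at h1
      have h3 := congrArg (fun L : E →L[ℝ] E => L w) h1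
      simpa using h3.symm

lemma Good.mul {Δ : E → Submodule ℝ E} {Φ Ψ : Equiv.Perm E} (h : Good Δ Φ) (h' : Good Δ Ψ) :
    Good Δ (Φ * Ψ) := by
  have e1 : ((Φ * Ψ : Equiv.Perm E) : E → E) = Φ ∘ Ψ := rfl
  have e2 : ((Φ * Ψ : Equiv.Perm E).symm : E → E) = Ψ.symm ∘ Φ.symm := rfl
  refine ⟨?_, ?_, ?_, ?_⟩
  · rw [e1]; exact h.sm.comp h'.sm
  · rw [e2]; exact h'.sm'.comp h.sm'
  · intro x v hv
    rw [e1, fderiv_comp x ((h.sm.differentiable (by simp)) _) ((h'.sm.differentiable (by simp)) _)]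
    exact h.mp _ _ (h'.mp _ _ hv)
  · intro x v hv
    rw [e2, fderiv_comp x ((h'.sm'.differentiable (by simp)) _)
      ((h.sm'.differentiable (by simp)) _)]
    exact h'.mp' _ _ (h.mp' _ _ hv)

end good

section poly

variable {m : ℕ}

/-- the functional with values `x`, `u j` at the monomials `1`, `T^(j+1)`. -/
noncomputable def ell (x : ℝ) (u : Fin m → ℝ) : Polynomial ℝ →ₗ[ℝ] ℝ where
  toFun f := f.coeff 0 * x + ∑ j : Fin m, f.coeff ((j : ℕ) + 1) * u j
  map_add' f g := by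
    simp only [Polynomial.coeff_add, add_mul, Finset.sum_add_distrib]
    ring
  map_smul' c f := by
    simp only [Polynomial.coeff_smul, smul_eq_mul, RingHom.id_apply, mul_add, Finset.mul_sum]
    congr 1
    · ring
    · exact Finset.sum_congr rfl fun j _ => by ring

lemma ell_apply (x : ℝ) (u : Fin m → ℝ) (f : Polynomial ℝ) :
    ell x u f = f.coeff 0 * x + ∑ j : Fin m, f.coeff ((j : ℕ) + 1) * u j := rfl

lemma ell_one (x : ℝ) (u : Fin m → ℝ) : ell x u (Polynomial.X ^ 0) = x := by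
  rw [ell_apply]
  simp [Polynomial.coeff_one]

lemma ell_pow (x : ℝ) (u : Fin m → ℝ) (j : Fin m) :
    ell x u (Polynomial.X ^ ((j : ℕ) + 1)) = u j := by
  rw [ell_apply]
  have h0 : (Polynomial.X ^ ((j : ℕ) + 1) : Polynomial ℝ).coeff 0 = 0 := by
    rw [Polynomial.coeff_X_pow, if_neg (by omega)]
  rw [h0, zero_mul, zero_add, Finset.sum_eq_single j]
  · simp [Polynomial.coeff_X_pow]
  · intro k _ hk
    rw [Polynomial.coeff_X_pow, if_neg, zero_mul]
    intro h
    exact hk (Fin.ext (by omega))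
  · intro h
    exact absurd (Finset.mem_univ _) h

lemma agree (A B : Polynomial ℝ →ₗ[ℝ] ℝ) (h0 : A (Polynomial.X ^ 0) = B (Polynomial.X ^ 0))
    (h : ∀ j : Fin m, A (Polynomial.X ^ ((j : ℕ) + 1)) = B (Polynomial.X ^ ((j : ℕ) + 1)))
    (f : Polynomial ℝ) (hf : f.natDegree ≤ m) : A f = B f := by
  have h1 := Polynomial.as_sum_range_C_mul_X_pow' (p := f) (n := m + 1) (by omega)
  rw [h1, map_sum, map_sum]
  apply Finset.sum_congr rfl
  intro k hk
  rw [Finset.mem_range] at hk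
  rw [← Polynomial.smul_eq_C_mul, map_smul, map_smul]
  congr 1
  rcases k with _ | k
  · exact h0
  · exact h ⟨k, by omega⟩

lemma ell_shift (x a : ℝ) (u : Fin m → ℝ) (f : Polynomial ℝ) (hf : f.natDegree ≤ m) :
    ell x (fun j : Fin m => ell x u (Polynomial.taylor a (Polynomial.X ^ ((j : ℕ) + 1)))) f =
      ell x u (Polynomial.taylor a f) := by
  refine agree (ell x _) ((ell x u).comp (Polynomial.taylor a)) ?_ ?_ f hf
  · rw [ell_one, LinearMap.comp_apply]
    have : Polynomial.taylor a (Polynomial.X ^ 0) = Polynomial.X ^ 0 := by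
      rw [pow_zero, Polynomial.taylor_one]
      simp
    rw [this, ell_one]
  · intro j
    rw [ell_pow, LinearMap.comp_apply]

lemma ell_eval (x y : ℝ) (u : Fin m → ℝ) (hu : ∀ j : Fin m, u j = y ^ ((j : ℕ) + 1) * x)
    (f : Polynomial ℝ) (hf : f.natDegree ≤ m) : ell x u f = f.eval y * x := by
  refine agree (ell x u) (x • (Polynomial.leval y)) ?_ ?_ f hf |>.trans ?_
  · rw [ell_one]
    simp
  · intro j
    rw [ell_pow, hu]
    simp [mul_comm]
  · simp [mul_comm]

end poly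

end Pool.Agent.H68.ST
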