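import Pool.Agent.H68.ST.Sing

set_option autoImplicit false
set_option linter.unusedSectionVars false

open MeasureTheory Set Filter
open scoped Manifold ContDiff Topology Pointwise

namespace Pool.Agent.H68.ST

variable {ι : Type} [Fintype ι] {m e f g t : ℕ} (σ : Coord m e f g t ≃ ι)

/-- coordinates of a point. -/
def cpt (x y p : ℝ) (q : Fin f → ℝ) (a w : Fin t → ℝ) (u : Fin m → ℝ) (b : Fin e → ℝ)
    (c : Fin g → ℝ) (z : ℝ) : Coord m e f g t → ℝ
  | .inl .X => x
  | .inl .Y => y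
  | .inl .P => p
  | .inl (.Q i) => q i
  | .inl (.A k) => a k
  | .inl (.E k) => w k
  | .inr (.U j) => u j
  | .inr (.B i) => b i
  | .inr (.C i) => c i
  | .inr .Z => z

/-- the point with given coordinates. -/
noncomputable def pt (x y p : ℝ) (q : Fin f → ℝ) (a w : Fin t → ℝ) (u : Fin m → ℝ)
    (b : Fin e → ℝ) (c : Fin g → ℝ) (z : ℝ) :
    EuclideanSpace ℝ ι := mk σ (cpt x y p q a w u b c z)

section
variable (x y p : ℝ) (q : Fin f → ℝ) (a w : Fin t → ℝ) (u : Fin m → ℝ)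
    (b : Fin e → ℝ) (c : Fin g → ℝ) (z : ℝ)
@[simp] lemma pt_X : pt σ x y p q a w u b c z (σ (.inl .X)) = x := by simp [pt, cpt]
@[simp] lemma pt_Y : pt σ x y p q a w u b c z (σ (.inl .Y)) = y := by simp [pt, cpt]
@[simp] lemma pt_P : pt σ x y p q a w u b c z (σ (.inl .P)) = p := by simp [pt, cpt]
@[simp] lemma pt_Q (i : Fin f) : pt σ x y p q a w u b c z (σ (.inl (.Q i))) = q i := by
  simp [pt, cpt]
@[simp] lemma pt_A (k : Fin t) : pt σ x y p q a w u b c z (σ (.inl (.A k))) = a k := by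
  simp [pt, cpt]
@[simp] lemma pt_E (k : Fin t) : pt σ x y p q a w u b c z (σ (.inl (.E k))) = w k := by
  simp [pt, cpt]
@[simp] lemma pt_U (j : Fin m) : pt σ x y p q a w u b c z (σ (.inr (.U j))) = u j := by
  simp [pt, cpt]
@[simp] lemma pt_B (i : Fin e) : pt σ x y p q a w u b c z (σ (.inr (.B i))) = b i := by
  simp [pt, cpt]
@[simp] lemma pt_C (i : Fin g) : pt σ x y p q a w u b c z (σ (.inr (.C i))) = c i := by
  simp [pt, cpt]
@[simp] lemma pt_Z : pt σ x y p q a w u b c z (σ (.inr .Z)) = z := by simp [pt, cpt]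
@[simp] lemma sQ_pt : sQ σ (pt σ x y p q a w u b c z) = ∑ i, q i := by simp [sQ]
end

lemma pt_eta (v : EuclideanSpace ℝ ι) : pt σ (v (σ (.inl .X))) (v (σ (.inl .Y)))
    (v (σ (.inl .P))) (fun i => v (σ (.inl (.Q i)))) (fun i => v (σ (.inl (.A i))))
    (fun i => v (σ (.inl (.E i)))) (fun j => v (σ (.inr (.U j)))) (fun i => v (σ (.inr (.B i))))
    (fun i => v (σ (.inr (.C i)))) (v (σ (.inr .Z))) = v := by
  apply ext_coord σ
  rintro (h | h) <;> cases h <;> simp

/-- a direction which can be followed along a line. -/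
def Good1 (w : Hor f t → ℝ) : Prop :=
  (w .X = 0 ∨ (w .Y = 0 ∧ w .P = 0)) ∧ (w .Y = 0 ∨ (w .X = 0 ∧ ∀ i, w (.Q i) = 0)) ∧
    ∀ k, w (.E k) = 0 ∨ w (.A k) = 0

lemma L_line {w : Hor f t → ℝ} (hw : Good1 w) (p : EuclideanSpace ℝ ι) (r : ℝ) :
    L (m := m) (e := e) (g := g) σ w (p + r • L σ w p) = L σ w p := by
  obtain ⟨h1, h2, h3⟩ := hw
  apply ext_coord σ
  rintro (h | h)
  · simp
  · cases h with
    | U j =>
      rcases h1 with h1 | h1
      · simp [h1]
      · simp [h1.1]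
    | B i =>
      rcases h2 with h2 | h2
      · simp [h2]
      · simp [h2.1]
    | C i =>
      rcases h2 with h2 | h2
      · simp [h2]
      · simp [sQ_add, sQ_smul, sQ_L, h2.2]
    | Z =>
      have e1 : (p + r • L σ w p) (σ (.inl .P)) * w .X = p (σ (.inl .P)) * w .X := by
        rcases h1 with h1 | h1
        · simp [h1]
        · simp [h1.2]
      have e2 : sQ σ (p + r • L σ w p) * w .Y = sQ σ p * w .Y := by
        rcases h2 with h2 | h2
        · simp [h2]
        · simp [sQ_add, sQ_smul, sQ_L, h2.2]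
      have e3 : ∀ k, (p + r • L σ w p) (σ (.inl (.A k))) * w (.E k) =
          p (σ (.inl (.A k))) * w (.E k) := by
        intro k
        rcases h3 k with h3 | h3
        · simp [h3]
        · simp [h3]
      rw [L_Z, L_Z, e1, e2, Finset.sum_congr rfl fun k _ => e3 k]

/-- directions which give singular lines. -/
def Sd (f t m e g : ℕ) (w : Hor f t → ℝ) : Prop :=
  Good1 w ∧ ((2 ≤ m ∧ w .Y = 0) ∨ (1 ≤ g ∧ w .Y = 0 ∧ ∀ i, w (.Q i) = 0) ∨
    ((f = 0 ∨ 1 ≤ g) ∧ w .X = 0 ∧ w .P = 0 ∧ (∀ k, w (.A k) = 0) ∧ ∀ k, w (.E k) = 0) ∨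
    (2 ≤ m ∧ 1 ≤ e ∧ w .X = 0 ∧ w .Y ≠ 0))

lemma contDiff_line (p v : EuclideanSpace ℝ ι) : ContDiff ℝ ∞ (fun r : ℝ => p + r • v) :=
  contDiff_const.add (contDiff_id.smul contDiff_const)

lemma deriv_line (p v : EuclideanSpace ℝ ι) (r : ℝ) : deriv (fun r : ℝ => p + r • v) r = v := by
  have := ((hasDerivAt_id r).smul_const v).const_add p
  simpa using this.deriv

lemma step_line {Δ : EuclideanSpace ℝ ι → Submodule ℝ (EuclideanSpace ℝ ι)}
    (p v : EuclideanSpace ℝ ι) (h : IsSingularCurve Δ (fun r : ℝ => p + r • v)) :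
    SingularStep Δ p (p + v) := by
  have := h.step
  simpa using this

lemma Sd.step {w : Hor f t → ℝ} (hw : Sd f t m e g w) (p : EuclideanSpace ℝ ι) :
    SingularStep (D σ) p (p + L σ w p) := by
  obtain ⟨h0, h1⟩ := hw
  apply step_line
  have hD : ∀ r : ℝ, deriv (fun r : ℝ => p + r • L σ w p) r ∈ D σ (p + r • L σ w p) := by
    intro r
    rw [deriv_line]
    have := L_mem σ w (p + r • L σ w p)
    rwa [L_line σ h0] at this
  have hd : ∀ (h : Hor f t) (r : ℝ),
      (deriv (fun r : ℝ => p + r • L σ w p) r) (σ (.inl h)) = w h := by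
    intro h r
    rw [deriv_line, L_inl]
  rcases h1 with ⟨h2, h3⟩ | ⟨h2, h3, h4⟩ | ⟨h2, h3, h4, h5, h6⟩ | ⟨h2, h3, h4, h5⟩
  · exact curve_one σ h2 _ (contDiff_line _ _) hD fun r => by rw [hd, h3]
  · exact curve_one' σ ⟨0, h2⟩ _ (contDiff_line _ _) hD (fun r => by rw [hd, h3])
      (fun i r => by rw [hd, h4])
  · exact curve_two σ h2 _ (contDiff_line _ _) hD (fun r => by rw [hd, h3])
      (fun r => by rw [hd, h4]) (fun k r => by rw [hd, h5]) (fun k r => by rw [hd, h6])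
  · exact curve_three σ h2 ⟨0, h3⟩ _ (contDiff_line _ _) hD 0 (w .Y) h5 fun r => by
      rw [hd, hd, h4]; ring

/-- the moves. -/
def Mv (p q : EuclideanSpace ℝ ι) : Prop :=
  ∃ w : Hor f t → ℝ, Sd f t m e g w ∧ q = p + L σ w p

lemma Sd.neg {w : Hor f t → ℝ} (hw : Sd f t m e g w) : Sd f t m e g (-w) := by
  obtain ⟨⟨h1, h2, h3⟩, h4⟩ := hw
  refine ⟨⟨?_, ?_, ?_⟩, ?_⟩
  · simpa using h1
  · simpa using h2
  · simpa using h3
  · simpa using h4

lemma L_neg (w : Hor f t → ℝ) (p : EuclideanSpace ℝ ι) :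
    L (m := m) (e := e) (g := g) σ (-w) p = - L σ w p := by
  have := L_smul (m := m) (e := e) (g := g) σ (-1) w p
  simpa using this

lemma Mv.symm {p q : EuclideanSpace ℝ ι} (h : Mv σ p q) : Mv σ q p := by
  obtain ⟨w, hw, rfl⟩ := h
  refine ⟨-w, hw.neg, ?_⟩
  have h1 := L_line (m := m) (e := e) (g := g) σ hw.1 p 1
  rw [one_smul] at h1
  rw [L_neg, h1]
  simp

/-- joined by moves. -/
def Rel : EuclideanSpace ℝ ι → EuclideanSpace ℝ ι → Prop := Relation.ReflTransGen (Mv σ)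

lemma Rel.symm {p q : EuclideanSpace ℝ ι} (h : Rel σ p q) : Rel σ q p := by
  induction h with
  | refl => exact Relation.ReflTransGen.refl
  | tail _ h2 ih => exact Relation.ReflTransGen.head (Mv.symm σ h2) ih

lemma Rel.trans {p q r : EuclideanSpace ℝ ι} (h : Rel σ p q) (h' : Rel σ q r) : Rel σ p r :=
  Relation.ReflTransGen.trans h h'

lemma Rel.of_eq {p q : EuclideanSpace ℝ ι} (h : p = q) : Rel σ p q := by
  rw [h]
  exact Relation.ReflTransGen.refl

lemma Rel.single {w : Hor f t → ℝ} (hw : Sd f t m e g w) (p : EuclideanSpace ℝ ι) :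
    Rel σ p (p + L σ w p) := Relation.ReflTransGen.single ⟨w, hw, rfl⟩

/-- the parameters for which all the moves are singular. -/
def Ok (m e f g : ℕ) : Prop := (2 ≤ m ∧ (1 ≤ e ∨ f = 0)) ∨ 1 ≤ g

section moves
variable (hok : Ok m e f g) (x y p : ℝ) (q : Fin f → ℝ) (a w : Fin t → ℝ) (u : Fin m → ℝ)
    (b : Fin e → ℝ) (c : Fin g → ℝ) (z : ℝ)
include hok

lemma sd_first {v : Hor f t → ℝ} (h0 : Good1 v) (hY : v .Y = 0) (hQ : ∀ i, v (.Q i) = 0) :
    Sd f t m e g v := by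
  refine ⟨h0, ?_⟩
  rcases hok with h | h
  · exact Or.inl ⟨h.1, hY⟩
  · exact Or.inr (Or.inl ⟨h, hY, hQ⟩)

lemma relX (r : ℝ) : Rel σ (pt σ x y p q a w u b c z)
    (pt σ (x + r) y p q a w (fun j => u j + r * y ^ ((j : ℕ) + 1)) b c (z + r * p)) := by
  have h1 := Rel.single (m := m) (e := e) (g := g) σ (w := Pi.single .X r) (sd_first hok
    ⟨Or.inr ⟨by simp, by simp⟩, Or.inl (by simp), fun k => Or.inl (by simp)⟩ (by simp)
    (by simp)) (pt σ x y p q a w u b c z)
  convert h1 using 1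
  apply ext_coord σ
  rintro (h | h) <;> cases h <;> simp [mul_comm]

lemma relP (r : ℝ) : Rel σ (pt σ x y p q a w u b c z) (pt σ x y (p + r) q a w u b c z) := by
  have h1 := Rel.single (m := m) (e := e) (g := g) σ (w := Pi.single .P r) (sd_first hok
    ⟨Or.inl (by simp), Or.inl (by simp), fun k => Or.inl (by simp)⟩ (by simp)
    (by simp)) (pt σ x y p q a w u b c z)
  convert h1 using 1
  apply ext_coord σ
  rintro (h | h) <;> cases h <;> simp

lemma relA (r : Fin t → ℝ) : Rel σ (pt σ x y p q a w u b c z)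
    (pt σ x y p q (fun k => a k + r k) w u b c z) := by
  let v : Hor f t → ℝ := fun | .A k => r k | _ => 0
  have h1 := Rel.single (m := m) (e := e) (g := g) σ (w := v) (sd_first hok
    ⟨Or.inl (by simp [v]), Or.inl (by simp [v]), fun k => Or.inl (by simp [v])⟩ (by simp [v])
    (by simp [v])) (pt σ x y p q a w u b c z)
  convert h1 using 1
  apply ext_coord σ
  rintro (h | h) <;> cases h <;> simp [v]

lemma relE (r : Fin t → ℝ) : Rel σ (pt σ x y p q a w u b c z)
    (pt σ x y p q a (fun k => w k + r k) u b c (z + ∑ k, a k * r k)) := by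
  let v : Hor f t → ℝ := fun | .E k => r k | _ => 0
  have h1 := Rel.single (m := m) (e := e) (g := g) σ (w := v) (sd_first hok
    ⟨Or.inl (by simp [v]), Or.inl (by simp [v]), fun k => Or.inr (by simp [v])⟩ (by simp [v])
    (by simp [v])) (pt σ x y p q a w u b c z)
  convert h1 using 1
  apply ext_coord σ
  rintro (h | h) <;> cases h <;> simp [v]

lemma relQ (r : Fin f → ℝ) : Rel σ (pt σ x y p q a w u b c z)
    (pt σ x y p (fun i => q i + r i) a w u b c z) := by
  let v : Hor f t → ℝ := fun | .Q i => r i | _ => 0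
  have h0 : Sd f t m e g v := by
    refine ⟨⟨Or.inl (by simp [v]), Or.inl (by simp [v]), fun k => Or.inl (by simp [v])⟩, ?_⟩
    rcases hok with h | h
    · exact Or.inl ⟨h.1, by simp [v]⟩
    · exact Or.inr (Or.inr (Or.inl ⟨Or.inr h, by simp [v], by simp [v], by simp [v], by simp [v]⟩))
  have h1 := Rel.single (m := m) (e := e) (g := g) σ h0 (pt σ x y p q a w u b c z)
  convert h1 using 1
  apply ext_coord σ
  rintro (h | h) <;> cases h <;> simp [v]

lemma relY (r : ℝ) : Rel σ (pt σ x y p q a w u b c z)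
    (pt σ x (y + r) p q a w u (fun i => b i + r * x ^ 2) (fun i => c i + r * ∑ j, q j)
      (z + r * ∑ j, q j)) := by
  by_cases hr : r = 0
  · subst hr
    simp only [add_zero, zero_mul]
    exact Relation.ReflTransGen.refl
  have h0 : Sd f t m e g (Pi.single .Y r) := by
    refine ⟨⟨Or.inl (by simp), Or.inr ⟨by simp, by simp⟩, fun k => Or.inl (by simp)⟩, ?_⟩
    rcases hok with ⟨h2, h3 | h3⟩ | h
    · exact Or.inr (Or.inr (Or.inr ⟨h2, h3, by simp, by simpa using hr⟩))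
    · exact Or.inr (Or.inr (Or.inl ⟨Or.inl h3, by simp, by simp, by simp, by simp⟩))
    · exact Or.inr (Or.inr (Or.inl ⟨Or.inr h, by simp, by simp, by simp, by simp⟩))
  have h1 := Rel.single (m := m) (e := e) (g := g) σ h0 (pt σ x y p q a w u b c z)
  convert h1 using 1
  apply ext_coord σ
  rintro (h | h) <;> cases h <;> simp [mul_comm]

end moves

/-! ### vertical vectors -/

lemma Rel.shift {p q : EuclideanSpace ℝ ι} (h : Rel σ p q) (v : EuclideanSpace ℝ ι)
    (hv : ∀ h : Hor f t, v (σ (.inl h)) = 0) : Rel σ (p + v) (q + v) := by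
  have hL : ∀ (w : Hor f t → ℝ) (a : EuclideanSpace ℝ ι),
      L (m := m) (e := e) (g := g) σ w (a + v) = L σ w a := by
    intro w a
    apply ext_coord σ
    rintro (h | h)
    · simp
    · cases h <;> simp [hv, sQ]
  induction h with
  | refl => exact Relation.ReflTransGen.refl
  | tail _ h2 ih =>
    refine Relation.ReflTransGen.tail ih ?_
    obtain ⟨w, hw, rfl⟩ := h2
    refine ⟨w, hw, ?_⟩
    rw [hL]
    abel

/-- vertical vectors joined to the origin. -/
def Vt (u : Fin m → ℝ) (b : Fin e → ℝ) (c : Fin g → ℝ) (z : ℝ) : Prop :=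
  Rel σ (0 : EuclideanSpace ℝ ι) (pt σ 0 0 0 0 0 0 u b c z)

lemma pt_zero : pt σ 0 0 0 0 0 0 0 0 0 0 = (0 : EuclideanSpace ℝ ι) := by
  apply ext_coord σ
  rintro (h | h) <;> cases h <;> simp

lemma Vt.zero : Vt σ 0 0 0 0 := by
  unfold Vt
  rw [pt_zero]
  exact Relation.ReflTransGen.refl

lemma pt_vert (u : Fin m → ℝ) (b : Fin e → ℝ) (c : Fin g → ℝ) (z : ℝ) (h : Hor f t) :
    pt σ 0 0 0 0 0 0 u b c z (σ (.inl h)) = 0 := by
  cases h <;> simp

variable {σ}

lemma Vt.add {u u' : Fin m → ℝ} {b b' : Fin e → ℝ} {c c' : Fin g → ℝ} {z z' : ℝ}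
    (h : Vt σ u b c z) (h' : Vt σ u' b' c' z') : Vt σ (u + u') (b + b') (c + c') (z + z') := by
  have h1 := Rel.shift σ h' (pt σ 0 0 0 0 0 0 u b c z) (pt_vert σ u b c z)
  rw [zero_add] at h1
  have h2 := Rel.trans σ h h1
  have h3 : pt σ 0 0 0 0 0 0 u' b' c' z' + pt σ 0 0 0 0 0 0 u b c z =
      pt σ 0 0 0 0 0 0 (u + u') (b + b') (c + c') (z + z') := by
    apply ext_coord σ
    rintro (h | h) <;> cases h <;> simp [add_comm]
  rw [h3] at h2
  exact h2

lemma Vt.neg {u : Fin m → ℝ} {b : Fin e → ℝ} {c : Fin g → ℝ} {z : ℝ} (h : Vt σ u b c z) :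
    Vt σ (-u) (-b) (-c) (-z) := by
  have h1 := Rel.shift σ h (pt σ 0 0 0 0 0 0 (-u) (-b) (-c) (-z)) (pt_vert σ _ _ _ _)
  have h3 : pt σ 0 0 0 0 0 0 u b c z + pt σ 0 0 0 0 0 0 (-u) (-b) (-c) (-z) = 0 := by
    apply ext_coord σ
    rintro (h | h) <;> cases h <;> simp
  rw [zero_add, h3] at h1
  exact Rel.symm σ h1

lemma Vt.sub {u u' : Fin m → ℝ} {b b' : Fin e → ℝ} {c c' : Fin g → ℝ} {z z' : ℝ}
    (h : Vt σ u b c z) (h' : Vt σ u' b' c' z') : Vt σ (u - u') (b - b') (c - c') (z - z') := by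
  have := h.add h'.neg
  simpa [sub_eq_add_neg] using this

variable (σ)

lemma loop_one (hok : Ok m e f g) (r s : ℝ) : Vt σ (fun j : Fin m => -(r * s ^ ((j : ℕ) + 1)))
    (fun _ : Fin e => s * r ^ 2) 0 0 := by
  unfold Vt
  rw [← pt_zero σ]
  refine Rel.trans σ (relX σ hok _ _ _ _ _ _ _ _ _ _ r) ?_
  refine Rel.trans σ (relY σ hok _ _ _ _ _ _ _ _ _ _ s) ?_
  refine Rel.trans σ (relX σ hok _ _ _ _ _ _ _ _ _ _ (-r)) ?_
  refine Rel.trans σ (relY σ hok _ _ _ _ _ _ _ _ _ _ (-s)) ?_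
  refine Rel.of_eq σ ?_
  apply ext_coord σ
  rintro (h | h) <;> cases h <;> simp

lemma loop_two (hok : Ok m e f g) (s : ℝ) : Vt σ 0 0 0 s := by
  unfold Vt
  rw [← pt_zero σ]
  refine Rel.trans σ (relP σ hok _ _ _ _ _ _ _ _ _ _ s) ?_
  refine Rel.trans σ (relX σ hok _ _ _ _ _ _ _ _ _ _ 1) ?_
  refine Rel.trans σ (relP σ hok _ _ _ _ _ _ _ _ _ _ (-s)) ?_
  refine Rel.trans σ (relX σ hok _ _ _ _ _ _ _ _ _ _ (-1)) ?_
  refine Rel.of_eq σ ?_
  apply ext_coord σ
  rintro (h | h) <;> cases h <;> simp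

lemma loop_three (hok : Ok m e f g) (hf : 0 < f) (s : ℝ) : Vt σ 0 0 (fun _ => s) s := by
  unfold Vt
  rw [← pt_zero σ]
  refine Rel.trans σ (relQ σ hok _ _ _ _ _ _ _ _ _ _ (Pi.single ⟨0, hf⟩ s)) ?_
  refine Rel.trans σ (relY σ hok _ _ _ _ _ _ _ _ _ _ 1) ?_
  refine Rel.trans σ (relQ σ hok _ _ _ _ _ _ _ _ _ _ (-Pi.single ⟨0, hf⟩ s)) ?_
  refine Rel.trans σ (relY σ hok _ _ _ _ _ _ _ _ _ _ (-1)) ?_
  refine Rel.of_eq σ ?_
  apply ext_coord σ
  rintro (h | h) <;> cases h <;> simp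

lemma Vt.b (hok : Ok m e f g) (s : ℝ) : Vt σ 0 (fun _ => s) 0 0 := by
  have h1 := (loop_one σ hok 1 (s / 2)).add (loop_one σ hok (-1) (s / 2))
  have h2 : ((fun j : Fin m => -(1 * (s / 2) ^ ((j : ℕ) + 1))) +
      fun j : Fin m => -(-1 * (s / 2) ^ ((j : ℕ) + 1))) = 0 := by
    funext j
    simp
  have h3 : ((fun _ : Fin e => s / 2 * (1:ℝ) ^ 2) + fun _ : Fin e => s / 2 * (-1:ℝ) ^ 2) =
      fun _ => s := by
    funext j
    simp
  rw [h2, h3, add_zero, add_zero] at h1
  exact h1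

lemma Vt.u_pow (hok : Ok m e f g) (r s : ℝ) :
    Vt σ (fun j : Fin m => r * s ^ ((j : ℕ) + 1)) 0 0 0 := by
  have h1 := (loop_one σ hok (-r) s).sub (Vt.b σ hok (s * (-r) ^ 2))
  have h2 : ((fun j : Fin m => -(-r * s ^ ((j : ℕ) + 1))) - 0) =
      fun j : Fin m => r * s ^ ((j : ℕ) + 1) := by
    funext j
    simp
  rw [h2, sub_self, sub_self, sub_self] at h1
  exact h1

lemma Vt.u (hok : Ok m e f g) (u : Fin m → ℝ) : Vt σ u 0 0 0 := by
  let S : Submodule ℝ (Fin m → ℝ) :=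
    { carrier := {w | ∀ c : ℝ, Vt σ (c • w) 0 0 0}
      add_mem' := by
        intro a b ha hb c
        have := (ha c).add (hb c)
        rw [← smul_add, add_zero, add_zero, add_zero] at this
        exact this
      zero_mem' := by
        intro c
        rw [smul_zero]
        exact Vt.zero σ
      smul_mem' := by
        intro k a ha c
        rw [smul_smul]
        exact ha _ }
  have hS : S = ⊤ := by
    by_contra hne
    obtain ⟨Λ, hΛ, hle⟩ := Submodule.exists_le_ker_of_lt_top _ (lt_top_iff_ne_top.mpr hne)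
    apply hΛ
    have h1 : ∀ s : ℝ, Λ (fun j : Fin m => s ^ ((j : ℕ) + 1)) = 0 := by
      intro s
      have : (fun j : Fin m => s ^ ((j : ℕ) + 1)) ∈ S := by
        intro c
        exact Vt.u_pow σ hok c s
      exact hle this
    have h2 : ∀ w : Fin m → ℝ, Λ w = ∑ j, w j * Λ (Pi.single j 1) := by
      intro w
      conv_lhs => rw [← Finset.univ_sum_single w]
      rw [map_sum]
      apply Finset.sum_congr rfl
      intro j _
      have : (Pi.single j (w j) : Fin m → ℝ) = w j • Pi.single j 1 := by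
        rw [← Pi.single_smul, smul_eq_mul, mul_one]
      rw [this, map_smul, smul_eq_mul]
    let P : Polynomial ℝ := ∑ j : Fin m, Polynomial.C (Λ (Pi.single j 1)) * Polynomial.X ^ ((j : ℕ) + 1)
    have hP : P = 0 := by
      apply Polynomial.funext
      intro s
      rw [Polynomial.eval_zero, ← h1 s, h2]
      simp only [P, Polynomial.eval_finsetSum, Polynomial.eval_mul, Polynomial.eval_C,
        Polynomial.eval_pow, Polynomial.eval_X]
      exact Finset.sum_congr rfl fun j _ => mul_comm _ _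
    have h3 : ∀ j : Fin m, Λ (Pi.single j 1) = 0 := by
      intro j
      have h4 : P.coeff ((j : ℕ) + 1) = Λ (Pi.single j 1) := by
        simp only [P, Polynomial.finsetSum_coeff, Polynomial.coeff_C_mul, Polynomial.coeff_X_pow]
        rw [Finset.sum_eq_single j]
        · simp
        · intro k _ hk
          have : ¬ ((j : ℕ) + 1 = (k : ℕ) + 1) := by
            intro h
            exact hk (Fin.ext (by omega))
          rw [if_neg this, mul_zero]
        · intro h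
          exact absurd (Finset.mem_univ _) h
      rw [← h4, hP, Polynomial.coeff_zero]
    apply LinearMap.ext
    intro w
    rw [h2]
    simp [h3]
  have : u ∈ S := by rw [hS]; exact Submodule.mem_top
  have h := this 1
  rwa [one_smul] at h

lemma const_of_le_one {n : ℕ} (hn : n ≤ 1) (b : Fin n → ℝ) : ∃ s, b = fun _ => s := by
  by_cases h0 : n = 0
  · subst h0
    exact ⟨0, funext fun i => i.elim0⟩
  · refine ⟨b ⟨0, by omega⟩, ?_⟩
    funext i
    congr 1
    apply Fin.ext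
    have := i.2
    show (i : ℕ) = 0
    omega

lemma Vt.all (hok : Ok m e f g) (he : e ≤ 1) (hg : g ≤ 1) (hgf : g ≤ f) (u : Fin m → ℝ)
    (b : Fin e → ℝ) (c : Fin g → ℝ) (z : ℝ) : Vt σ u b c z := by
  obtain ⟨s, rfl⟩ := const_of_le_one he b
  have hc : Vt σ 0 0 c 0 := by
    by_cases h0 : g = 0
    · have : c = 0 := by
        subst h0
        funext i
        exact i.elim0
      rw [this]
      exact Vt.zero σ
    · obtain ⟨r, rfl⟩ := const_of_le_one hg c
      have h1 := (loop_three σ hok (by omega) r).sub (loop_two σ hok r)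
      simpa using h1
  have := (((Vt.u σ hok u).add (Vt.b σ hok s)).add hc).add (loop_two σ hok z)
  simpa using this

lemma rel_zero (hok : Ok m e f g) (he : e ≤ 1) (hg : g ≤ 1) (hgf : g ≤ f)
    (v : EuclideanSpace ℝ ι) : Rel σ v 0 := by
  rw [← pt_eta σ v]
  refine Rel.trans σ (relP σ hok _ _ _ _ _ _ _ _ _ _ (-v (σ (.inl .P)))) ?_
  refine Rel.trans σ (relQ σ hok _ _ _ _ _ _ _ _ _ _ (fun i => -v (σ (.inl (.Q i))))) ?_
  refine Rel.trans σ (relA σ hok _ _ _ _ _ _ _ _ _ _ (fun i => -v (σ (.inl (.A i))))) ?_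
  refine Rel.trans σ (relE σ hok _ _ _ _ _ _ _ _ _ _ (fun i => -v (σ (.inl (.E i))))) ?_
  refine Rel.trans σ (relY σ hok _ _ _ _ _ _ _ _ _ _ (-v (σ (.inl .Y)))) ?_
  refine Rel.trans σ (relX σ hok _ _ _ _ _ _ _ _ _ _ (-v (σ (.inl .X)))) ?_
  simp only [add_neg_cancel]
  exact Rel.symm σ (Vt.all σ hok he hg hgf _ _ _ _)

theorem singularTransitive_D (hok : Ok m e f g) (he : e ≤ 1) (hg : g ≤ 1) (hgf : g ≤ f) :
    SingularTransitive (D σ) := by
  intro p q
  have h : Rel σ p q := Rel.trans σ (rel_zero σ hok he hg hgf p)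
    (Rel.symm σ (rel_zero σ hok he hg hgf q))
  induction h with
  | refl => exact Relation.ReflTransGen.refl
  | tail _ h2 ih =>
    obtain ⟨w, hw, rfl⟩ := h2
    exact Relation.ReflTransGen.tail ih (hw.step σ _)

end Pool.Agent.H68.ST
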